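import Mathlib

set_option autoImplicit false

/-! Multiboard Gale-Stewart games: a payoff set undetermined on countably many boards on which ONE
wins with uncountably many boards. -/

namespace Pool.Agent.H31R3.Boards

open Cardinal Set

/-- moves defined by recursion on the history -/
theorem exists_seq {M : Type} (step : List M → M) :
    ∃ f : ℕ → M, ∀ n, f n = step (List.ofFn (fun i : Fin n => f i)) := by
  let h : ℕ → List M := fun n => Nat.rec [] (fun _ l => l ++ [step l]) n
  have h0 : h 0 = [] := rfl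
  have h1 : ∀ n, h (n + 1) = h n ++ [step (h n)] := fun n => rfl
  refine ⟨fun n => step (h n), ?_⟩
  have key : ∀ n, List.ofFn (fun i : Fin n => step (h i)) = h n := by
    intro n
    induction n with
    | zero => simp [h0]
    | succ n ih =>
      rw [List.ofFn_succ', h1, List.concat_eq_append]
      congr 1
  intro n
  rw [key]

/-- selection lemma -/
theorem avoid {D X : Type} (hD : #D ≤ 𝔠) (hX : #X = 𝔠) (B : D → X → Set X)
    (hB : ∀ d y, (B d y).Countable) :
    ∃ Y : D → X, ∀ d d', d ≠ d' → ¬ (Y d ∈ B d' (Y d') ∧ Y d' ∈ B d (Y d)) := by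
  classical
  obtain ⟨r, wo, hr⟩ := Cardinal.exists_ord_eq D
  have hlt : ∀ d : D, #{d' | r d' d} < 𝔠 := by
    intro d
    have h1 : (Ordinal.typein r d).card < #D := Cardinal.card_typein_lt d hr
    rw [Ordinal.card_typein] at h1
    exact lt_of_lt_of_le h1 hD
  have hex : ∀ (d : D) (F : ∀ d', r d' d → X), ∃ x : X, ∀ d' (h : r d' d), x ∉ B d' (F d' h) := by
    intro d F
    by_contra hcon
    push Not at hcon
    have h1 : (univ : Set X) ⊆ ⋃ p : {d' | r d' d}, B p.1 (F p.1 p.2) := by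
      intro x _
      obtain ⟨d', h, hx⟩ := hcon x
      exact mem_iUnion.2 ⟨⟨d', h⟩, hx⟩
    have h2 : #X ≤ #(⋃ p : {d' | r d' d}, B p.1 (F p.1 p.2)) := by
      rw [← mk_univ]; exact mk_le_mk_of_subset h1
    have h3 : #(⋃ p : {d' | r d' d}, B p.1 (F p.1 p.2)) ≤ #{d' | r d' d} * ℵ₀ := by
      refine (mk_iUnion_le_sum_mk).trans ?_
      refine (sum_le_sum _ (fun _ => ℵ₀) fun (p : {d' | r d' d}) => (hB p.1 _).le_aleph0).trans ?_
      rw [sum_const']
    have h4 : #{d' | r d' d} * ℵ₀ < 𝔠 :=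
      mul_lt_of_lt aleph0_le_continuum (hlt d) aleph0_lt_continuum
    rw [hX] at h2
    exact absurd (h2.trans h3) (not_le.2 h4)
  choose G hG using hex
  let Y : D → X := wo.wf.fix (fun d F => G d F)
  have hY : ∀ d, Y d = G d (fun d' _ => Y d') := fun d => wo.wf.fix_eq _ d
  have hY2 : ∀ d d', r d' d → Y d ∉ B d' (Y d') := by
    intro d d' h
    rw [hY d]
    exact hG d (fun d' _ => Y d') d' h
  refine ⟨Y, fun d d' hne ⟨h1, h2⟩ => ?_⟩
  rcases trichotomous_of r d d' with h | h | h
  · exact hY2 d' d h h2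
  · exact hne h
  · exact hY2 d d' h h1

def OneWins (K : Type) (S : Set (ℕ → ℕ)) : Prop :=
  ∃ σ : List (K → ℕ) → (K → ℕ), ∀ f : ℕ → K → ℕ,
    (∀ n : ℕ, f (2 * n) = σ (List.ofFn (fun i : Fin (2 * n) => f i))) →
      ∃ α : K, (fun n : ℕ => f n α) ∈ S

def TwoWins (K : Type) (S : Set (ℕ → ℕ)) : Prop :=
  ∃ τ : List (K → ℕ) → (K → ℕ), ∀ f : ℕ → K → ℕ,
    (∀ n : ℕ, f (2 * n + 1) = τ (List.ofFn (fun i : Fin (2 * n + 1) => f i))) →
      ∀ α : K, (fun n : ℕ => f n α) ∉ S

/-- the payoff set built from a sequence of binary relations -/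
def Pay (T : ℕ → (ℕ → ℕ) → (ℕ → ℕ) → Prop) : Set (ℕ → ℕ) :=
  {z | (z 2 = 0 ∧ T (z 1) (fun n => z (2 * n + 4)) (fun n => z (2 * n + 3))) ∨
    (z 2 ≠ 0 ∧ ¬ T (z 1) (fun n => z (2 * n + 3)) (fun n => z (2 * n + 4)))}

/-- copycat -/
theorem pay_or {T : ℕ → (ℕ → ℕ) → (ℕ → ℕ) → Prop} {z w : ℕ → ℕ} (h1 : z 1 = w 1) (hz : z 2 = 0)
    (hw : w 2 ≠ 0) (h3 : ∀ n, z (2 * n + 4) = w (2 * n + 3))
    (h4 : ∀ n, w (2 * n + 4) = z (2 * n + 3)) : z ∈ Pay T ∨ w ∈ Pay T := by
  have e1 : (fun n => z (2 * n + 4)) = fun n => w (2 * n + 3) := funext h3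
  have e2 : (fun n => w (2 * n + 4)) = fun n => z (2 * n + 3) := funext h4
  by_cases h : T (z 1) (fun n => z (2 * n + 4)) (fun n => z (2 * n + 3))
  · left; left; exact ⟨hz, h⟩
  · right; right
    refine ⟨hw, ?_⟩
    rw [← h1, e2, ← e1]; exact h

theorem getD_ofFn {M : Type} (f : ℕ → M) (n i : ℕ) (d : M) (h : i < n) :
    (List.ofFn (fun i : Fin n => f i)).getD i d = f i := by
  rw [List.getD_eq_getElem _ _ (by simpa using h)]
  simp

theorem oneWins_uncountable (T : ℕ → (ℕ → ℕ) → (ℕ → ℕ) → Prop) (K : Type) (hK : Uncountable K) :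
    OneWins K (Pay T) := by
  classical
  have hpair : ∀ g : K → ℕ, ∃ p : K × K, p.1 ≠ p.2 ∧ g p.1 = g p.2 := by
    intro g
    by_contra hcon
    push Not at hcon
    have hinj : Function.Injective g := by
      intro a b hab
      by_contra hne
      exact hcon (a, b) hne hab
    exact not_countable hinj.countable
  choose pr hpr1 hpr2 using hpair
  let σ : List (K → ℕ) → (K → ℕ) := fun l =>
    if l.length ≤ 1 then fun _ => 0
    else if l.length = 2 then fun γ => if γ = (pr (l.getD 1 0)).1 then 0 else 1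
    else fun γ => if γ = (pr (l.getD 1 0)).1 then (l.getD (l.length - 1) 0) (pr (l.getD 1 0)).2
      else (l.getD (l.length - 1) 0) (pr (l.getD 1 0)).1
  refine ⟨σ, fun f hf => ?_⟩
  set α := (pr (f 1)).1 with hα
  set β := (pr (f 1)).2 with hβ
  have hne : β ≠ α := (hpr1 (f 1)).symm
  have h2 : ∀ γ, f 2 γ = if γ = α then 0 else 1 := by
    intro γ
    have := hf 1
    rw [show 2 * 1 = 2 by norm_num] at this
    rw [this]
    have hlen : (List.ofFn (fun i : Fin 2 => f i)).length = 2 := List.length_ofFn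
    simp only [σ, hlen]
    rw [if_neg (by norm_num), if_pos trivial, getD_ofFn f 2 1 0 (by norm_num)]
  have h4 : ∀ n γ, f (2 * n + 4) γ = if γ = α then f (2 * n + 3) β else f (2 * n + 3) α := by
    intro n γ
    have := hf (n + 2)
    rw [show 2 * (n + 2) = 2 * n + 4 by ring] at this
    rw [this]
    have hlen : (List.ofFn (fun i : Fin (2 * n + 4) => f i)).length = 2 * n + 4 := List.length_ofFn
    simp only [σ, hlen]
    rw [if_neg (by omega), if_neg (by omega), getD_ofFn f (2 * n + 4) 1 0 (by omega),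
      getD_ofFn f (2 * n + 4) (2 * n + 4 - 1) 0 (by omega)]
    rfl
  rcases pay_or (T := T) (z := fun n => f n α) (w := fun n => f n β) (hpr2 (f 1))
    (by simp [h2]) (by simp [h2, hne]) (fun n => by simp [h4]) (fun n => by simp [h4, hne])
    with h | h
  · exact ⟨α, h⟩
  · exact ⟨β, h⟩

theorem not_twoWins (T : ℕ → (ℕ → ℕ) → (ℕ → ℕ) → Prop) (K : Type) (hK : Nonempty K) :
    ¬ TwoWins K (Pay T) := by
  classical
  rintro ⟨τ, hτ⟩
  obtain ⟨α⟩ := hK
  let step : List ((K → ℕ) × (K → ℕ)) → (K → ℕ) × (K → ℕ) := fun l =>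
    if l.length % 2 = 1 then (τ (l.map Prod.fst), τ (l.map Prod.snd))
    else if l.length = 0 then (fun _ => 0, fun _ => 0)
    else if l.length = 2 then (fun _ => 0, fun _ => 1)
    else (fun _ => (l.getD (l.length - 1) (0, 0)).2 α, fun _ => (l.getD (l.length - 1) (0, 0)).1 α)
  obtain ⟨f, hf⟩ := exists_seq step
  have hodd : ∀ n, f (2 * n + 1) = (τ (List.ofFn (fun i : Fin (2 * n + 1) => (f i).1)),
      τ (List.ofFn (fun i : Fin (2 * n + 1) => (f i).2))) := by
    intro n
    rw [hf (2 * n + 1)]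
    have hlen : (List.ofFn (fun i : Fin (2 * n + 1) => f i)).length = 2 * n + 1 :=
      List.length_ofFn
    simp only [step, hlen]
    rw [if_pos (by omega), List.map_ofFn, List.map_ofFn]
    rfl
  have h0 : f 0 = (fun _ => 0, fun _ => 0) := by
    rw [hf 0]; simp [step]
  have h2 : f 2 = (fun _ => 0, fun _ => 1) := by
    rw [hf 2]
    have hlen : (List.ofFn (fun i : Fin 2 => f i)).length = 2 := List.length_ofFn
    simp only [step, hlen]
    rw [if_neg (by norm_num), if_neg (by norm_num), if_pos trivial]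
  have h4 : ∀ n, f (2 * n + 4) = (fun _ => (f (2 * n + 3)).2 α, fun _ => (f (2 * n + 3)).1 α) := by
    intro n
    rw [hf (2 * n + 4)]
    have hlen : (List.ofFn (fun i : Fin (2 * n + 4) => f i)).length = 2 * n + 4 := List.length_ofFn
    simp only [step, hlen]
    rw [if_neg (by omega), if_neg (by omega), if_neg (by omega),
      getD_ofFn f (2 * n + 4) (2 * n + 4 - 1) (0, 0) (by omega)]
    rfl
  have h1 : (f 1).1 = (f 1).2 := by
    have := hodd 0
    rw [show 2 * 0 + 1 = 1 by norm_num] at this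
    rw [this]
    simp only [List.ofFn_succ, List.ofFn_zero]
    simp [h0]
  have hA := hτ (fun n => (f n).1) (fun n => by simp only [hodd n]) α
  have hB := hτ (fun n => (f n).2) (fun n => by simp only [hodd n]) α
  rcases pay_or (T := T) (z := fun n => (f n).1 α) (w := fun n => (f n).2 α)
    (by simp only [h1]) (by simp only [h2]) (by simp only [h2]; norm_num)
    (fun n => by simp only [h4]) (fun n => by simp only [h4]) with h | h
  · exact hA h
  · exact hB h

/-- restricted strategies of ONE -/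
abbrev Dat : Type := ℕ → ℕ × (List ℕ → ℕ)

def P (d : Dat) (j : ℕ) (y : ℕ → ℕ) : ℕ → ℕ :=
  fun n => (d j).2 (List.ofFn (fun i : Fin (n + 1) => y i))

theorem mk_Dat : #Dat ≤ 𝔠 := by
  have h1 : #(List ℕ → ℕ) = 𝔠 := by simp
  have : #Dat = (ℵ₀ * #(List ℕ → ℕ)) ^ ℵ₀ := by simp [Dat]
  rw [this, h1, aleph0_mul_continuum, continuum_power_aleph0]

theorem exists_T : ∃ T : ℕ → (ℕ → ℕ) → (ℕ → ℕ) → Prop, ¬ OneWins ℕ (Pay T) := by
  classical
  obtain ⟨Y, hY⟩ := avoid (D := Dat) (X := ℕ → ℕ) mk_Dat (by simp)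
    (fun d y => range (fun j => P d j y)) (fun d y => countable_range _)
  refine ⟨fun j x y => ∃ d : Dat, (d j).1 ≠ 0 ∧ x = Y d ∧ y = P d j (Y d), ?_⟩
  rintro ⟨σ, hσ⟩
  let step : (ℕ → ℕ) → List (ℕ → ℕ) → (ℕ → ℕ) := fun y l =>
    if l.length % 2 = 0 then σ l else if l.length = 1 then fun j => j
    else fun _ => y ((l.length - 3) / 2)
  choose f hf using fun y => exists_seq (step y)
  have heven : ∀ y n, f y (2 * n) = σ (List.ofFn (fun i : Fin (2 * n) => f y i)) := by
    intro y n
    rw [hf y (2 * n)]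
    have hlen : (List.ofFn (fun i : Fin (2 * n) => f y i)).length = 2 * n := List.length_ofFn
    simp only [step, hlen]
    rw [if_pos (by omega)]
  have h1 : ∀ y, f y 1 = fun j => j := by
    intro y
    rw [hf y 1]
    have hlen : (List.ofFn (fun i : Fin 1 => f y i)).length = 1 := List.length_ofFn
    simp only [step, hlen]
    rw [if_neg (by norm_num), if_pos trivial]
  have h3 : ∀ y n, f y (2 * n + 3) = fun _ => y n := by
    intro y n
    rw [hf y (2 * n + 3)]
    have hlen : (List.ofFn (fun i : Fin (2 * n + 3) => f y i)).length = 2 * n + 3 :=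
      List.length_ofFn
    simp only [step, hlen]
    rw [if_neg (by omega), if_neg (by omega)]
    funext _
    congr 1
    omega
  -- dependence on few values only
  have hdep : ∀ m y y', (∀ i, 2 * i + 3 ≤ m → y i = y' i) → f y m = f y' m := by
    intro m
    induction m using Nat.strong_induction_on with
    | _ m ih =>
      intro y y' hyy
      rcases Nat.even_or_odd' m with ⟨n, rfl | rfl⟩
      · rw [heven y n, heven y' n]
        congr 2
        funext i
        exact ih i i.2 y y' fun j hj => hyy j (by have := i.2; omega)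
      · rcases n with _ | n
        · rw [show 2 * 0 + 1 = 1 by norm_num, h1, h1]
        · rw [show 2 * (n + 1) + 1 = 2 * n + 3 by ring, h3, h3, hyy n (by omega)]
  -- the data
  let d : Dat := fun j => (f (fun _ => 0) 2 j, fun l => f (fun n => l.getD n 0) (2 * l.length + 2) j)
  have hd1 : ∀ y j, f y 2 j = (d j).1 := by
    intro y j
    rw [hdep 2 y (fun _ => 0) (fun i hi => by omega)]
  have hd2 : ∀ y j n, f y (2 * n + 4) j = P d j y n := by
    intro y j n
    simp only [P, d, List.length_ofFn]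
    rw [show 2 * (n + 1) + 2 = 2 * n + 4 by ring]
    rw [hdep (2 * n + 4) y (fun m => (List.ofFn (fun i : Fin (n + 1) => y i)).getD m 0) ?_]
    intro i hi
    exact (getD_ofFn y (n + 1) i 0 (by omega)).symm
  obtain ⟨j, hj⟩ := hσ (f (Y d)) (heven (Y d))
  have e1 : (fun n => f (Y d) (2 * n + 4) j) = P d j (Y d) := funext fun n => hd2 (Y d) j n
  have e2 : (fun n => f (Y d) (2 * n + 3) j) = Y d := funext fun n => by rw [h3]
  rcases hj with ⟨hz, d', hd', hx, hy⟩ | ⟨hz, hno⟩
  · simp only [h1] at hd' hy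
    simp only [e1] at hx
    simp only [e2] at hy
    by_cases hdd : d = d'
    · rw [← hdd] at hd'
      simp only [hd1] at hz
      exact hd' hz
    · refine hY d d' hdd ⟨⟨j, hy.symm⟩, ⟨j, hx⟩⟩
  · apply hno
    simp only [h1, e1, e2]
    refine ⟨d, ?_, rfl, rfl⟩
    simp only [hd1] at hz
    exact hz

theorem oneWins_mono {K K' : Type} (i : K → K') (hi : Function.Injective i) {S : Set (ℕ → ℕ)}
    (h : OneWins K S) : OneWins K' S := by
  classical
  obtain ⟨σ, hσ⟩ := h
  refine ⟨fun l β => if h : ∃ α, i α = β then σ (l.map (fun g α => g (i α))) h.choose else 0, ?_⟩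
  intro f hf
  obtain ⟨α, hα⟩ := hσ (fun n α => f n (i α)) (by
    intro n
    funext α
    have h2 : ∃ α', i α' = i α := ⟨α, rfl⟩
    have h3 : h2.choose = α := hi h2.choose_spec
    simp only [hf n, dif_pos h2, h3, List.map_ofFn]
    rfl)
  exact ⟨i α, hα⟩

end Pool.Agent.H31R3.Boards
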