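import Pool.Agent.H31R3.CantorFusion

set_option autoImplicit false

/-! Countable conditions: a countable set of points and a countable family of Cantor sets. -/

namespace Pool.Agent.H31R3.Fusion

open Topology Set Filter MeasureTheory

abbrev Y : Type := ℕ → ℤ

structure Cond where
  A : Set Y
  T : Set C(K, Y)
  hA : A.Countable
  hT : T.Countable
  hne : T.Nonempty
  hinj : ∀ f ∈ T, Function.Injective f

/-- All points on the Cantor sets of the family. -/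
def pts (T : Set C(K, Y)) : Set Y := ⋃ f ∈ T, range f

theorem mem_pts {T : Set C(K, Y)} {y : Y} : y ∈ pts T ↔ ∃ f ∈ T, ∃ z, f z = y := by
  simp [pts]

def Le (q p : Cond) : Prop :=
  p.A ⊆ q.A ∧ q.A \ p.A ⊆ pts p.T ∧ (∀ f' ∈ q.T, ∃ f ∈ p.T, range f' ⊆ range f) ∧
    (∀ f ∈ p.T, ∀ V : Set C(K, Y), IsOpen V → f ∈ V → ∃ f' ∈ q.T, f' ∈ V ∧ range f' ⊆ range f)

theorem Le.pts_sub {q p : Cond} (h : Le q p) : pts q.T ⊆ pts p.T := by
  intro y hy
  obtain ⟨f', hf', z, rfl⟩ := mem_pts.1 hy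
  obtain ⟨f, hf, hr⟩ := h.2.2.1 f' hf'
  obtain ⟨w, hw⟩ := hr ⟨z, rfl⟩
  exact mem_pts.2 ⟨f, hf, w, hw⟩

theorem Le.refl (p : Cond) : Le p p :=
  ⟨Subset.rfl, by simp, fun f hf => ⟨f, hf, Subset.rfl⟩, fun f hf V _ hV => ⟨f, hf, hV, Subset.rfl⟩⟩

theorem Le.trans {r q p : Cond} (h1 : Le r q) (h2 : Le q p) : Le r p := by
  refine ⟨h2.1.trans h1.1, ?_, ?_, ?_⟩
  · rintro x ⟨hx, hxp⟩
    by_cases hxq : x ∈ q.A
    · exact h2.2.1 ⟨hxq, hxp⟩
    · exact h2.pts_sub (h1.2.1 ⟨hx, hxq⟩)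
  · intro f'' hf''
    obtain ⟨f', hf', hr'⟩ := h1.2.2.1 f'' hf''
    obtain ⟨f, hf, hr⟩ := h2.2.2.1 f' hf'
    exact ⟨f, hf, hr'.trans hr⟩
  · intro f hf V hV hfV
    obtain ⟨f', hf', hfV', hr'⟩ := h2.2.2.2 f hf V hV hfV
    obtain ⟨f'', hf'', hfV'', hr''⟩ := h1.2.2.2 f' hf' V hV hfV'
    exact ⟨f'', hf'', hfV'', hr''.trans hr'⟩

/-- Abstract limit lemma. -/
theorem limit_lemma {X : Type*} [TopologicalSpace X]
    [TopologicalSpace.IsCompletelyMetrizableSpace X]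
    (T : ℕ → Set X) (sub : X → X → Prop)
    (hT : ∀ n, ∀ f ∈ T n, ∀ V : Set X, IsOpen V → f ∈ V → ∃ f' ∈ T (n + 1), f' ∈ V ∧ sub f' f)
    (𝒱 : ℕ → Set X) (h𝒱 : ∀ m, IsOpen (𝒱 m)) (hT𝒱 : ∀ n m, T n ⊆ 𝒱 m)
    (n : ℕ) (f : X) (hf : f ∈ T n) (V : Set X) (hV : IsOpen V) (hfV : f ∈ V) :
    ∃ (F : ℕ → X) (h : X), F 0 = f ∧ (∀ j, F j ∈ T (n + j)) ∧ (∀ j, sub (F (j + 1)) (F j)) ∧
      Tendsto F atTop (𝓝 h) ∧ h ∈ V ∧ ∀ m, h ∈ 𝒱 m := by
  let _ := TopologicalSpace.upgradeIsCompletelyMetrizable X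
  -- step
  have step : ∀ (j : ℕ) (g : X), g ∈ T (n + j) → ∀ r > (0 : ℝ), ∃ g' ∈ T (n + (j + 1)), ∃ r' > (0:ℝ),
      sub g' g ∧ r' ≤ r / 2 ∧ Metric.closedBall g' r' ⊆ Metric.ball g r ∩ 𝒱 j := by
    intro j g hg r hr
    have hg𝒱 : g ∈ Metric.ball g r ∩ 𝒱 j := ⟨Metric.mem_ball_self hr, hT𝒱 _ _ hg⟩
    obtain ⟨g', hg', hgV, hs⟩ := hT (n + j) g hg (Metric.ball g r ∩ 𝒱 j)
      (Metric.isOpen_ball.inter (h𝒱 j)) hg𝒱
    obtain ⟨ε, hε, hball⟩ := Metric.isOpen_iff.1 (Metric.isOpen_ball.inter (h𝒱 j)) g' hgV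
    refine ⟨g', hg', min (ε / 2) (r / 2), by positivity, hs, min_le_right _ _, ?_⟩
    refine Subset.trans ?_ hball
    apply Metric.closedBall_subset_ball
    have := min_le_left (ε / 2) (r / 2)
    linarith
  obtain ⟨r0, hr0, hball0⟩ := Metric.isOpen_iff.1 hV f hfV
  let S : ℕ → Type _ := fun j => {q : X × ℝ // q.1 ∈ T (n + j) ∧ 0 < q.2}
  choose G hG R hR hsub hRr hcl using step
  let seq : ∀ j, S j := fun j => Nat.rec (⟨(f, r0 / 2), hf, by positivity⟩ : S 0)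
    (fun j s => (⟨(G j s.1.1 s.2.1 s.1.2 s.2.2, R j s.1.1 s.2.1 s.1.2 s.2.2),
      hG j s.1.1 s.2.1 s.1.2 s.2.2, hR j s.1.1 s.2.1 s.1.2 s.2.2⟩ : S (j + 1))) j
  let F : ℕ → X := fun j => (seq j).1.1
  let ρ : ℕ → ℝ := fun j => (seq j).1.2
  have hρpos : ∀ j, 0 < ρ j := fun j => (seq j).2.2
  have hFT : ∀ j, F j ∈ T (n + j) := fun j => (seq j).2.1
  have hFsub : ∀ j, sub (F (j + 1)) (F j) := fun j => hsub j _ _ _ _
  have hρ : ∀ j, ρ (j + 1) ≤ ρ j / 2 := fun j => hRr j _ _ _ _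
  have hcl' : ∀ j, Metric.closedBall (F (j + 1)) (ρ (j + 1)) ⊆ Metric.ball (F j) (ρ j) ∩ 𝒱 j :=
    fun j => hcl j _ _ _ _
  have hnest : ∀ j k, Metric.closedBall (F (j + k)) (ρ (j + k)) ⊆ Metric.closedBall (F j) (ρ j) := by
    intro j k
    induction k with
    | zero => exact Subset.rfl
    | succ k ih =>
      exact ((hcl' (j + k)).trans inter_subset_left).trans
        (Metric.ball_subset_closedBall.trans ih)
  have hρ2 : ∀ j, ρ j ≤ ρ 0 / 2 ^ j := by
    intro j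
    induction j with
    | zero => simp
    | succ j ih =>
      have := hρ j
      calc ρ (j + 1) ≤ ρ j / 2 := this
        _ ≤ (ρ 0 / 2 ^ j) / 2 := by linarith
        _ = ρ 0 / 2 ^ (j + 1) := by rw [pow_succ]; field_simp
  have hcauchy : CauchySeq F := by
    rw [Metric.cauchySeq_iff']
    intro ε hε
    have h1 : Tendsto (fun j : ℕ => ρ 0 / 2 ^ j) atTop (𝓝 0) := by
      have := (tendsto_pow_atTop_nhds_zero_of_lt_one (r := (1/2 : ℝ)) (by norm_num)
        (by norm_num)).const_mul (ρ 0)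
      simp only [mul_zero] at this
      refine this.congr fun j => ?_
      rw [one_div, inv_pow]; rfl
    obtain ⟨N, hN⟩ := ((tendsto_order.1 h1).2 ε hε).exists
    refine ⟨N, fun k hk => ?_⟩
    obtain ⟨d, rfl⟩ := Nat.exists_eq_add_of_le hk
    have := hnest N d (Metric.mem_closedBall_self (hρpos _).le)
    rw [Metric.mem_closedBall] at this
    exact lt_of_le_of_lt (this.trans (hρ2 N)) hN
  obtain ⟨h, hh⟩ := cauchySeq_tendsto_of_complete hcauchy
  have hmem : ∀ j, h ∈ Metric.closedBall (F j) (ρ j) := by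
    intro j
    refine Metric.isClosed_closedBall.mem_of_tendsto hh ?_
    filter_upwards [eventually_ge_atTop j] with k hk
    obtain ⟨d, rfl⟩ := Nat.exists_eq_add_of_le hk
    exact hnest j d (Metric.mem_closedBall_self (hρpos _).le)
  refine ⟨F, h, rfl, hFT, hFsub, hh, ?_, ?_⟩
  · apply hball0
    have h1 := hmem 0
    rw [Metric.mem_closedBall] at h1
    rw [Metric.mem_ball]
    have h2 : ρ 0 = r0 / 2 := rfl
    have h3 : F 0 = f := rfl
    rw [h2, h3] at h1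
    linarith
  · intro m
    exact (hcl' m (hmem (m + 1))).2

/-- Injectivity is a countable intersection of open conditions. -/
def inj𝒱 (m : ℕ) : Set C(K, Y) :=
  {h | ∀ p ∈ {p : K × K | res m p.1 ≠ res m p.2}, h p.1 ≠ h p.2}

theorem isOpen_inj𝒱 (m : ℕ) : IsOpen (inj𝒱 m) := by
  have hK : IsCompact {p : K × K | res m p.1 ≠ res m p.2} := by
    have hcl : IsClosed {p : K × K | res m p.1 ≠ res m p.2} := by
      have : {p : K × K | res m p.1 ≠ res m p.2}
          = (fun p : K × K => (res m p.1, res m p.2)) ⁻¹' {q | q.1 ≠ q.2} := rfl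
      rw [this]
      exact (isClosed_discrete _).preimage
        (((continuous_res m).comp continuous_fst).prodMk ((continuous_res m).comp continuous_snd))
    exact hcl.isCompact
  rw [isOpen_iff_mem_nhds]
  intro g hg
  refine hK.eventually_forall_of_forall_eventually ?_
  intro p hp
  have hc1 : Continuous (fun q : C(K, Y) × (K × K) => q.1 q.2.1) :=
    Continuous.eval continuous_fst (continuous_fst.comp continuous_snd)
  have hc2 : Continuous (fun q : C(K, Y) × (K × K) => q.1 q.2.2) :=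
    Continuous.eval continuous_fst (continuous_snd.comp continuous_snd)
  have ho : IsOpen {q : C(K, Y) × (K × K) | q.1 q.2.1 ≠ q.1 q.2.2} := isOpen_ne_fun hc1 hc2
  exact ho.mem_nhds (hg p hp)

theorem injective_iff (h : C(K, Y)) : Function.Injective h ↔ ∀ m, h ∈ inj𝒱 m := by
  constructor
  · intro hi m p hp heq
    exact hp (by rw [hi heq])
  · intro hm z z' heq
    by_contra hne
    obtain ⟨n, hn⟩ := Function.ne_iff.1 hne
    refine hm (n + 1) (z, z') ?_ heq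
    intro h
    exact hn (congrFun h (Fin.last n))

theorem exists_lower (p : ℕ → Cond) (hp : ∀ n, Le (p (n + 1)) (p n)) : ∃ q, ∀ n, Le q (p n) := by
  have hle : ∀ n k, Le (p (n + k)) (p n) := by
    intro n k
    induction k with
    | zero => exact Le.refl _
    | succ k ih => exact (hp (n + k)).trans ih
  have hle' : ∀ m n, n ≤ m → Le (p m) (p n) := by
    intro m n h
    obtain ⟨d, rfl⟩ := Nat.exists_eq_add_of_le h
    exact hle n d
  have hbasis : ∀ f : C(K, Y), ∃ B : ℕ → Set C(K, Y), (∀ k, IsOpen (B k) ∧ f ∈ B k) ∧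
      ∀ V, IsOpen V → f ∈ V → ∃ k, B k ⊆ V := by
    intro f
    obtain ⟨B, hB⟩ := (𝓝 f).exists_antitone_basis
    refine ⟨fun k => interior (B k), fun k => ⟨isOpen_interior,
      mem_interior_iff_mem_nhds.2 (hB.1.mem_of_mem trivial)⟩, fun V hV hfV => ?_⟩
    obtain ⟨k, -, hk⟩ := hB.1.mem_iff.1 (hV.mem_nhds hfV)
    exact ⟨k, interior_subset.trans hk⟩
  choose B hB1 hB2 using hbasis
  have key : ∀ n (f : (p n).T) k, ∃ h : C(K, Y), h ∈ B f k ∧ Function.Injective h ∧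
      range h ⊆ range (f : C(K, Y)) ∧ ∀ j, ∃ g ∈ (p (n + j)).T, range h ⊆ range g := by
    rintro n ⟨f, hf⟩ k
    obtain ⟨F, h, hF0, hFT, hFsub, hlim, hhV, hh𝒱⟩ := limit_lemma (X := C(K, Y))
      (fun n => (p n).T) (fun f' f => range f' ⊆ range f)
      (fun n f hf V hV hfV => (hp n).2.2.2 f hf V hV hfV)
      inj𝒱 isOpen_inj𝒱 (fun n m f hf => (injective_iff f).1 ((p n).hinj f hf) m)
      n f hf (B f k) (hB1 f k).1 (hB1 f k).2
    have hsub : ∀ j d, range (F (j + d)) ⊆ range (F j) := by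
      intro j d
      induction d with
      | zero => exact Subset.rfl
      | succ d ih => exact (hFsub (j + d)).trans ih
    have hr : ∀ j, range h ⊆ range (F j) := by
      rintro j _ ⟨z, rfl⟩
      have hcl : IsClosed (range (F j)) := (isCompact_range (F j).continuous).isClosed
      have hz : Tendsto (fun i => F i z) atTop (𝓝 (h z)) :=
        ((continuous_id.eval continuous_const :
          Continuous (fun f : C(K, Y) => f z)).tendsto h).comp hlim
      refine hcl.mem_of_tendsto hz ?_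
      filter_upwards [eventually_ge_atTop j] with i hi
      obtain ⟨d, rfl⟩ := Nat.exists_eq_add_of_le hi
      exact hsub j d ⟨z, rfl⟩
    refine ⟨h, hhV, (injective_iff h).2 hh𝒱, ?_, fun j => ⟨F j, hFT j, hr j⟩⟩
    have := hr 0
    rwa [hF0] at this
  choose H hH1 hH2 hH3 hH4 using key
  let T : Set C(K, Y) := ⋃ n, ⋃ f : (p n).T, ⋃ k, {H n f k}
  have hTc : T.Countable := by
    refine countable_iUnion fun n => ?_
    have := (p n).hT.to_subtype
    exact countable_iUnion fun f => countable_iUnion fun k => countable_singleton _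
  have hTmem : ∀ h, h ∈ T ↔ ∃ n f k, h = H n f k := by
    intro h; simp [T, eq_comm]
  obtain ⟨f0, hf0⟩ := (p 0).hne
  refine ⟨⟨⋃ n, (p n).A, T, countable_iUnion fun n => (p n).hA, hTc,
    ⟨H 0 ⟨f0, hf0⟩ 0, (hTmem _).2 ⟨_, _, _, rfl⟩⟩, ?_⟩, fun n => ⟨?_, ?_, ?_, ?_⟩⟩
  · intro h hh
    obtain ⟨n, f, k, rfl⟩ := (hTmem _).1 hh
    exact hH2 n f k
  · exact subset_iUnion (fun n => (p n).A) n
  · rintro x ⟨hx, hxn⟩
    obtain ⟨m, hm⟩ := mem_iUnion.1 hx
    rcases le_total m n with h | h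
    · exact absurd ((hle' n m h).1 hm) hxn
    · exact (hle' m n h).2.1 ⟨hm, hxn⟩
  · intro h hh
    obtain ⟨n', f, k, rfl⟩ := (hTmem _).1 hh
    rcases le_total n' n with hn | hn
    · obtain ⟨d, rfl⟩ := Nat.exists_eq_add_of_le hn
      exact hH4 n' f k d
    · obtain ⟨g, hg, hr⟩ := (hle' n' n hn).2.2.1 f f.2
      exact ⟨g, hg, (hH3 n' f k).trans hr⟩
  · intro f hf V hV hfV
    obtain ⟨k, hk⟩ := hB2 f V hV hfV
    exact ⟨H n ⟨f, hf⟩ k, (hTmem _).2 ⟨_, _, _, rfl⟩, hk (hH1 n ⟨f, hf⟩ k), hH3 n ⟨f, hf⟩ k⟩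

end Pool.Agent.H31R3.Fusion
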