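import Pool.Agent.H31R3.CantorCond

set_option autoImplicit false

namespace Pool.Agent.H31R3.Fusion

open Topology Set Filter MeasureTheory

/-- The condition `q` decides the sequence of families `U`. -/
def Dec (U : ℕ → ℕ → Set Y) (q : Cond) : Prop :=
  (∃ m, ∃ F : Finset Y, (∀ x ∈ F, x ∈ Submodule.span ℤ q.A) ∧ ∀ l, ¬ ((F : Set Y) ⊆ U m l)) ∨
  (∃ B : ℕ → ℕ, ∀ a ∈ Submodule.span ℤ q.A, ∀ Z : Finset Y, ((Z : Set Y) ⊆ pts q.T) →
    ∀ c : Y → ℤ, ∀ᶠ m in atTop, a + ∑ y ∈ Z, c y • y ∈ U m (B m))

theorem finite_coef (m : ℕ) (ι : Type) [Finite ι] : {c : ι → ℤ | ∀ j, |c j| ≤ (m : ℤ)}.Finite := by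
  have h : {c : ι → ℤ | ∀ j, |c j| ≤ (m : ℤ)} = Set.pi univ (fun _ => Icc (-(m : ℤ)) m) := by
    ext c; simp only [mem_ofPred_eq, Set.mem_pi, mem_univ, true_implies, mem_Icc, abs_le]
  rw [h]
  exact Set.Finite.pi' (fun _ => finite_Icc _ _) |>.subset (fun c hc j => hc j (mem_univ j))

theorem decide_lemma (p : Cond) (U : ℕ → ℕ → Set Y)
    (hU : ∀ m l, MeasurableSet[borel Y] (U m l)) : ∃ q, Le q p ∧ Dec U q := by
  classical
  by_cases H : ∀ m, ∀ F : Finset Y, (∀ x ∈ F, x ∈ Submodule.span ℤ (p.A ∪ pts p.T)) →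
      ∃ l, (F : Set Y) ⊆ U m l
  swap
  · -- failure of being an omega-cover
    push Not at H
    obtain ⟨m, F, hF, hFl⟩ := H
    have h1 : ∀ x : Y, x ∈ F → ∃ T : Finset Y, (T : Set Y) ⊆ p.A ∪ pts p.T ∧
        x ∈ Submodule.span ℤ (T : Set Y) := fun x hx =>
      Submodule.mem_span_finite_of_mem_span (hF x hx)
    choose! T hT1 hT2 using h1
    let Z : Set Y := (⋃ x ∈ F, (T x : Set Y)) ∩ pts p.T
    have hZc : Z.Countable := by
      refine Countable.mono inter_subset_left ?_
      exact F.countable_toSet.biUnion fun x _ => (T x).countable_toSet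
    refine ⟨⟨p.A ∪ Z, p.T, p.hA.union hZc, p.hT, p.hne, p.hinj⟩, ⟨subset_union_left, ?_,
      fun f hf => ⟨f, hf, Subset.rfl⟩, fun f hf V _ hV => ⟨f, hf, hV, Subset.rfl⟩⟩, Or.inl
      ⟨m, F, ?_, hFl⟩⟩
    · rintro x ⟨hx | hx, hxA⟩
      · exact absurd hx hxA
      · exact hx.2
    · intro x hx
      refine Submodule.span_mono ?_ (hT2 x hx)
      intro y hy
      rcases hT1 x hx hy with h | h
      · exact Or.inl h
      · exact Or.inr ⟨mem_iUnion₂.2 ⟨x, hx, hy⟩, h⟩
  · -- the fusion
    obtain ⟨e, he⟩ := p.hT.exists_eq_range p.hne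
    have heT : ∀ k, e k ∈ p.T := fun k => by rw [he]; exact mem_range_self k
    let f : ℕ → C(K, Y) := fun i => e (Nat.unpair i).1
    have hfT : ∀ i, f i ∈ p.T := fun i => heT _
    have hspanc : (Submodule.span ℤ p.A : Set Y).Countable := by
      have := p.hA.to_subtype
      refine (countable_range (fun l : p.A →₀ ℤ =>
        Finsupp.linearCombination ℤ (fun x : p.A => (x : Y)) l)).mono ?_
      intro x hx
      exact (Finsupp.mem_span_iff_linearCombination ℤ p.A x).1 hx
    obtain ⟨α, hα⟩ := hspanc.exists_eq_range ⟨0, Submodule.zero_mem _⟩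
    have hαmem : ∀ n, α n ∈ Submodule.span ℤ p.A := fun n => by
      have : α n ∈ (Submodule.span ℤ p.A : Set Y) := by rw [hα]; exact mem_range_self n
      exact this
    let comb : ∀ m N : ℕ, ℕ → (J m N → ℤ) → (J m N → K) → Y := fun m N n c y =>
      α n + ∑ j, c j • f j.1 (y j)
    have hcomb : ∀ m N n c, Continuous (comb m N n c) := by
      intro m N n c
      refine continuous_const.add (continuous_finsetSum _ fun j _ => ?_)
      exact ((f j.1).continuous.comp (continuous_apply j)).const_smul (c j)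
    let W : ∀ m _l N : ℕ, Set (J m N → K) := fun m l N =>
      {y | ∀ n ≤ m, ∀ c : J m N → ℤ, (∀ j, |c j| ≤ (m : ℤ)) → comb m N n c y ∈ U m l}
    have hW : ∀ m l N, MeasurableSet[borel (J m N → K)] (W m l N) := by
      intro m l N
      have h : W m l N = ⋂ n, ⋂ (_ : n ≤ m), ⋂ c : J m N → ℤ, ⋂ (_ : ∀ j, |c j| ≤ (m : ℤ)),
          (comb m N n c) ⁻¹' (U m l) := by
        ext y; simp [W]
      rw [h]
      let _ : MeasurableSpace (J m N → K) := borel _
      refine MeasurableSet.iInter fun n => MeasurableSet.iInter fun _ =>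
        MeasurableSet.iInter fun c => MeasurableSet.iInter fun _ => ?_
      exact (hcomb m N n c).borel_measurable (hU m l)
    have hcov : ∀ m N y, ∃ l, y ∈ W m l N := by
      intro m N y
      have hfin : (⋃ n ∈ Finset.range (m + 1), (fun c => comb m N n c y) ''
          {c : J m N → ℤ | ∀ j, |c j| ≤ (m : ℤ)}).Finite := by
        refine (Finset.range (m + 1)).finite_toSet.biUnion fun n _ => ?_
        exact (finite_coef m (J m N)).image _
      obtain ⟨l, hl⟩ := H m hfin.toFinset (by
        intro x hx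
        rw [Finite.mem_toFinset] at hx
        obtain ⟨n, hn, c, hc, rfl⟩ := mem_iUnion₂.1 hx
        refine Submodule.add_mem _ (Submodule.span_mono subset_union_left (hαmem n)) ?_
        refine Submodule.sum_mem _ fun j _ => Submodule.smul_mem _ _ (Submodule.subset_span ?_)
        exact Or.inr (mem_pts.2 ⟨f j.1, hfT _, y j, rfl⟩))
      refine ⟨l, fun n hn c hc => hl ?_⟩
      rw [Finite.coe_toFinset]
      exact mem_iUnion₂.2 ⟨n, Finset.mem_range.2 (by omega), c, hc, rfl⟩
    have hinf : ∀ k, {i : ℕ | (Nat.unpair i).1 = k}.Infinite := by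
      intro k
      refine Set.infinite_of_injective_forall_mem (f := fun n => Nat.pair k n) ?_ ?_
      · intro n n' h
        have := congrArg (fun i => (Nat.unpair i).2) h
        simpa using this
      · intro n; simp
    obtain ⟨g, hg1, hg2, hg3⟩ := (dense_of_mem_residual ((fusion W hW hcov).and
      (generic_inj.and (generic_close _ hinf)))).nonempty
    choose N hNm B hB using hg1
    have hrange : ∀ i, range ((f i).comp (g i)) ⊆ range (f i) := by
      rintro i _ ⟨z, rfl⟩; exact ⟨g i z, rfl⟩
    refine ⟨⟨p.A, range fun i => (f i).comp (g i), p.hA, countable_range _,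
      range_nonempty _, ?_⟩, ⟨Subset.rfl, by simp, ?_, ?_⟩, Or.inr ⟨B, ?_⟩⟩
    · rintro _ ⟨i, rfl⟩
      exact (p.hinj _ (hfT i)).comp (hg2 i)
    · rintro _ ⟨i, rfl⟩
      exact ⟨f i, hfT i, hrange i⟩
    · intro φ hφ V hV hφV
      rw [he] at hφ
      obtain ⟨k, rfl⟩ := hφ
      have h1 : {g' : C(K, K) | (e k).comp g' ∈ V} ∈ 𝓝 (ContinuousMap.id K) := by
        refine (hV.preimage (ContinuousMap.continuous_postcomp (e k))).mem_nhds ?_
        simpa using hφV
      obtain ⟨i, hi, hgi⟩ := hg3 k _ h1
      have hfi : f i = e k := by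
        simp only [f]
        rw [show (Nat.unpair i).1 = k from hi]
      refine ⟨_, ⟨i, rfl⟩, ?_, ?_⟩
      · simp only [hfi]; exact hgi
      · simp only [hfi]
        rintro _ ⟨z, rfl⟩; exact ⟨g i z, rfl⟩
    · intro a ha Z hZ c
      have ha' : a ∈ range α := by rw [← hα]; exact ha
      obtain ⟨n0, rfl⟩ := ha'
      have hrep : ∀ y : Y, y ∈ Z → ∃ i : ℕ, ∃ z : K, f i (g i z) = y := by
        intro y hy
        obtain ⟨φ, ⟨i, rfl⟩, z, hz⟩ := mem_pts.1 (hZ hy)
        exact ⟨i, z, hz⟩
      choose! I z hIz using hrep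
      have hsep : ∀ y ∈ Z, ∀ y' ∈ Z, y ≠ y' → ∀ᶠ m in atTop,
          ¬ (I y = I y' ∧ res m (z y) = res m (z y')) := by
        intro y hy y' hy' hne
        by_cases hI : I y = I y'
        · have hzz : z y ≠ z y' := by
            intro h
            apply hne
            rw [← hIz y hy, ← hIz y' hy', hI, h]
          obtain ⟨n, hn⟩ := Function.ne_iff.1 hzz
          filter_upwards [eventually_gt_atTop n] with m hm
          rintro ⟨_, h⟩
          exact hn (congrFun h ⟨n, hm⟩)
        · exact Eventually.of_forall fun m h => hI h.1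
      have hsep' : ∀ᶠ m in atTop, ∀ y ∈ Z, ∀ y' ∈ Z, y ≠ y' →
          ¬ (I y = I y' ∧ res m (z y) = res m (z y')) := by
        rw [Filter.eventually_all_finset]
        intro y hy
        rw [Filter.eventually_all_finset]
        intro y' hy'
        by_cases hne : y = y'
        · exact Eventually.of_forall fun m h => absurd hne h
        · filter_upwards [hsep y hy y' hy' hne] with m hm _
          exact hm
      have hbig : ∀ᶠ m : ℕ in atTop, ∀ y ∈ Z, I y < m ∧ |c y| ≤ (m : ℤ) := by
        rw [Filter.eventually_all_finset]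
        intro y hy
        filter_upwards [eventually_gt_atTop (I y), eventually_ge_atTop (|c y|).toNat] with m h1 h2
        exact ⟨h1, by omega⟩
      filter_upwards [hsep', hbig, eventually_ge_atTop n0] with m hm1 hm2 hm3
      -- the pieces
      let jj : {y // y ∈ Z} → J m (N m) := fun y => (⟨I y, (hm2 y y.2).1⟩, res (N m) (z y))
      have hjinj : Function.Injective jj := by
        intro y y' h
        by_contra hne
        have hne' : (y : Y) ≠ y' := fun h => hne (Subtype.ext h)
        apply hm1 y y.2 y' y'.2 hne'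
        have h1 : I y = I y' := congrArg (fun q : J m (N m) => (q.1 : ℕ)) h
        have h2 : res (N m) (z y) = res (N m) (z y') := congrArg Prod.snd h
        refine ⟨h1, ?_⟩
        have h3 := congrArg (cut (hNm m)) h2
        rwa [cut_res, cut_res] at h3
      let zz : J m (N m) → K := fun j => if h : ∃ y, jj y = j then z h.choose else ext j.2
      let cc : J m (N m) → ℤ := fun j => if h : ∃ y, jj y = j then c h.choose else 0
      have hzj : ∀ y, zz (jj y) = z y := by
        intro y
        have h : ∃ y', jj y' = jj y := ⟨y, rfl⟩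
        have h2 : h.choose = y := hjinj h.choose_spec
        simp only [zz, dif_pos h, h2]
      have hcj : ∀ y, cc (jj y) = c y := by
        intro y
        have h : ∃ y', jj y' = jj y := ⟨y, rfl⟩
        have h2 : h.choose = y := hjinj h.choose_spec
        simp only [cc, dif_pos h, h2]
      have hbox : zz ∈ Box m (N m) := by
        intro j
        by_cases h : ∃ y, jj y = j
        · obtain ⟨y, rfl⟩ := h
          rw [hzj]
        · simp only [zz, dif_neg h]; exact res_ext _
      have hcc : ∀ j, |cc j| ≤ (m : ℤ) := by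
        intro j
        by_cases h : ∃ y, jj y = j
        · obtain ⟨y, rfl⟩ := h
          rw [hcj]; exact (hm2 y y.2).2
        · simp only [cc, dif_neg h]; simp
      have hfinal := hB m zz hbox n0 hm3 cc hcc
      have hsum : ∑ j, cc j • f j.1 (ev m (N m) g zz j) = ∑ y ∈ Z, c y • y := by
        rw [← Finset.sum_subset (Finset.subset_univ (Finset.univ.image jj))]
        · rw [Finset.sum_image (fun y _ y' _ h => hjinj h)]
          rw [← Finset.sum_coe_sort Z (fun y => c y • y)]
          refine Finset.sum_congr rfl fun y _ => ?_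
          rw [hcj]
          simp only [ev]
          rw [hzj]
          congr 1
          exact hIz y y.2
        · intro j _ hj
          have h : ¬ ∃ y, jj y = j := by
            rintro ⟨y, rfl⟩
            exact hj (Finset.mem_image_of_mem _ (Finset.mem_univ y))
          simp only [cc, dif_neg h, zero_smul]
      simp only [comb] at hfinal
      rwa [hsum] at hfinal

end Pool.Agent.H31R3.Fusion
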