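import Mathlib

set_option autoImplicit false

/-! Generic sequences of continuous self-maps of the Cantor space. -/

namespace Pool.Agent.H31R3.Fusion

open Topology Set Filter MeasureTheory

abbrev K : Type := ℕ → Bool

instance boolUCG : (uniformity Bool).IsCountablyGenerated := by
  rw [DiscreteUniformity.eq_principal_setRelId]
  infer_instance

/-- pieces -/
abbrev J (m N : ℕ) : Type := Fin m × (Fin N → Bool)

def res (N : ℕ) (z : K) : Fin N → Bool := fun i => z i

theorem continuous_res (N : ℕ) : Continuous (res N) :=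
  continuous_pi fun i => continuous_apply (i : ℕ)

def ext {N : ℕ} (s : Fin N → Bool) : K := fun i => if h : i < N then s ⟨i, h⟩ else false

theorem res_ext {N : ℕ} (s : Fin N → Bool) : res N (ext s) = s := by
  funext i
  simp [res, ext]

theorem ext_res {N : ℕ} (z : K) {i : ℕ} (hi : i < N) : ext (res N z) i = z i := by
  simp [res, ext, hi]

/-- restriction of finite strings -/
def cut {N N' : ℕ} (h : N ≤ N') (s : Fin N' → Bool) : Fin N → Bool :=
  fun i => s ⟨i, lt_of_lt_of_le i.2 h⟩

theorem cut_res {N N' : ℕ} (h : N ≤ N') (z : K) : cut h (res N' z) = res N z := rfl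

def Box (m N : ℕ) : Set (J m N → K) := {z | ∀ j, res N (z j) = j.2}

theorem isClosed_Box (m N : ℕ) : IsClosed (Box m N) := by
  have : Box m N = ⋂ j : J m N, {z | res N (z j) = j.2} := by
    ext z; simp [Box]
  rw [this]
  exact isClosed_iInter fun j =>
    isClosed_eq ((continuous_res N).comp (continuous_apply j)) continuous_const

def ev (m N : ℕ) (g : ℕ → C(K, K)) (z : J m N → K) : J m N → K := fun j => g j.1 (z j)

theorem continuous_ev (m N : ℕ) :
    Continuous (fun p : (ℕ → C(K, K)) × (J m N → K) => ev m N p.1 p.2) := by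
  refine continuous_pi fun j => ?_
  exact Continuous.eval ((continuous_apply (j.1 : ℕ)).comp continuous_fst)
    ((continuous_apply j).comp continuous_snd)

theorem isOpen_cond {m N : ℕ} {D : Set (J m N → K)} (hD : IsOpen D) :
    IsOpen {g : ℕ → C(K, K) | ∀ z ∈ Box m N, ev m N g z ∈ D} := by
  rw [isOpen_iff_mem_nhds]
  intro g hg
  refine (isClosed_Box m N).isCompact.eventually_forall_of_forall_eventually ?_
  intro z hz
  exact (continuous_ev m N).continuousAt.preimage_mem_nhds (hD.mem_nhds (hg z hz))

/-- locally constant modifications -/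
def LC (m N : ℕ) (g : ℕ → C(K, K)) (y : J m N → K) : ℕ → C(K, K) := fun i =>
  if h : i < m then ⟨fun z => y (⟨i, h⟩, res N z), by
    exact (continuous_of_discreteTopology (f := fun s : Fin N → Bool => y (⟨i, h⟩, s))).comp
      (continuous_res N)⟩ else g i

theorem LC_apply {m N : ℕ} (g : ℕ → C(K, K)) (y : J m N → K) (i : Fin m) (z : K) :
    LC m N g y i z = y (i, res N z) := by
  simp [LC]

theorem continuous_LC (m N : ℕ) (g : ℕ → C(K, K)) : Continuous (LC m N g) := by
  refine continuous_pi fun i => ?_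
  by_cases h : i < m
  · refine ContinuousMap.continuous_of_continuous_uncurry _ ?_
    have h1 : (Function.uncurry fun (x : J m N → K) (z : K) => (LC m N g x i) z)
        = (fun p : (J m N → K) × (Fin N → Bool) => p.1 (⟨i, h⟩, p.2)) ∘
          (fun p : (J m N → K) × K => (p.1, res N p.2)) := by
      funext p
      simp [Function.uncurry, LC, h]
    rw [h1]
    refine Continuous.comp ?_ (continuous_fst.prodMk ((continuous_res N).comp continuous_snd))
    rw [continuous_prod_of_discrete_right]
    intro b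
    exact continuous_apply ((⟨i, h⟩, b) : J m N)
  · have : (fun y => LC m N g y i) = fun _ => g i := by
      funext y; simp [LC, h]
    rw [this]
    exact continuous_const

/-- `z ↦ ext (res N z)` -/
def rr (N : ℕ) : C(K, K) := ⟨fun z => ext (res N z),
  (continuous_of_discreteTopology (f := fun s : Fin N → Bool => ext s)).comp (continuous_res N)⟩

theorem tendsto_rr : Tendsto rr atTop (𝓝 (ContinuousMap.id K)) := by
  rw [ContinuousMap.tendsto_iff_tendstoUniformly]
  intro u hu
  rw [Pi.uniformity] at hu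
  simp only [DiscreteUniformity.eq_principal_setRelId] at hu
  rw [Filter.mem_iInf] at hu
  obtain ⟨I, hI, V, hV, rfl⟩ := hu
  obtain ⟨n, hn⟩ := hI.bddAbove
  filter_upwards [eventually_gt_atTop n] with N hN z
  rw [mem_iInter]
  intro i
  have h1 := hV i
  rw [Filter.mem_comap] at h1
  obtain ⟨t, ht, htV⟩ := h1
  apply htV
  have h2 : (i : ℕ) < N := lt_of_le_of_lt (hn i.2) hN
  rw [mem_principal] at ht
  apply ht
  simp only [ContinuousMap.id_apply]
  change (z i, ext (res N z) i) ∈ _
  rw [ext_res z h2]
  simp [SetRel.id]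

theorem tendsto_LC (m : ℕ) (g : ℕ → C(K, K)) :
    Tendsto (fun N => LC m N g (fun j => g j.1 (ext j.2))) atTop (𝓝 g) := by
  rw [tendsto_pi_nhds]
  intro i
  by_cases h : i < m
  · have h1 : Tendsto (fun N => (g i).comp (rr N)) atTop (𝓝 ((g i).comp (ContinuousMap.id K))) :=
      ((ContinuousMap.continuous_postcomp (g i)).tendsto _).comp tendsto_rr
    rw [ContinuousMap.comp_id] at h1
    refine h1.congr fun N => ?_
    ext1 z
    simp [LC, h, rr]
  · refine tendsto_const_nhds.congr fun N => ?_
    simp [LC, h]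

/-- Near every `g` there are many locally constant modifications. -/
theorem exists_LC {m : ℕ} (g : ℕ → C(K, K)) {V : Set (ℕ → C(K, K))} (hV : IsOpen V) (hg : g ∈ V)
    (N₀ : ℕ) : ∃ N ≥ N₀, ∃ Q : Set (J m N → K), IsOpen Q ∧ Q.Nonempty ∧
      ∀ y ∈ Q, LC m N g y ∈ V := by
  have h1 := (tendsto_LC m g).eventually (hV.mem_nhds hg)
  obtain ⟨N, hN, hN0⟩ := (h1.and (eventually_ge_atTop N₀)).exists
  exact ⟨N, hN0, LC m N g ⁻¹' V, hV.preimage (continuous_LC m N g),
    ⟨_, hN⟩, fun y hy => hy⟩

theorem dense_pull {ι ι' : Type*} [Finite ι] [Finite ι'] (π : ι → ι') (hπ : Function.Injective π)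
    {D : Set (ι → K)} (hD : Dense D) : Dense {y : ι' → K | y ∘ π ∈ D} := by
  classical
  rw [dense_iff_inter_open]
  intro Q hQ hne
  obtain ⟨y0, hy0⟩ := hne
  let F : (ι → K) → (ι' → K) := fun x j' => if h : ∃ j, π j = j' then x h.choose else y0 j'
  have hF : Continuous F := by
    refine continuous_pi fun j' => ?_
    by_cases h : ∃ j, π j = j'
    · simp only [F, dif_pos h]; exact continuous_apply _
    · simp only [F, dif_neg h]; exact continuous_const
  have hFπ : ∀ x, F x ∘ π = x := by
    intro x
    funext j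
    have h : ∃ j0, π j0 = π j := ⟨j, rfl⟩
    have h2 : h.choose = j := hπ h.choose_spec
    simp only [F, Function.comp, dif_pos h, h2]
  have hF0 : F (y0 ∘ π) = y0 := by
    funext j'
    by_cases h : ∃ j, π j = j'
    · simp only [F, dif_pos h, Function.comp]
      rw [h.choose_spec]
    · simp only [F, dif_neg h]
  obtain ⟨x, hx1, hx2⟩ := hD.inter_open_nonempty (F ⁻¹' Q) (hQ.preimage hF)
    ⟨y0 ∘ π, by rw [mem_preimage, hF0]; exact hy0⟩
  refine ⟨F x, hx1, ?_⟩
  change F x ∘ π ∈ D
  rw [hFπ]; exact hx2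

theorem dense_cond {m N : ℕ} {D : Set (J m N → K)} (hDo : IsOpen D) (hD : Dense D) :
    Dense {g : ℕ → C(K, K) | ∀ z ∈ Box m N, ev m N g z ∈ D} := by
  rw [dense_iff_inter_open]
  rintro V hV ⟨g, hg⟩
  obtain ⟨N', hN', Q, hQ, hQne, hQV⟩ := exists_LC (m := m) g hV hg N
  let good : Set (J m N → J m N') := {π | ∀ j, (π j).1 = j.1 ∧ cut hN' (π j).2 = j.2}
  have hinj : ∀ π ∈ good, Function.Injective π := by
    intro π hπ j j' hjj
    apply Prod.ext
    · rw [← (hπ j).1, ← (hπ j').1, hjj]
    · rw [← (hπ j).2, ← (hπ j').2, hjj]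
  have hdense : Dense (⋂ π : good, {y : J m N' → K | y ∘ (π : J m N → J m N') ∈ D}) := by
    apply dense_iInter_of_isOpen
    · intro π
      exact hDo.preimage (continuous_pi fun j => continuous_apply _)
    · intro π
      exact dense_pull _ (hinj π π.2) hD
  obtain ⟨y, hyQ, hy⟩ := hdense.inter_open_nonempty Q hQ hQne
  refine ⟨LC m N' g y, hQV y hyQ, ?_⟩
  intro z hz
  have hπ : (fun j : J m N => ((j.1, res N' (z j)) : J m N')) ∈ good := by
    intro j
    exact ⟨rfl, by rw [cut_res]; exact hz j⟩
  have h := mem_iInter.1 hy ⟨_, hπ⟩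
  have h2 : ev m N (LC m N' g y) z = y ∘ (fun j : J m N => ((j.1, res N' (z j)) : J m N')) := by
    funext j
    simp only [ev, Function.comp]
    exact LC_apply g y j.1 (z j)
  rw [h2]
  exact h

theorem residual_cond {m N : ℕ} {R : Set (J m N → K)} (hR : R ∈ residual (J m N → K)) :
    {g : ℕ → C(K, K) | ∀ z ∈ Box m N, ev m N g z ∈ R} ∈ residual (ℕ → C(K, K)) := by
  rw [mem_residual_iff] at hR
  obtain ⟨S, hSo, hSd, hSc, hSR⟩ := hR
  have h1 : (⋂ t ∈ S, {g : ℕ → C(K, K) | ∀ z ∈ Box m N, ev m N g z ∈ t})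
      ∈ residual (ℕ → C(K, K)) := by
    rw [countable_bInter_mem hSc]
    intro t ht
    exact residual_of_dense_open (isOpen_cond (hSo t ht)) (dense_cond (hSo t ht) (hSd t ht))
  refine mem_of_superset h1 ?_
  intro g hg z hz
  apply hSR
  rw [mem_sInter]
  intro t ht
  exact mem_iInter₂.1 hg t ht z hz

/-- The fusion lemma. -/
theorem fusion (W : ∀ m _l N : ℕ, Set (J m N → K))
    (hW : ∀ m l N, MeasurableSet[borel (J m N → K)] (W m l N))
    (hcov : ∀ m N y, ∃ l, y ∈ W m l N) :
    ∀ᶠ g in residual (ℕ → C(K, K)), ∀ m, ∃ N ≥ m, ∃ l, ∀ z ∈ Box m N,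
      ev m N g z ∈ W m l N := by
  have hW' : ∀ m l N, ∃ u : Set (J m N → K), IsOpen u ∧ W m l N =ᶠ[residual (J m N → K)] u := by
    intro m l N
    let _ : MeasurableSpace (J m N → K) := borel _
    have : BorelSpace (J m N → K) := ⟨rfl⟩
    exact (hW m l N).residualEq_isOpen
  choose u huo hu using hW'
  let R : ∀ m N, Set (J m N → K) := fun m N => {y | ∀ l, (y ∈ W m l N ↔ y ∈ u m l N)}
  have hR : ∀ m N, R m N ∈ residual (J m N → K) := by
    intro m N
    have : ∀ᶠ y in residual (J m N → K), ∀ l, (y ∈ W m l N ↔ y ∈ u m l N) := by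
      rw [eventually_countable_forall]
      intro l
      exact (hu m l N).mem_iff
    exact this
  have h1 : ∀ᶠ g in residual (ℕ → C(K, K)), ∀ m N, ∀ z ∈ Box m N, ev m N g z ∈ R m N := by
    rw [eventually_countable_forall]; intro m
    rw [eventually_countable_forall]; intro N
    exact residual_cond (hR m N)
  have h2 : ∀ᶠ g in residual (ℕ → C(K, K)), ∀ m, ∃ N ≥ m, ∃ l, ∀ z ∈ Box m N,
      ev m N g z ∈ u m l N := by
    rw [eventually_countable_forall]; intro m
    apply residual_of_dense_open
    · have : {g : ℕ → C(K, K) | ∃ N ≥ m, ∃ l, ∀ z ∈ Box m N, ev m N g z ∈ u m l N}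
          = ⋃ N, ⋃ (_ : N ≥ m), ⋃ l, {g | ∀ z ∈ Box m N, ev m N g z ∈ u m l N} := by
        ext g; simp
      rw [this]
      exact isOpen_iUnion fun N => isOpen_iUnion fun _ => isOpen_iUnion fun l =>
        isOpen_cond (huo m l N)
    · rw [dense_iff_inter_open]
      rintro V hV ⟨g, hg⟩
      obtain ⟨N, hN, Q, hQ, hQne, hQV⟩ := exists_LC (m := m) g hV hg m
      obtain ⟨y, hyQ, hyR⟩ := (dense_of_mem_residual (hR m N)).inter_open_nonempty Q hQ hQne
      obtain ⟨l, hl⟩ := hcov m N y
      refine ⟨LC m N g y, hQV y hyQ, N, hN, l, ?_⟩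
      intro z hz
      have h2 : ev m N (LC m N g y) z = y := by
        funext j
        simp only [ev]
        rw [LC_apply g y j.1 (z j), hz j]
      rw [h2]
      exact (hyR l).1 hl
  filter_upwards [h1, h2] with g hg1 hg2 m
  obtain ⟨N, hN, l, hl⟩ := hg2 m
  exact ⟨N, hN, l, fun z hz => (hg1 m N z hz l).2 (hl z hz)⟩

theorem neBot_punct (x : K) : (𝓝[≠] x).NeBot := by
  rw [← mem_closure_iff_nhdsWithin_neBot, mem_closure_iff_nhds]
  intro t ht
  rw [nhds_pi, Filter.mem_pi] at ht
  obtain ⟨I, hI, V, hV, hVt⟩ := ht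
  obtain ⟨n, hn⟩ := hI.bddAbove
  refine ⟨Function.update x (n + 1) (!x (n + 1)), hVt ?_, ?_⟩
  · intro i hi
    have : i ≠ n + 1 := by have := hn hi; omega
    rw [Function.update_of_ne this]
    exact mem_of_mem_nhds (hV i)
  · intro h
    have := congrFun h (n + 1)
    simp at this

/-- Generic maps are injective. -/
theorem generic_inj : ∀ᶠ g in residual (ℕ → C(K, K)), ∀ i, Function.Injective (g i) := by
  rw [eventually_countable_forall]
  intro i
  have h1 : ∀ᶠ g in residual (ℕ → C(K, K)), ∀ N, ∀ s s' : Fin N → Bool, s ≠ s' →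
      ∀ z ∈ Box (i + 1) N, ev (i + 1) N g z ∈
        {y : J (i + 1) N → K | y (Fin.last i, s) ≠ y (Fin.last i, s')} := by
    rw [eventually_countable_forall]; intro N
    rw [eventually_countable_forall]; intro s
    rw [eventually_countable_forall]; intro s'
    by_cases hss : s = s'
    · exact Eventually.of_forall fun g h => absurd hss h
    · have hD : {y : J (i + 1) N → K | y (Fin.last i, s) ≠ y (Fin.last i, s')}
          ∈ residual (J (i + 1) N → K) := by
        apply residual_of_dense_open
        · exact isOpen_ne_fun (continuous_apply _) (continuous_apply _)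
        · rw [dense_iff_inter_open]
          rintro Q hQ ⟨y0, hy0⟩
          classical
          have hF : Continuous (fun x : K => Function.update y0 (Fin.last i, s) x) :=
            continuous_const.update _ continuous_id
          have := neBot_punct (y0 (Fin.last i, s'))
          obtain ⟨x, hx1, hx2⟩ := (dense_compl_singleton (y0 (Fin.last i, s'))).inter_open_nonempty
            _ (hQ.preimage hF) ⟨y0 (Fin.last i, s), by simpa using hy0⟩
          refine ⟨_, hx1, ?_⟩
          have hne : ((Fin.last i, s') : J (i + 1) N) ≠ (Fin.last i, s) := by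
            intro h; exact hss (congrArg Prod.snd h).symm
          simp only [mem_ofPred_eq, Function.update_self, Function.update_of_ne hne]
          exact hx2
      filter_upwards [residual_cond hD] with g hg _
      exact hg
  filter_upwards [h1] with g hg z z' hzz
  by_contra hne
  obtain ⟨n, hn⟩ := Function.ne_iff.1 hne
  have hss : res (n + 1) z ≠ res (n + 1) z' := by
    intro h
    exact hn (congrFun h (Fin.last n))
  classical
  let zz : J (i + 1) (n + 1) → K := fun j =>
    if j.2 = res (n + 1) z then z else if j.2 = res (n + 1) z' then z' else ext j.2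
  have hzz2 : zz ∈ Box (i + 1) (n + 1) := by
    intro j
    by_cases h1 : j.2 = res (n + 1) z
    · simp only [zz, if_pos h1]; exact h1.symm
    · by_cases h2 : j.2 = res (n + 1) z'
      · simp only [zz, if_neg h1, if_pos h2]; exact h2.symm
      · simp only [zz, if_neg h1, if_neg h2]; exact res_ext _
  have h3 := hg (n + 1) _ _ hss zz hzz2
  apply h3
  have e1 : zz (Fin.last i, res (n + 1) z) = z := by simp [zz]
  have e2 : zz (Fin.last i, res (n + 1) z') = z' := by simp [zz, Ne.symm hss]
  simp only [ev]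
  rw [e1, e2]
  simpa using hzz

/-- Generic sequences come close to the identity on every infinite index set. -/
theorem generic_close (a : ℕ → Set ℕ) (ha : ∀ k, (a k).Infinite) :
    ∀ᶠ g in residual (ℕ → C(K, K)), ∀ k, ∀ V ∈ 𝓝 (ContinuousMap.id K), ∃ i ∈ a k, g i ∈ V := by
  obtain ⟨B, hB⟩ := (𝓝 (ContinuousMap.id K)).exists_antitone_basis
  have h1 : ∀ᶠ g in residual (ℕ → C(K, K)), ∀ k, ∀ n, ∃ i ∈ a k, g i ∈ interior (B n) := by
    rw [eventually_countable_forall]; intro k
    rw [eventually_countable_forall]; intro n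
    apply residual_of_dense_open
    · have : {g : ℕ → C(K, K) | ∃ i ∈ a k, g i ∈ interior (B n)}
          = ⋃ i ∈ a k, (fun g : ℕ → C(K, K) => g i) ⁻¹' (interior (B n)) := by
        ext g; simp
      rw [this]
      exact isOpen_biUnion fun i _ => isOpen_interior.preimage (continuous_apply i)
    · rw [dense_iff_inter_open]
      rintro V hV ⟨g, hg⟩
      rw [isOpen_pi_iff] at hV
      obtain ⟨I, u, hI, hIV⟩ := hV g hg
      obtain ⟨i, hi, hiI⟩ := (ha k).exists_notMem_finset I
      classical
      refine ⟨Function.update g i (ContinuousMap.id K), hIV ?_, i, hi, ?_⟩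
      · intro b hb
        have : b ≠ i := fun h => hiI (h ▸ hb)
        rw [Function.update_of_ne this]
        exact (hI b hb).2
      · rw [Function.update_self]
        exact mem_interior_iff_mem_nhds.2 (hB.1.mem_of_mem trivial)
  filter_upwards [h1] with g hg k V hV
  obtain ⟨n, -, hn⟩ := hB.1.mem_iff.1 hV
  obtain ⟨i, hi, h2⟩ := hg k n
  exact ⟨i, hi, hn (interior_subset h2)⟩

end Pool.Agent.H31R3.Fusion
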