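import Pool.Agent.H31R3.CantorDecide

set_option autoImplicit false

namespace Pool.Agent.H31R3.Fusion

open Topology Set Filter MeasureTheory Cardinal

/-- Definition by transfinite recursion with a step relation. -/
theorem exists_rec {I P : Type*} [LinearOrder I] [WellFoundedLT I] [Nonempty P]
    (good : I → (I → P) → P → Prop)
    (hloc : ∀ α p p' q, (∀ β < α, p β = p' β) → good α p q → good α p' q)
    (hstep : ∀ α p, (∀ β < α, good β p (p β)) → ∃ q, good α p q) :
    ∃ p : I → P, ∀ α, good α p (p α) := by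
  classical
  obtain ⟨d⟩ := ‹Nonempty P›
  let F : I → (I → P) → P := fun α p => if h : ∃ q, good α p q then h.choose else d
  have hF : ∀ α p, (∃ q, good α p q) → good α p (F α p) := by
    intro α p h
    simp only [F, dif_pos h]
    exact h.choose_spec
  let p : I → P := WellFounded.fix (C := fun _ => P) (wellFounded_lt (α := I))
    (fun α IH => F α (fun β => if h : β < α then IH β h else d))
  have hp : ∀ α, p α = F α (fun β => if β < α then p β else d) := by
    intro α
    have h := WellFounded.fix_eq (C := fun _ => P) (wellFounded_lt (α := I))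
      (fun α IH => F α (fun β => if h : β < α then IH β h else d)) α
    change p α = _ at h
    rw [h]
    congr 1
  refine ⟨p, fun α => ?_⟩
  induction α using WellFoundedLT.induction with
  | ind α IH =>
    obtain ⟨q, hq⟩ := hstep α p IH
    have h1 : good α (fun β => if β < α then p β else d) q :=
      hloc α p _ q (fun β hβ => by simp [hβ]) hq
    have h2 := hF α _ ⟨q, h1⟩
    rw [← hp α] at h2
    exact hloc α _ p _ (fun β hβ => by simp [hβ]) h2

abbrev I1 : Type := (ℵ₁ : Cardinal.{0}).ord.ToType

theorem countable_Iio_I1 (α : I1) : (Iio α).Countable := by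
  have h : #(Iio α) < (ℵ₁ : Cardinal.{0}) := mk_Iio_toType_ord_lt α
  have h2 : (ℵ₁ : Cardinal.{0}) = Order.succ ℵ₀ := Cardinal.succ_aleph0.symm
  rw [← le_aleph0_iff_set_countable]
  exact Order.lt_succ_iff.1 (h.trans_eq h2)

theorem mk_borelY_le : #{D : Set Y // MeasurableSet[borel Y] D} ≤ 𝔠 := by
  have h : borel Y = MeasurableSpace.generateFrom (TopologicalSpace.countableBasis Y) :=
    (TopologicalSpace.isBasis_countableBasis Y).borel_eq_generateFrom
  have h2 := MeasurableSpace.cardinal_measurableSet_le_continuum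
    (s := TopologicalSpace.countableBasis Y)
    (((TopologicalSpace.countable_countableBasis Y).le_aleph0).trans aleph0_le_continuum)
  rw [← h] at h2
  exact h2

/-- The base embedding of the Cantor space. -/
def f0 : C(K, Y) := ⟨fun z n => if z n then 1 else 0, by
  refine continuous_pi fun n => ?_
  exact (continuous_of_discreteTopology (f := fun b : Bool => if b then (1 : ℤ) else 0)).comp
    (continuous_apply n)⟩

theorem f0_inj : Function.Injective f0 := by
  intro z z' h
  funext n
  have h1 : (if z n then (1:ℤ) else 0) = (if z' n then (1:ℤ) else 0) := congrFun h n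
  by_cases hz : z n <;> by_cases hz' : z' n <;> simp_all

def c0 : Cond := ⟨∅, {f0}, countable_empty, countable_singleton _, singleton_nonempty _, by
  rintro f rfl; exact f0_inj⟩

theorem exists_new (p : Cond) : ∃ x ∈ pts p.T, x ∉ p.A := by
  by_contra hcon
  push Not at hcon
  obtain ⟨f, hf⟩ := p.hne
  have h1 : (range f).Countable := by
    refine p.hA.mono ?_
    rintro _ ⟨z, rfl⟩
    exact hcon _ (mem_pts.2 ⟨f, hf, z, rfl⟩)
  have h2 : (univ : Set K).Countable := by
    have := h1
    rw [← image_univ] at this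
    exact (Set.countable_of_injective_of_countable_image ((p.hinj f hf).injOn) this)
  rw [← le_aleph0_iff_set_countable, mk_univ] at h2
  have h3 : #K = 𝔠 := by simp [K]
  rw [h3] at h2
  exact absurd h2 (not_le.2 aleph0_lt_continuum)

theorem core (hCH : (ℵ₁ : Cardinal.{0}) = 𝔠) : ∃ X : Set Y, (ℵ₁ : Cardinal.{0}) ≤ #X ∧
    ∀ U : ℕ → ℕ → Set Y, (∀ m l, MeasurableSet[borel Y] (U m l)) →
      (∃ m, ∃ F : Finset Y, (∀ x ∈ F, x ∈ Submodule.span ℤ X) ∧ ∀ l, ¬ ((F : Set Y) ⊆ U m l)) ∨
      (∃ B : ℕ → ℕ, ∀ x ∈ Submodule.span ℤ X, ∀ᶠ m in atTop, x ∈ U m (B m)) := by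
  classical
  -- enumeration of all sequences of countable families of Borel sets
  let 𝒰 : Type := ℕ → ℕ → {D : Set Y // MeasurableSet[borel Y] D}
  have h𝒰 : #𝒰 ≤ #I1 := by
    have h1 : #𝒰 = (#{D : Set Y // MeasurableSet[borel Y] D} ^ ℵ₀) ^ ℵ₀ := by
      simp only [𝒰]
      rw [← mk_nat, ← power_def, ← power_def]
    rw [h1, Cardinal.mk_toType, card_ord, hCH]
    calc (#{D : Set Y // MeasurableSet[borel Y] D} ^ ℵ₀) ^ ℵ₀ ≤ (𝔠 ^ ℵ₀) ^ ℵ₀ :=
          power_le_power_right (power_le_power_right mk_borelY_le)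
      _ = 𝔠 := by rw [continuum_power_aleph0, continuum_power_aleph0]
  obtain ⟨emb⟩ := h𝒰
  have : Nonempty 𝒰 := ⟨fun _ _ => ⟨∅, by
    let _ : MeasurableSpace Y := borel Y
    exact MeasurableSet.empty⟩⟩
  let Φ : I1 → 𝒰 := Function.invFun emb
  have hΦ : Function.Surjective Φ := Function.invFun_surjective emb.injective
  have : Nonempty Cond := ⟨c0⟩
  obtain ⟨p, hp⟩ := exists_rec (I := I1) (P := Cond)
    (fun α p q => (∀ β < α, Le q (p β)) ∧ Dec (fun m l => (Φ α m l : Set Y)) q ∧
      ∃ x ∈ q.A, ∀ β < α, x ∉ (p β).A)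
    (by
      rintro α p p' q hpp ⟨h1, h2, x, hx, h3⟩
      exact ⟨fun β hβ => hpp β hβ ▸ h1 β hβ, h2, x, hx, fun β hβ => hpp β hβ ▸ h3 β hβ⟩)
    (by
      intro α p hp
      have hle : ∀ β γ, β < α → γ < α → β ≤ γ → Le (p γ) (p β) := by
        intro β γ hβ hγ h
        rcases h.eq_or_lt with rfl | h
        · exact Le.refl _
        · exact (hp γ hγ).1 β h
      -- lower bound
      have hlow : ∃ q0, ∀ β < α, Le q0 (p β) := by
        by_cases hne : (Iio α).Nonempty
        · obtain ⟨e, he⟩ := (countable_Iio_I1 α).exists_eq_range hne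
          have heα : ∀ n, e n < α := fun n => by
            have : e n ∈ Iio α := by rw [he]; exact mem_range_self n
            exact this
          let γ : ℕ → I1 := fun n => Nat.rec (e 0) (fun n g => max g (e (n + 1))) n
          have hγ1 : ∀ n, γ (n + 1) = max (γ n) (e (n + 1)) := fun n => rfl
          have hγα : ∀ n, γ n < α := by
            intro n
            induction n with
            | zero => exact heα 0
            | succ n ih => rw [hγ1]; exact max_lt ih (heα _)
          have heγ : ∀ n, e n ≤ γ n := by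
            intro n
            cases n with
            | zero => exact le_refl _
            | succ n => rw [hγ1]; exact le_max_right _ _
          obtain ⟨q0, hq0⟩ := exists_lower (fun n => p (γ n)) (fun n =>
            hle _ _ (hγα n) (hγα (n + 1)) (by rw [hγ1]; exact le_max_left _ _))
          refine ⟨q0, fun β hβ => ?_⟩
          have : β ∈ Iio α := hβ
          rw [he] at this
          obtain ⟨n, rfl⟩ := this
          exact (hq0 n).trans (hle _ _ (heα n) (hγα n) (heγ n))
        · refine ⟨c0, fun β hβ => absurd ⟨β, hβ⟩ hne⟩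
      obtain ⟨q0, hq0⟩ := hlow
      obtain ⟨x, hx, hxA⟩ := exists_new q0
      let q1 : Cond := ⟨q0.A ∪ {x}, q0.T, q0.hA.union (countable_singleton x), q0.hT, q0.hne,
        q0.hinj⟩
      have hq1 : Le q1 q0 := by
        refine ⟨subset_union_left, ?_, fun f hf => ⟨f, hf, Subset.rfl⟩,
          fun f hf V _ hV => ⟨f, hf, hV, Subset.rfl⟩⟩
        rintro y ⟨hy | hy, hyA⟩
        · exact absurd hy hyA
        · rw [mem_singleton_iff.1 hy]; exact hx
      obtain ⟨q, hq, hdec⟩ := decide_lemma q1 (fun m l => (Φ α m l : Set Y))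
        (fun m l => (Φ α m l).2)
      refine ⟨q, fun β hβ => (hq.trans hq1).trans (hq0 β hβ), hdec, x,
        hq.1 (Or.inr rfl), fun β hβ h => hxA ((hq0 β hβ).1 h)⟩)
  have hle : ∀ α β, β ≤ α → Le (p α) (p β) := by
    intro α β h
    rcases h.eq_or_lt with rfl | h
    · exact Le.refl _
    · exact (hp α).1 β h
  let X : Set Y := ⋃ α, (p α).A
  refine ⟨X, ?_, ?_⟩
  · choose x hx hx' using fun α => (hp α).2.2
    have hinj : Function.Injective (fun α : I1 => (⟨x α, mem_iUnion.2 ⟨α, hx α⟩⟩ : X)) := by
      intro α β h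
      have h' : x α = x β := congrArg Subtype.val h
      rcases lt_trichotomy α β with hlt | heq | hlt
      · exact absurd (h' ▸ hx α) (hx' β α hlt)
      · exact heq
      · exact absurd (h'.symm ▸ hx β) (hx' α β hlt)
    have := mk_le_of_injective hinj
    rwa [Cardinal.mk_toType, card_ord] at this
  · intro U hU
    obtain ⟨α, hα⟩ := hΦ (fun m l => ⟨U m l, hU m l⟩)
    have hdec := (hp α).2.1
    have hΦU : (fun m l => (Φ α m l : Set Y)) = U := by
      rw [hα]
    rw [hΦU] at hdec
    rcases hdec with ⟨m, F, hF, hFl⟩ | ⟨B, hB⟩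
    · left
      exact ⟨m, F, fun x hx => Submodule.span_mono (subset_iUnion (fun α => (p α).A) α)
        (hF x hx), hFl⟩
    · right
      refine ⟨B, fun x hx => ?_⟩
      have hX : X = (p α).A ∪ (X \ (p α).A) := by
        rw [union_sdiff_cancel]
        exact subset_iUnion (fun α => (p α).A) α
      rw [hX, Submodule.span_union, Submodule.mem_sup] at hx
      obtain ⟨a, ha, t, ht, rfl⟩ := hx
      rw [Submodule.mem_span_set] at ht
      obtain ⟨c, hc, rfl⟩ := ht
      refine hB a ha c.support ?_ c
      refine hc.trans ?_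
      rintro y ⟨hy, hyα⟩
      obtain ⟨β, hβ⟩ := mem_iUnion.1 hy
      rcases le_total β α with h | h
      · exact absurd ((hle α β h).1 hβ) hyα
      · exact (hle β α h).2.1 ⟨hβ, hyα⟩

end Pool.Agent.H31R3.Fusion
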