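import Mathlib

set_option autoImplicit false

/-! Thin (nonstationary) subsets of a regular well-order, described by functions. -/

namespace Pool.Agent.H31R3.NonStat

open Cardinal Set

variable {L : Type} [LinearOrder L]

/-- `A` is thin if some function `f` has no closure point in `A`, apart from the least point. -/
def Thin (A : Set L) : Prop :=
  ∃ f : L → L, ∀ a ∈ A, (∀ b, ¬ b < a) ∨ ∃ b, b < a ∧ a ≤ f b

theorem Thin.mono {A B : Set L} (h : Thin B) (hAB : A ⊆ B) : Thin A := by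
  obtain ⟨f, hf⟩ := h
  exact ⟨f, fun a ha => hf a (hAB ha)⟩

/-- A countable union of thin sets is thin. -/
theorem thin_iUnion (hc : ∀ g : ℕ → L, ∃ b, ∀ n, g n < b) {A : ℕ → Set L}
    (h : ∀ n, Thin (A n)) : Thin (⋃ n, A n) := by
  choose f hf using h
  choose F hF using fun b => hc (fun n => f n b)
  refine ⟨F, fun a ha => ?_⟩
  obtain ⟨n, hn⟩ := mem_iUnion.1 ha
  rcases hf n a hn with h | ⟨b, hb, hab⟩
  · exact Or.inl h
  · exact Or.inr ⟨b, hb, hab.trans (hF b n).le⟩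

theorem thin_union (hc : ∀ g : ℕ → L, ∃ b, ∀ n, g n < b) {A B : Set L}
    (hA : Thin A) (hB : Thin B) : Thin (A ∪ B) := by
  have := thin_iUnion hc (A := fun n => if n = 0 then A else B)
    (fun n => by by_cases h : n = 0 <;> simp [h, hA, hB])
  refine this.mono ?_
  rintro x (hx | hx)
  · exact mem_iUnion.2 ⟨0, by simpa using hx⟩
  · exact mem_iUnion.2 ⟨1, by simpa using hx⟩

theorem thin_Iic (c : L) : Thin (Iic c) := by
  refine ⟨fun _ => c, fun a ha => ?_⟩
  by_cases h : ∀ b, ¬ b < a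
  · exact Or.inl h
  · push Not at h
    obtain ⟨b, hb⟩ := h
    exact Or.inr ⟨b, hb, ha⟩

/-- The range of a choice of non-minimal points from disjoint parts is thin. -/
theorem thin_range {ι : Type*} (lo hi : ι → L) (hinj : Function.Injective lo)
    (hlt : ∀ i, lo i < hi i) : Thin (range hi) := by
  classical
  refine ⟨fun b => if h : ∃ i, lo i = b then hi h.choose else b, ?_⟩
  rintro a ⟨i, rfl⟩
  refine Or.inr ⟨lo i, hlt i, ?_⟩
  have h : ∃ j, lo j = lo i := ⟨i, rfl⟩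
  have h2 : h.choose = i := hinj h.choose_spec
  simp only [dif_pos h, h2, le_refl]

/-- Fodor's lemma for thin sets. -/
theorem fodor (hreg : ∀ (a : L) (g : Iic a × Iic a → L), ∃ c, ∀ i, g i < c)
    {A : Set L} (g : L → L) (hg : ∀ a ∈ A, g a < a)
    (h : ∀ c, Thin {a ∈ A | g a = c}) : Thin A := by
  choose f hf using h
  choose F hF using fun b => hreg b (fun p => f p.1.1 p.2.1)
  refine ⟨F, fun a ha => Or.inr ?_⟩
  have hga := hg a ha
  rcases hf (g a) a ⟨ha, rfl⟩ with h | ⟨b, hb, hab⟩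
  · exact absurd hga (h _)
  · refine ⟨max (g a) b, max_lt hga hb, hab.trans ?_⟩
    exact (hF (max (g a) b) (⟨g a, le_max_left _ _⟩, ⟨b, le_max_right _ _⟩)).le

/-- Limits of increasing sequences. -/
def LimSeq (α : L) (a : ℕ → L) : Prop := (∀ n, a n < α) ∧ ∀ b < α, ∃ n, b < a n

def E (L : Type) [LinearOrder L] : Set L := {α | ∃ a, LimSeq α a}

theorem not_thin_E [WellFoundedLT L] [Nonempty L]
    (hc : ∀ g : ℕ → L, ∃ b, ∀ n, g n < b)
    (hreg : ∀ (a : L) (g : Iic a × Iic a → L), ∃ c, ∀ i, g i < c) : ¬ Thin (E L) := by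
  rintro ⟨f, hf⟩
  have step : ∀ a : L, ∃ c, a < c ∧ ∀ b ≤ a, f b < c := by
    intro a
    obtain ⟨c, hc1⟩ := hreg a (fun p => max (f p.1.1) a)
    refine ⟨c, ?_, fun b hb => ?_⟩
    · exact lt_of_le_of_lt (le_max_right _ _) (hc1 (⟨a, le_refl a⟩, ⟨a, le_refl a⟩))
    · exact lt_of_le_of_lt (le_max_left _ _) (hc1 (⟨b, hb⟩, ⟨a, le_refl a⟩))
  choose s hs1 hs2 using step
  obtain ⟨a0⟩ := ‹Nonempty L›
  let a : ℕ → L := fun n => Nat.rec a0 (fun _ x => s x) n
  have ha1 : ∀ n, a n < a (n + 1) := fun n => hs1 (a n)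
  have ha2 : ∀ n, ∀ b ≤ a n, f b < a (n + 1) := fun n => hs2 (a n)
  have hne : {b : L | ∀ n, a n < b}.Nonempty := hc a
  let α := WellFounded.min (wellFounded_lt (α := L)) {b : L | ∀ n, a n < b} hne
  have hα : ∀ n, a n < α := WellFounded.min_mem (wellFounded_lt (α := L)) _ hne
  have hα2 : ∀ b < α, ∃ n, b ≤ a n := by
    intro b hb
    by_contra hcon
    push Not at hcon
    exact WellFounded.not_lt_min (wellFounded_lt (α := L)) {b : L | ∀ n, a n < b} hcon hb
  have hαE : α ∈ E L := by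
    refine ⟨a, hα, fun b hb => ?_⟩
    obtain ⟨n, hn⟩ := hα2 b hb
    exact ⟨n + 1, lt_of_le_of_lt hn (ha1 n)⟩
  rcases hf α hαE with h | ⟨b, hb, hab⟩
  · exact h _ (hα 0)
  · obtain ⟨n, hn⟩ := hα2 b hb
    exact absurd (hab.trans_lt ((ha2 n b hn).trans (hα (n + 1)))) (lt_irrefl _)

/-- There is a set and a regressive function on it with cofinally many nonthin fibres. -/
theorem exists_split [WellFoundedLT L] [Nonempty L]
    (hc : ∀ g : ℕ → L, ∃ b, ∀ n, g n < b)
    (hreg : ∀ (a : L) (g : Iic a × Iic a → L), ∃ c, ∀ i, g i < c) :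
    ∃ (A : Set L) (g : L → L), ∀ η : L, ∃ γ, η ≤ γ ∧ ¬ Thin {a ∈ A | g a = γ} := by
  classical
  have hE : ∀ α ∈ E L, ∃ a : ℕ → L, LimSeq α a := fun α h => h
  choose! a ha using hE
  have key : ∃ n, ∀ η, ¬ Thin {α ∈ E L | η ≤ a α n} := by
    by_contra hcon
    push Not at hcon
    choose η hη using hcon
    obtain ⟨c, hcη⟩ := hc η
    have h1 := thin_iUnion hc hη
    have h2 := thin_union hc h1 (thin_Iic c)
    refine not_thin_E hc hreg (h2.mono ?_)
    intro α hα
    by_cases hαc : α ≤ c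
    · exact Or.inr hαc
    · left
      push Not at hαc
      obtain ⟨n, hn⟩ := (ha α hα).2 c hαc
      exact mem_iUnion.2 ⟨n, hα, ((hcη n).trans hn).le⟩
  obtain ⟨n, hn⟩ := key
  refine ⟨E L, fun α => a α n, fun η => ?_⟩
  by_contra hcon
  push Not at hcon
  refine hn η (fodor hreg (fun α => a α n) (fun α hα => (ha α hα.1).1 n) ?_)
  intro γ
  by_cases hγ : η ≤ γ
  · exact (hcon γ hγ).mono (fun α hα => ⟨hα.1.1, hα.2⟩)
  · refine ⟨id, ?_⟩
    rintro α ⟨⟨_, h1⟩, h2⟩
    exact absurd (h2 ▸ h1) hγ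

end Pool.Agent.H31R3.NonStat
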