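import Pool.Agent.H31R3.NonStat

set_option autoImplicit false

namespace Pool.Agent.H31R3.Selectors

open Cardinal Set Pool.Agent.H31R3.NonStat

/-- The index set: a well-order of type `cof 𝔠`. -/
abbrev Idx : Type := ((𝔠 : Cardinal.{0}).ord.cof).ord.ToType

theorem cof_uncountable : ℵ₀ < (𝔠 : Cardinal.{0}).ord.cof := by
  have h1 : (𝔠 : Cardinal.{0}) < 𝔠 ^ (𝔠 : Cardinal.{0}).ord.cof :=
    lt_power_cof_ord aleph0_le_continuum
  by_contra hcon
  push Not at hcon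
  have h2 : (𝔠 : Cardinal.{0}) ^ (𝔠 : Cardinal.{0}).ord.cof ≤ 𝔠 ^ ℵ₀ :=
    power_le_power_left continuum_ne_zero hcon
  rw [continuum_power_aleph0] at h2
  exact absurd (h1.trans_le h2) (lt_irrefl _)

theorem cof_Idx : Order.cof Idx = (𝔠 : Cardinal.{0}).ord.cof := by
  rw [Ordinal.cof_toType, Ordinal.cof_ord_cof]

theorem lt_two_power : (𝔠 : Cardinal.{0}) < 2 ^ (𝔠 : Cardinal.{0}).ord.cof := by
  have h1 : (𝔠 : Cardinal.{0}) < 𝔠 ^ (𝔠 : Cardinal.{0}).ord.cof :=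
    lt_power_cof_ord aleph0_le_continuum
  have h2 : (𝔠 : Cardinal.{0}) ^ (𝔠 : Cardinal.{0}).ord.cof
      = 2 ^ (𝔠 : Cardinal.{0}).ord.cof := by
    have h3 : (𝔠 : Cardinal.{0}) ^ (𝔠 : Cardinal.{0}).ord.cof
        = (2 ^ ℵ₀) ^ (𝔠 : Cardinal.{0}).ord.cof := by rw [two_power_aleph0]
    rw [h3, ← power_mul, aleph0_mul_eq cof_uncountable.le]
  rwa [h2] at h1

theorem bdd_of_lt {ι : Type} (g : ι → Idx) (h : #ι < (𝔠 : Cardinal.{0}).ord.cof) :
    ∃ b, ∀ i, g i < b := by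
  have hnc : ¬ IsCofinal (range g) := by
    intro hcof
    have h1 := Order.cof_le hcof
    rw [cof_Idx] at h1
    exact absurd (h1.trans_lt (mk_range_le.trans_lt h)) (lt_irrefl _)
  obtain ⟨x, hx⟩ := not_isCofinal_iff.1 hnc
  exact ⟨x, fun i => hx _ ⟨i, rfl⟩⟩

theorem hc_Idx : ∀ g : ℕ → Idx, ∃ b, ∀ n, g n < b := fun g =>
  bdd_of_lt g (by simpa using cof_uncountable)

theorem mk_Iic_lt (a : Idx) : #(Iic a) < (𝔠 : Cardinal.{0}).ord.cof := by
  obtain ⟨b, hb⟩ := hc_Idx (fun _ => a)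
  have h1 : Iic a ⊆ Iio b := fun x hx => lt_of_le_of_lt hx (hb 0)
  exact (mk_le_mk_of_subset h1).trans_lt (mk_Iio_toType_ord_lt b)

theorem hreg_Idx : ∀ (a : Idx) (g : Iic a × Iic a → Idx), ∃ c, ∀ i, g i < c := fun a g =>
  bdd_of_lt g (by
    simp only [mk_prod, lift_id]
    exact mul_lt_of_lt cof_uncountable.le (mk_Iic_lt a) (mk_Iic_lt a))

instance : Nonempty Idx := by
  rw [Ordinal.nonempty_toType_iff]
  have h := cof_uncountable
  intro h0
  rw [ord_eq_zero] at h0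
  rw [h0] at h
  exact absurd h (by simp)

theorem mk_borel_le : #{D : Set ℝ | MeasurableSet D} ≤ 𝔠 := by
  have h : (inferInstance : MeasurableSpace ℝ) = borel ℝ := BorelSpace.measurable_eq
  have h2 : borel ℝ = MeasurableSpace.generateFrom (⋃ a : ℚ, {Iio (a : ℝ)}) :=
    Real.borel_eq_generateFrom_Iio_rat
  have h3 : {D : Set ℝ | MeasurableSet D}
      = {t | @MeasurableSet ℝ (MeasurableSpace.generateFrom (⋃ a : ℚ, {Iio (a : ℝ)})) t} := by
    rw [← h2, ← h]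
  rw [h3]
  refine MeasurableSpace.cardinal_measurableSet_le_continuum ?_
  have : (⋃ a : ℚ, {Iio (a : ℝ)} : Set (Set ℝ)).Countable :=
    countable_iUnion (fun a => countable_singleton _)
  exact (le_aleph0_iff_set_countable.2 this).trans aleph0_le_continuum

/-- Some subset of the index set is not Borel modulo thin sets. -/
theorem exists_not_borel (e : Idx → ℝ) :
    ∃ X : Set Idx, ∀ D : Set ℝ, MeasurableSet D → ¬ Thin {a | ¬ (a ∈ X ↔ e a ∈ D)} := by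
  classical
  by_contra hcon
  simp only [not_exists, not_forall, not_not] at hcon
  choose D hD hDt using hcon
  obtain ⟨A, g, hg⟩ := exists_split (L := Idx) hc_Idx hreg_Idx
  let Γ : Set Idx := {γ | ¬ Thin {a ∈ A | g a = γ}}
  have hΓ : IsCofinal Γ := fun η => by
    obtain ⟨γ, h1, h2⟩ := hg η
    exact ⟨γ, h2, h1⟩
  have hΓc : (𝔠 : Cardinal.{0}).ord.cof ≤ #Γ := by
    rw [← cof_Idx]; exact Order.cof_le hΓ
  let Φ : Set Γ → {D : Set ℝ | MeasurableSet D} := fun Z =>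
    ⟨D {a | a ∈ A ∧ ∃ z ∈ Z, g a = (z : Idx)}, hD _⟩
  have hΦ : Function.Injective Φ := by
    intro Z Z' hZ
    have hZ' : D {a | a ∈ A ∧ ∃ z ∈ Z, g a = (z : Idx)}
        = D {a | a ∈ A ∧ ∃ z ∈ Z', g a = (z : Idx)} := congrArg Subtype.val hZ
    have h1 := hDt {a | a ∈ A ∧ ∃ z ∈ Z, g a = (z : Idx)}
    have h2 := hDt {a | a ∈ A ∧ ∃ z ∈ Z', g a = (z : Idx)}
    rw [hZ'] at h1
    have h3 := thin_union hc_Idx h1 h2
    ext z
    by_contra hz
    refine z.2 (h3.mono ?_)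
    rintro a ⟨haA, haz⟩
    have q1 : (a ∈ {a | a ∈ A ∧ ∃ z ∈ Z, g a = (z : Idx)}) ↔ z ∈ Z := by
      constructor
      · rintro ⟨_, w, hw, hgw⟩
        have : w = z := Subtype.ext (hgw.symm.trans haz)
        exact this ▸ hw
      · intro h; exact ⟨haA, z, h, haz⟩
    have q2 : (a ∈ {a | a ∈ A ∧ ∃ z ∈ Z', g a = (z : Idx)}) ↔ z ∈ Z' := by
      constructor
      · rintro ⟨_, w, hw, hgw⟩
        have : w = z := Subtype.ext (hgw.symm.trans haz)
        exact this ▸ hw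
      · intro h; exact ⟨haA, z, h, haz⟩
    by_contra hn
    have hn1 := fun h => hn (Or.inl h)
    have hn2 := fun h => hn (Or.inr h)
    exact hz (q1.symm.trans ((not_not.1 hn1).trans ((not_not.1 hn2).symm.trans q2)))
  have h4 : #(Set Γ) ≤ 𝔠 := (mk_le_of_injective hΦ).trans mk_borel_le
  rw [mk_set] at h4
  have h5 : (2 : Cardinal.{0}) ^ (𝔠 : Cardinal.{0}).ord.cof ≤ 2 ^ #Γ :=
    power_le_power_left two_ne_zero hΓc
  exact absurd (lt_two_power.trans_le (h5.trans h4)) (lt_irrefl _)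

/-- The family: subsets of the interval that are Borel modulo thin sets of indices. -/
def Fam (e : Idx → ℝ) : Set (Set ℝ) :=
  {A | A ⊆ Icc (0:ℝ) 1 ∧ ∃ D : Set ℝ, MeasurableSet D ∧ Thin {a | ¬ (e a ∈ A ↔ e a ∈ D)}}

theorem exists_embedding : ∃ e : Idx → ℝ, Function.Injective e ∧ ∀ a, e a ∈ Icc (0:ℝ) 1 := by
  have h1 : #Idx ≤ #(Icc (0:ℝ) 1) := by
    rw [mk_Icc_real zero_lt_one, Cardinal.mk_toType, card_ord]
    exact Ordinal.cof_ord_le _
  obtain ⟨f⟩ := h1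
  exact ⟨fun a => (f a : ℝ), fun a b h => f.injective (Subtype.ext h), fun a => (f a).2⟩

theorem main : ∃ N : Set (Set ℝ),
      (∀ A ∈ N, A ⊆ Set.Icc (0:ℝ) 1) ∧
      (∀ J : Set ℝ, J.OrdConnected → J ⊆ Set.Icc (0:ℝ) 1 → J ∈ N) ∧
      (∀ A ∈ N, Set.Icc (0:ℝ) 1 \ A ∈ N) ∧
      (∀ f : ℕ → Set ℝ, (∀ n, f n ∈ N) → (⋃ n, f n) ∈ N) ∧
      (∀ P : Set (Set ℝ),
          (∀ p ∈ P, ∃ x ∈ p, ∃ y ∈ p, x ≠ y) →
          P.PairwiseDisjoint id →
          ⋃₀ P = Set.Icc (0:ℝ) 1 →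
          ∃ S ∈ N, ∀ p ∈ P, ∃! x, x ∈ S ∧ x ∈ p) ∧
      ∃ A : Set ℝ, A ⊆ Set.Icc (0:ℝ) 1 ∧ A ∉ N := by
  classical
  obtain ⟨e, he, heI⟩ := exists_embedding
  refine ⟨Fam e, fun A hA => hA.1, ?_, ?_, ?_, ?_, ?_⟩
  · intro J hJ hJI
    refine ⟨hJI, J, hJ.measurableSet, id, ?_⟩
    intro a ha
    exact absurd Iff.rfl ha
  · rintro A ⟨hA, D, hD, hT⟩
    refine ⟨sdiff_subset, Dᶜ, hD.compl, hT.mono ?_⟩
    intro a ha
    simp only [mem_ofPred_eq, mem_sdiff, mem_compl_iff, heI a, true_and] at ha ⊢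
    tauto
  · intro f hf
    have h1 : ∀ n, f n ⊆ Icc (0:ℝ) 1 := fun n => (hf n).1
    choose D hD hT using fun n => (hf n).2
    refine ⟨iUnion_subset h1, ⋃ n, D n, MeasurableSet.iUnion hD,
      (thin_iUnion hc_Idx hT).mono ?_⟩
    intro a ha
    simp only [mem_ofPred_eq, mem_iUnion] at ha ⊢
    by_contra hcon
    push Not at hcon
    apply ha
    constructor
    · rintro ⟨n, hn⟩; exact ⟨n, (hcon n).1 hn⟩
    · rintro ⟨n, hn⟩; exact ⟨n, (hcon n).2 hn⟩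
  · intro P hP hdisj hcov
    -- choose representatives
    have hrep : ∀ p : P, ∃ x ∈ (p : Set ℝ), (∀ b, e b = x → ∃ a < b, e a ∈ (p : Set ℝ)) := by
      rintro ⟨p, hp⟩
      obtain ⟨x, hx, y, hy, hxy⟩ := hP p hp
      by_cases hxr : ∃ a, e a = x
      · by_cases hyr : ∃ b, e b = y
        · obtain ⟨a, rfl⟩ := hxr
          obtain ⟨b, rfl⟩ := hyr
          have hab : a ≠ b := fun h => hxy (by rw [h])
          rcases lt_or_gt_of_ne hab with h | h
          · refine ⟨e b, hy, fun c hc => ?_⟩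
            rw [he hc]; exact ⟨a, h, hx⟩
          · refine ⟨e a, hx, fun c hc => ?_⟩
            rw [he hc]; exact ⟨b, h, hy⟩
        · exact ⟨y, hy, fun b hb => absurd ⟨b, hb⟩ hyr⟩
      · exact ⟨x, hx, fun b hb => absurd ⟨b, hb⟩ hxr⟩
    choose s hs hs2 using hrep
    refine ⟨range s, ⟨?_, ∅, MeasurableSet.empty, ?_⟩, ?_⟩
    · rintro _ ⟨p, rfl⟩
      rw [← hcov]
      exact ⟨p, p.2, hs p⟩
    · -- thin
      let ι := {q : P × Idx // e q.2 = s q.1}
      have hlow : ∀ q : ι, ∃ a < q.1.2, e a ∈ (q.1.1 : Set ℝ) := fun q => hs2 q.1.1 q.1.2 q.2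
      choose lo hlo1 hlo2 using hlow
      have hinj : Function.Injective lo := by
        intro q q' h
        have h1 := hlo2 q
        have h2 := hlo2 q'
        rw [h] at h1
        have hpp : (q.1.1 : P) = q'.1.1 := by
          by_contra hne
          have hne' : (q.1.1 : Set ℝ) ≠ (q'.1.1 : Set ℝ) := fun h => hne (Subtype.ext h)
          exact Set.disjoint_left.1 (hdisj q.1.1.2 q'.1.1.2 hne') h1 h2
        apply Subtype.ext
        apply Prod.ext hpp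
        apply he
        rw [q.2, q'.2, hpp]
      have h := thin_range lo (fun q : ι => q.1.2) hinj hlo1
      refine h.mono ?_
      intro a ha
      simp only [mem_ofPred_eq, mem_range, mem_empty_iff_false, iff_false, not_not] at ha
      obtain ⟨p, hp⟩ := ha
      exact ⟨⟨(p, a), hp.symm⟩, rfl⟩
    · intro p hp
      refine ⟨s ⟨p, hp⟩, ⟨⟨_, rfl⟩, hs ⟨p, hp⟩⟩, ?_⟩
      rintro y ⟨⟨p', rfl⟩, hy⟩
      have : p' = ⟨p, hp⟩ := by
        by_contra hne
        have hne' : (p' : Set ℝ) ≠ p := fun h => hne (Subtype.ext h)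
        exact Set.disjoint_left.1 (hdisj p'.2 hp hne') (hs p') hy
      rw [this]
  · obtain ⟨X, hX⟩ := exists_not_borel e
    refine ⟨e '' X, ?_, ?_⟩
    · rintro _ ⟨a, _, rfl⟩; exact heI a
    · rintro ⟨_, D, hD, hT⟩
      refine hX D hD (hT.mono ?_)
      intro a ha
      simp only [mem_ofPred_eq] at ha ⊢
      rwa [he.mem_set_image]

end Pool.Agent.H31R3.Selectors
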