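import Mathlib

set_option autoImplicit false

/-! Yorioka ideals: basic combinatorics of trees avoiding thin sequences of strings. -/

namespace Pool.Agent.H31R3.Yor

open Filter Set

abbrev K : Type := ℕ → Bool

/-- The finite binary string `s` is an initial segment of `z`. -/
def Pre (s : List Bool) (z : K) : Prop := ∀ (i : ℕ) (h : i < s.length), s[i] = z i

/-- The set of `z` having infinitely many `σ n` as initial segments. -/
def Linf (σ : ℕ → List Bool) : Set K := {z | ∃ᶠ n in atTop, Pre (σ n) z}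

/-- `x ≪ y`. -/
def FarBelow (x y : ℕ → ℕ) : Prop := ∀ k : ℕ, ∀ᶠ i in atTop, x (i ^ k) ≤ y i

/-- The Yorioka ideal of `f`. -/
def I (f : ℕ → ℕ) : Set (Set K) :=
  {A | ∃ σ : ℕ → List Bool, FarBelow f (fun n => (σ n).length) ∧ A ⊆ Linf σ}

/-- agreement below a level -/
def Agr (L : ℕ) (z w : K) : Prop := ∀ i < L, z i = w i

theorem Agr.refl (L : ℕ) (z : K) : Agr L z z := fun _ _ => rfl
theorem Agr.symm {L : ℕ} {z w : K} (h : Agr L z w) : Agr L w z := fun i hi => (h i hi).symm
theorem Agr.trans {L : ℕ} {z w v : K} (h : Agr L z w) (h' : Agr L w v) : Agr L z v :=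
  fun i hi => (h i hi).trans (h' i hi)
theorem Agr.mono {L L' : ℕ} {z w : K} (h : Agr L z w) (hL : L' ≤ L) : Agr L' z w :=
  fun i hi => h i (lt_of_lt_of_le hi hL)

/-- the string `s` disagrees with `z` below `L` -/
def Inc (s : List Bool) (z : K) (L : ℕ) : Prop := ∃ i, i < L ∧ ∃ h : i < s.length, s[i] ≠ z i

theorem Inc.mono {s : List Bool} {z : K} {L L' : ℕ} (h : Inc s z L) (hL : L ≤ L') : Inc s z L' := by
  obtain ⟨i, hi, h2, h3⟩ := h
  exact ⟨i, lt_of_lt_of_le hi hL, h2, h3⟩

theorem Inc.congr {s : List Bool} {z w : K} {L : ℕ} (h : Inc s z L) (hzw : Agr L z w) :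
    Inc s w L := by
  obtain ⟨i, hi, h2, h3⟩ := h
  exact ⟨i, hi, h2, by rw [← hzw i hi]; exact h3⟩

theorem Inc.not_pre {s : List Bool} {z : K} {L : ℕ} (h : Inc s z L) : ¬ Pre s z := by
  obtain ⟨i, _, h2, h3⟩ := h
  exact fun hp => h3 (hp i h2)

/-- parameters -/
structure Par where
  b : ℕ → ℕ
  a : ℕ → ℕ
  ha : ∀ n, a (n + 1) = a n + 2 * (2 ^ ((a n + 1) * n) + 1) + b n

namespace Par

variable (p : Par)

def M (n : ℕ) : ℕ := 2 ^ ((p.a n + 1) * n) + 1

theorem ha' (n : ℕ) : p.a (n + 1) = p.a n + 2 * p.M n + p.b n := p.ha n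

theorem a_lt (n : ℕ) : p.a n < p.a (n + 1) := by
  have := p.ha' n
  have : 0 < p.M n := by unfold M; positivity
  omega

theorem a_strictMono : StrictMono p.a := strictMono_nat_of_lt_succ p.a_lt

theorem le_a (n : ℕ) : n ≤ p.a n := p.a_strictMono.le_apply

theorem M_mono : Monotone p.M := by
  intro m n h
  unfold M
  have := p.a_strictMono.monotone h
  have h2 : (p.a m + 1) * m ≤ (p.a n + 1) * n := Nat.mul_le_mul (by omega) h
  have := Nat.pow_le_pow_right (n := 2) (by norm_num) h2
  omega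

theorem lt_M (n : ℕ) : n < p.M n := by
  unfold M
  have h1 : n ≤ (p.a n + 1) * n := Nat.le_mul_of_pos_left n (by omega)
  have h2 : n < 2 ^ n := Nat.lt_two_pow_self
  have h3 : 2 ^ n ≤ 2 ^ ((p.a n + 1) * n) := Nat.pow_le_pow_right (by norm_num) h1
  omega

/-- previous bound -/
def M' (n : ℕ) : ℕ := if n = 0 then 0 else p.M (n - 1)

theorem M'_succ (n : ℕ) : p.M' (n + 1) = p.M n := by simp [M']

theorem M'_zero : p.M' 0 = 0 := by simp [M']

/-- the level offset -/
def g (n : ℕ) : ℕ := p.a n + p.M n + p.b n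

theorem g_add (n : ℕ) : p.g n + p.M n = p.a (n + 1) := by
  rw [p.ha' n]; unfold g; omega

theorem g_mono : Monotone p.g := by
  apply monotone_nat_of_le_succ
  intro n
  have h1 := p.g_add n
  have h2 : p.a (n + 1) ≤ p.g (n + 1) := by unfold g; omega
  omega

theorem exists_lt_M (i : ℕ) : ∃ n, i < p.M n := ⟨i, p.lt_M i⟩

def idx (i : ℕ) : ℕ := by classical exact Nat.find (p.exists_lt_M i)

theorem lt_M_idx (i : ℕ) : i < p.M (p.idx i) := by
  classical
  unfold idx; exact Nat.find_spec (p.exists_lt_M i)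

theorem idx_le {i n : ℕ} (h : i < p.M n) : p.idx i ≤ n := by
  classical
  unfold idx; exact Nat.find_min' (p.exists_lt_M i) h

theorem le_idx {i n : ℕ} (h : p.M' n ≤ i) : n ≤ p.idx i := by
  by_contra hcon
  push Not at hcon
  have h1 := p.lt_M_idx i
  cases n with
  | zero => omega
  | succ n =>
    rw [p.M'_succ] at h
    have := p.M_mono (show p.idx i ≤ n by omega)
    omega

theorem idx_mono : Monotone p.idx := by
  intro i j h
  exact p.idx_le (lt_of_le_of_lt h (p.lt_M_idx j))

/-- the associated fast growing function -/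
def f (i : ℕ) : ℕ := i + p.g (p.idx i)

theorem f_strictMono : StrictMono p.f := by
  intro i j h
  have := p.g_mono (p.idx_mono h.le)
  unfold f; omega

theorem f_le {i n : ℕ} (h : i < p.M n) : p.f i ≤ i + p.g n := by
  have := p.g_mono (p.idx_le h)
  unfold f; omega

theorem le_f {i n : ℕ} (h : p.M' n ≤ i) : i + p.g n ≤ p.f i := by
  have := p.g_mono (p.le_idx h)
  unfold f; omega

end Par

/-- initial segment of `z` of length `L` -/
def tk (z : K) (L : ℕ) : List Bool := List.ofFn (fun i : Fin L => z i)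

theorem length_tk (z : K) (L : ℕ) : (tk z L).length = L := by simp [tk]

theorem pre_tk {z w : K} {L : ℕ} (h : Agr L z w) : Pre (tk z L) w := by
  intro i hi
  have hi' : i < L := by rwa [length_tk] at hi
  simp only [tk, List.getElem_ofFn]
  exact h i hi'

theorem exists_bits (z : K) (L : ℕ) : ∃ c < 2 ^ L, ∀ i < L, c.testBit i = z i :=
  ⟨Nat.ofBits (fun i : Fin L => z i), Nat.ofBits_lt_two_pow _, fun i hi =>
    Nat.testBit_ofBits_lt _ i hi⟩

/-- Sets of points that follow a pattern on infinitely many blocks are in the ideal when the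
blocks are long enough. -/
theorem mem_I_of_blocks (a : ℕ → ℕ) (ha : StrictMono a) (f : ℕ → ℕ) (hf : StrictMono f)
    (P : Set ℕ) (L : ℕ → ℕ) (v : ℕ → K)
    (hL : ∀ k, ∀ᶠ p in atTop, p ∈ P → f (2 ^ ((a p + 1) * k)) ≤ L p) :
    {z : K | ∃ᶠ p in atTop, p ∈ P ∧ ∀ i, a p ≤ i → i < L p → z i = v p i} ∈ I f := by
  classical
  let pt : ℕ → ℕ → K := fun m p i => if i < a p then m.testBit i else v p i
  let σ : ℕ → List Bool := fun m =>
    if h : ∃ p, p ∈ P ∧ Nat.log 2 m = a p then tk (pt m h.choose) (L h.choose)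
    else tk (fun _ => false) (f (m ^ m))
  refine ⟨σ, ?_, ?_⟩
  · intro k
    obtain ⟨p0, hp0⟩ := eventually_atTop.1 (hL k)
    filter_upwards [eventually_ge_atTop (2 ^ a p0), eventually_ge_atTop (max k 1)] with m hm hmk
    simp only [σ]
    have hm0 : m ≠ 0 := by have := le_max_right k 1; omega
    by_cases h : ∃ p, p ∈ P ∧ Nat.log 2 m = a p
    · rw [dif_pos h, length_tk]
      obtain ⟨hpP, hlog⟩ := h.choose_spec
      set p := h.choose
      have h1 : m < 2 ^ (a p + 1) := by
        rw [← hlog]; exact Nat.lt_pow_succ_log_self (by norm_num) m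
      have h2 : a p0 ≤ a p := by
        rw [← hlog]
        exact Nat.le_log_of_pow_le (by norm_num) hm
      have h3 : p0 ≤ p := ha.le_iff_le.1 h2
      refine le_trans (hf.monotone ?_) (hp0 p h3 hpP)
      rw [pow_mul]
      exact Nat.pow_le_pow_left h1.le k
    · rw [dif_neg h, length_tk]
      apply hf.monotone
      exact Nat.pow_le_pow_right (by omega) (le_trans (le_max_left _ _) hmk)
  · intro z hz
    rw [mem_ofPred_eq, frequently_atTop] at hz
    rw [Linf, mem_ofPred_eq, frequently_atTop]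
    intro N
    obtain ⟨p, hpN, hpP, hzp⟩ := hz N
    obtain ⟨c, hc, hcz⟩ := exists_bits z (a p)
    refine ⟨2 ^ a p + c, ?_, ?_⟩
    · have h1 : p ≤ a p := ha.le_apply
      have h2 : a p < 2 ^ a p := Nat.lt_two_pow_self
      omega
    · have hlog : Nat.log 2 (2 ^ a p + c) = a p := by
        rw [Nat.log_eq_iff (Or.inr ⟨by norm_num, by positivity⟩)]
        constructor
        · omega
        · rw [pow_succ]; omega
      have h : ∃ p', p' ∈ P ∧ Nat.log 2 (2 ^ a p + c) = a p' := ⟨p, hpP, hlog⟩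
      have hpp : h.choose = p := (ha.injective (hlog.symm.trans h.choose_spec.2)).symm
      simp only [σ, dif_pos h, hpp]
      apply pre_tk
      intro i hi
      simp only [pt]
      by_cases hia : i < a p
      · rw [if_pos hia, Nat.testBit_two_pow_add_gt hia, hcz i hia]
      · rw [if_neg hia]
        exact (hzp i (not_lt.1 hia) hi).symm

/-! ### The tree -/

section tree

variable (p : Par) (σ : ℕ → List Bool) (N : ℕ)

/-- level `n` of the tree: nodes incompatible with all strings of small index -/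
def T (n : ℕ) (z : K) : Prop := ∀ m, N ≤ m → m < p.M' n → Inc (σ m) z (p.a n)

theorem T.congr {p : Par} {σ : ℕ → List Bool} {N n : ℕ} {z w : K} (h : T p σ N n z)
    (hzw : Agr (p.a n) z w) : T p σ N n w := fun m h1 h2 => (h m h1 h2).congr hzw

/-- Baire category argument: if no point of the limit set avoids `Linf σ`, then some node of the
tree has no good extensions. -/
theorem baire (P : Set ℕ) (good : ℕ → K → Prop)
    (hgood : ∀ n z w, Agr (p.a (n + 1)) z w → good n z → good n w)
    (hsub : {z : K | ∃ᶠ n in atTop, n ∈ P ∧ good n z} ⊆ Linf σ) :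
    ∃ n₁, ∃ u, T p σ N n₁ u ∧ ∀ n ≥ n₁, n ∈ P → ∀ w, T p σ N (n + 1) w → Agr (p.a n₁) u w →
      ¬ good n w := by
  by_contra hcon
  push Not at hcon
  -- one step
  have step : ∀ s : {q : ℕ × K // T p σ N q.1 q.2}, ∃ t : {q : ℕ × K // T p σ N q.1 q.2},
      s.1.1 < t.1.1 ∧ Agr (p.a s.1.1) s.1.2 t.1.2 ∧ (t.1.1 - 1) ∈ P ∧ good (t.1.1 - 1) t.1.2 := by
    rintro ⟨⟨n₁, u⟩, hu⟩
    obtain ⟨n, hn, hnP, w, hw, hag, hgw⟩ := hcon n₁ u hu
    exact ⟨⟨(n + 1, w), hw⟩, by simpa using Nat.lt_succ_of_le hn, hag, by simpa using hnP,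
      by simpa using hgw⟩
  choose F hF1 hF2 hF3 hF4 using step
  have h0 : T p σ N 0 (fun _ => false) := by
    intro m _ hm
    rw [p.M'_zero] at hm; omega
  let s : ℕ → {q : ℕ × K // T p σ N q.1 q.2} := fun k => Nat.rec ⟨(0, fun _ => false), h0⟩
    (fun _ t => F t) k
  have hs1 : ∀ k, (s k).1.1 < (s (k + 1)).1.1 := fun k => hF1 (s k)
  have hs2 : ∀ k, Agr (p.a (s k).1.1) (s k).1.2 (s (k + 1)).1.2 := fun k => hF2 (s k)
  have hs3 : ∀ k, ((s (k + 1)).1.1 - 1) ∈ P := fun k => hF3 (s k)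
  have hs4 : ∀ k, good ((s (k + 1)).1.1 - 1) (s (k + 1)).1.2 := fun k => hF4 (s k)
  have hmono : StrictMono (fun k => (s k).1.1) := strictMono_nat_of_lt_succ hs1
  have hs5 : ∀ k d, Agr (p.a (s k).1.1) (s k).1.2 (s (k + d)).1.2 := by
    intro k d
    induction d with
    | zero => exact Agr.refl _ _
    | succ d ih =>
      refine ih.trans ((hs2 (k + d)).mono ?_)
      exact p.a_strictMono.monotone (hmono.monotone (Nat.le_add_right k d))
  have hk : ∀ k, k ≤ (s k).1.1 := fun k => hmono.le_apply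
  -- the limit point
  let z : K := fun i => (s (i + 1)).1.2 i
  have hz : ∀ k, Agr (p.a (s k).1.1) (s k).1.2 z := by
    intro k i hi
    rcases le_total k (i + 1) with h | h
    · obtain ⟨d, hd⟩ := Nat.exists_eq_add_of_le h
      have := hs5 k d i hi
      simp only [z]
      rw [hd]; exact this
    · obtain ⟨d, hd⟩ := Nat.exists_eq_add_of_le h
      have h1 : i < p.a (s (i + 1)).1.1 := by
        have h2 := hk (i + 1)
        have h3 := p.le_a (s (i + 1)).1.1
        omega
      have := hs5 (i + 1) d i h1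
      simp only [z]
      rw [hd]; exact this.symm
  have hzmem : z ∈ {z : K | ∃ᶠ n in atTop, n ∈ P ∧ good n z} := by
    rw [mem_ofPred_eq, frequently_atTop]
    intro n
    refine ⟨(s (n + 1)).1.1 - 1, ?_, hs3 n, ?_⟩
    · have := hk (n + 1); omega
    · refine hgood _ _ _ ?_ (hs4 n)
      have h1 : (s (n + 1)).1.1 - 1 + 1 = (s (n + 1)).1.1 := by
        have := hk (n + 1); omega
      rw [h1]
      exact hz (n + 1)
  have hzL := hsub hzmem
  rw [Linf, mem_ofPred_eq, frequently_atTop] at hzL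
  obtain ⟨m, hmN, hm⟩ := hzL N
  -- choose a stage with M' > m
  have hstage : ∃ k, m < p.M' (s k).1.1 := by
    refine ⟨m + 1, ?_⟩
    have h1 := hk (m + 1)
    have h2 : p.M' (s (m + 1)).1.1 = p.M ((s (m + 1)).1.1 - 1) := by
      unfold Par.M'
      rw [if_neg (by omega)]
    rw [h2]
    have h3 := p.lt_M m
    have h4 := p.M_mono (show m ≤ (s (m + 1)).1.1 - 1 by omega)
    omega
  obtain ⟨k, hkm⟩ := hstage
  exact (((s k).2 m hmN hkm).congr (hz k)).not_pre hm

/-- `glue z n j`: `z` below level `n`, then the bits of `j`. -/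
def glue (z : K) (n j : ℕ) : K := fun i => if i < p.a n then z i else j.testBit (i - p.a n)

theorem agr_glue (z : K) (n j : ℕ) : Agr (p.a n) z (glue p z n j) := by
  intro i hi
  simp [glue, hi]

/-- Few children are bad. `E` collects indices, each of which kills at most one child. -/
theorem bad_card (z : K) (n : ℕ) (J : Finset ℕ) (hJ : ∀ j ∈ J, j < 2 ^ (p.b n + p.M n))
    (L : ℕ) (hL1 : p.a n + p.b n + p.M n ≤ L)
    (E : Finset ℕ) (hE : ∀ m ∈ E, p.g n ≤ (σ m).length)
    (hbad : ∀ j ∈ J, ∃ m ∈ E, ¬ Inc (σ m) (glue p z n j) L) : J.card ≤ E.card := by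
  classical
  choose! m hm1 hm2 using hbad
  refine Finset.card_le_card_of_injOn m hm1 ?_
  intro j hj j' hj' hmm
  have hj := Finset.mem_coe.1 hj
  have hj' := Finset.mem_coe.1 hj'
  apply Nat.eq_of_testBit_eq
  intro i
  by_cases hi : i < p.b n + p.M n
  · have h1 : p.a n + i < L := by omega
    have h2 : p.a n + i < (σ (m j)).length := by
      have := hE (m j) (hm1 j hj)
      unfold Par.g at this; omega
    have e1 : (σ (m j))[p.a n + i] = glue p z n j (p.a n + i) := by
      by_contra hne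
      exact hm2 j hj ⟨_, h1, h2, hne⟩
    have h2' : p.a n + i < (σ (m j')).length := by rw [← hmm]; exact h2
    have e2 : (σ (m j'))[p.a n + i] = glue p z n j' (p.a n + i) := by
      by_contra hne
      exact hm2 j' hj' ⟨_, h1, h2', hne⟩
    have e3 : (σ (m j))[p.a n + i] = (σ (m j'))[p.a n + i] := by
      simp only [hmm]
    rw [e1, e2] at e3
    simpa [glue] using e3
  · rw [Nat.testBit_lt_two_pow (lt_of_lt_of_le (hJ j hj)
      (Nat.pow_le_pow_right (by norm_num) (not_lt.1 hi)))]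
    rw [Nat.testBit_lt_two_pow (lt_of_lt_of_le (hJ j' hj')
      (Nat.pow_le_pow_right (by norm_num) (not_lt.1 hi)))]

variable {p σ N}

theorem bad_child (hσ : ∀ m ≥ N, p.f m ≤ (σ m).length) {z : K} {n : ℕ} (hz : T p σ N n z)
    (J : Finset ℕ) (hJ : ∀ j ∈ J, j < 2 ^ (p.b n + p.M n))
    (hbad : ∀ j ∈ J, ¬ T p σ N (n + 1) (glue p z n j)) : J.card ≤ p.M n := by
  classical
  have h1 : J.card ≤ (Finset.Ico (max N (p.M' n)) (p.M n)).card := by
    refine bad_card p σ z n J hJ (p.a (n + 1)) (by rw [p.ha' n]; omega) _ ?_ ?_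
    · intro m hm
      rw [Finset.mem_Ico] at hm
      have h2 : N ≤ m := le_trans (le_max_left _ _) hm.1
      have h3 : p.M' n ≤ m := le_trans (le_max_right _ _) hm.1
      have := p.le_f h3
      have := hσ m h2
      omega
    · intro j hj
      have := hbad j hj
      simp only [T, not_forall] at this
      obtain ⟨m, hmN, hmM, hInc⟩ := this
      rw [p.M'_succ] at hmM
      refine ⟨m, ?_, hInc⟩
      rw [Finset.mem_Ico]
      refine ⟨max_le hmN ?_, hmM⟩
      by_contra hcon
      push Not at hcon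
      exact hInc (((hz m hmN hcon).congr (agr_glue p z n j)).mono (p.a_lt n).le)
  refine h1.trans ?_
  rw [Nat.card_Ico]; omega

theorem exists_child (hσ : ∀ m ≥ N, p.f m ≤ (σ m).length) {z : K} {n : ℕ} (hz : T p σ N n z) :
    ∃ w, T p σ N (n + 1) w ∧ Agr (p.a n) z w := by
  classical
  by_contra hcon
  push Not at hcon
  have h := bad_child hσ hz (Finset.range (p.M n + 1)) (by
      intro j hj
      rw [Finset.mem_range] at hj
      have h1 : p.M n < 2 ^ p.M n := Nat.lt_two_pow_self
      have h2 : 2 ^ p.M n ≤ 2 ^ (p.b n + p.M n) := Nat.pow_le_pow_right (by norm_num) (by omega)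
      omega)
    (fun j _ hT => hcon _ hT (agr_glue p z n j))
  rw [Finset.card_range] at h
  omega

/-- a path through the tree above a node -/
theorem exists_path (hσ : ∀ m ≥ N, p.f m ≤ (σ m).length) {u : K} {n₁ : ℕ} (hu : T p σ N n₁ u) :
    ∃ Z : ℕ → K, ∀ n ≥ n₁, T p σ N n (Z n) ∧ Agr (p.a n₁) u (Z n) := by
  have h : ∀ n ≥ n₁, ∃ z, T p σ N n z ∧ Agr (p.a n₁) u z := by
    intro n hn
    induction n, hn using Nat.le_induction with
    | base => exact ⟨u, hu, Agr.refl _ _⟩
    | succ n hn ih =>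
      obtain ⟨z, hz, hag⟩ := ih
      obtain ⟨w, hw, hzw⟩ := exists_child hσ hz
      exact ⟨w, hw, hag.trans (hzw.mono (p.a_strictMono.monotone hn))⟩
  choose! Z hZ using h
  exact ⟨Z, hZ⟩

end tree

end Pool.Agent.H31R3.Yor
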