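import Pool.Agent.H31R3.YorBasic

set_option autoImplicit false

namespace Pool.Agent.H31R3.Yor

open Filter Set

/-- `z` below level `s`, then the bits of `j`. -/
def glu (z : K) (s j : ℕ) : K := fun i => if i < s then z i else j.testBit (i - s)

theorem agr_glu (z : K) (s j : ℕ) : Agr s z (glu z s j) := by
  intro i hi
  simp [glu, hi]

theorem kill_card (σ : ℕ → List Bool) (z : K) (s d L : ℕ) (hL : s + d ≤ L)
    (J : Finset ℕ) (hJ : ∀ j ∈ J, j < 2 ^ d)
    (E : Finset ℕ) (hE : ∀ m ∈ E, s + d ≤ (σ m).length)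
    (hbad : ∀ j ∈ J, ∃ m ∈ E, ¬ Inc (σ m) (glu z s j) L) : J.card ≤ E.card := by
  classical
  choose! m hm1 hm2 using hbad
  refine Finset.card_le_card_of_injOn m hm1 ?_
  intro j hj j' hj' hmm
  have hj := Finset.mem_coe.1 hj
  have hj' := Finset.mem_coe.1 hj'
  apply Nat.eq_of_testBit_eq
  intro i
  by_cases hi : i < d
  · have h1 : s + i < L := by omega
    have h2 : s + i < (σ (m j)).length := by
      have := hE (m j) (hm1 j hj)
      omega
    have e1 : (σ (m j))[s + i] = glu z s j (s + i) := by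
      by_contra hne
      exact hm2 j hj ⟨_, h1, h2, hne⟩
    have h2' : s + i < (σ (m j')).length := by rw [← hmm]; exact h2
    have e2 : (σ (m j'))[s + i] = glu z s j' (s + i) := by
      by_contra hne
      exact hm2 j' hj' ⟨_, h1, h2', hne⟩
    have e3 : (σ (m j))[s + i] = (σ (m j'))[s + i] := by
      simp only [hmm]
    rw [e1, e2] at e3
    simpa [glu] using e3
  · rw [Nat.testBit_lt_two_pow (lt_of_lt_of_le (hJ j hj)
      (Nat.pow_le_pow_right (by norm_num) (not_lt.1 hi)))]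
    rw [Nat.testBit_lt_two_pow (lt_of_lt_of_le (hJ j' hj')
      (Nat.pow_le_pow_right (by norm_num) (not_lt.1 hi)))]

theorem arith1 (a M b r : ℕ) (hr : 1 ≤ r) (ha : r ≤ a) (hM : M = 2 ^ ((a + 1) * r) + 1) :
    M + (2 ^ ((a + 2 * M + b + 1) / 4 + 1) + 1) < 2 ^ (b + M) := by
  have h1 : 2 ^ (a + 1) ≤ 2 ^ ((a + 1) * r) :=
    Nat.pow_le_pow_right (by norm_num) (Nat.le_mul_of_pos_right _ hr)
  have h2 : a + 1 < 2 ^ (a + 1) := Nat.lt_two_pow_self
  have h3 : 2 ^ (a + 1) = 2 * 2 ^ a := by rw [pow_succ]; ring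
  have h4 : a + 1 ≤ 2 ^ a := Nat.lt_two_pow_self
  have hM5 : 5 ≤ M := by omega
  have hMa : a + 9 ≤ 2 * M := by omega
  have h5 : (a + 2 * M + b + 1) / 4 + 1 ≤ b + M - 1 := by omega
  have h6 : 2 ^ ((a + 2 * M + b + 1) / 4 + 1) ≤ 2 ^ (b + M - 1) :=
    Nat.pow_le_pow_right (by norm_num) h5
  have h7 : M + 1 < 2 ^ (M - 1) := by
    obtain ⟨c, rfl⟩ := Nat.exists_eq_add_of_le hM5
    have : c + 1 ≤ 2 ^ c := Nat.lt_two_pow_self
    have h8 : 2 ^ (5 + c - 1) = 16 * 2 ^ c := by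
      rw [show 5 + c - 1 = c + 4 by omega, pow_add]; ring
    rw [h8]; omega
  have h8 : 2 ^ (M - 1) ≤ 2 ^ (b + M - 1) := Nat.pow_le_pow_right (by norm_num) (by omega)
  have h9 : 2 ^ (b + M) = 2 ^ (b + M - 1) + 2 ^ (b + M - 1) := by
    conv_lhs => rw [show b + M = (b + M - 1) + 1 by omega]
    rw [pow_succ]; ring
  omega

theorem prod_ge_add {x y : ℕ} (hx : 2 ≤ x) (hy : 2 ≤ y) : x + y ≤ x * y := by
  nlinarith

theorem four_pow_ge (x : ℕ) (hx : 1 ≤ x) : x * x + 2 ≤ 2 ^ (2 * x) := by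
  have h1 : x + 1 ≤ 2 ^ x := Nat.lt_two_pow_self
  have h2 : 2 ^ (2 * x) = 2 ^ x * 2 ^ x := by rw [two_mul, pow_add]
  rw [h2]
  nlinarith

/-- room for `d` free bits -/
theorem arith2 (x q n : ℕ) (hx : q + 1 ≤ x) (hqn : n + 2 ≤ q) (hn : 1 ≤ n) :
    2 ^ (x * n) + (x * q + 2) ≤ 2 ^ (x * q) + 1 := by
  have h0 : x * q + 2 ≤ 2 ^ (2 * x) := by
    have := four_pow_ge x (by omega)
    nlinarith
  have h1 : 2 ^ (x * q) = 2 ^ (x * n) * 2 ^ (x * (q - n)) := by
    rw [← pow_add]; congr 1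
    rw [← Nat.mul_add]; congr 1; omega
  have h2 : 2 ^ (2 * x) ≤ 2 ^ (x * (q - n)) := Nat.pow_le_pow_right (by norm_num) (by
    have : x * 2 ≤ x * (q - n) := Nat.mul_le_mul_left _ (by omega)
    omega)
  have h3 : 2 ≤ 2 ^ (x * n) := by
    have : 1 ≤ x * n := Nat.mul_pos (by omega) hn
    calc 2 = 2 ^ 1 := by norm_num
      _ ≤ _ := Nat.pow_le_pow_right (by norm_num) this
  have h4 : 2 ≤ 2 ^ (x * (q - n)) := by
    have : 2 ^ 1 ≤ 2 ^ (2 * x) := Nat.pow_le_pow_right (by norm_num) (by omega)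
    omega
  have h5 := prod_ge_add h3 h4
  rw [h1]; omega

theorem arith3 (x q n m : ℕ) (hx : q + 1 ≤ x) (hn : 1 ≤ n) (hm : 2 ^ (x / 4 + 1) < m) :
    2 ^ (x * n) + (x * q + 2) ≤ m ^ (8 * (n + 1)) := by
  have h0 : x * q + 2 ≤ 2 ^ (2 * x) := by
    have := four_pow_ge x (by omega)
    nlinarith
  have h1 : (2 ^ (x / 4 + 1)) ^ (8 * (n + 1)) ≤ m ^ (8 * (n + 1)) := Nat.pow_le_pow_left hm.le _
  have h2 : 2 ^ (x * n + x * (n + 2)) ≤ (2 ^ (x / 4 + 1)) ^ (8 * (n + 1)) := by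
    rw [← pow_mul]
    apply Nat.pow_le_pow_right (by norm_num)
    have : x ≤ (x / 4 + 1) * 4 := by omega
    calc x * n + x * (n + 2) = x * (2 * (n + 1)) := by ring
      _ ≤ ((x / 4 + 1) * 4) * (2 * (n + 1)) := Nat.mul_le_mul_right _ this
      _ = (x / 4 + 1) * (8 * (n + 1)) := by ring
  rw [pow_add] at h2
  have h3 : 2 ≤ 2 ^ (x * n) := by
    have : 1 ≤ x * n := Nat.mul_pos (by omega) hn
    calc 2 = 2 ^ 1 := by norm_num
      _ ≤ _ := Nat.pow_le_pow_right (by norm_num) this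
  have h5 : 2 ^ (2 * x) ≤ 2 ^ (x * (n + 2)) := Nat.pow_le_pow_right (by norm_num) (by nlinarith)
  have h4 : 2 ≤ 2 ^ (x * (n + 2)) := by
    have : 2 ^ 1 ≤ 2 ^ (2 * x) := Nat.pow_le_pow_right (by norm_num) (by omega)
    omega
  have h6 := prod_ge_add h3 h4
  omega

theorem key_ext (p : Par) (σ : ℕ → List Bool) (N : ℕ) (hN : ∀ m ≥ N, p.f m ≤ (σ m).length)
    (hσ : FarBelow p.f (fun n => (σ n).length)) (n : ℕ) (hn : 1 ≤ n) :
    ∃ p0, ∀ q ≥ p0, ∀ n₁ u, n₁ < q → T p σ N n₁ u → ∃ w, T p σ N (q + 1) w ∧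
      Agr (p.a n₁) u w ∧ ∀ i, p.a q ≤ i → i < p.g q + 2 ^ ((p.a q + 1) * n) → w i = false := by
  classical
  obtain ⟨mk, hmk⟩ := eventually_atTop.1 (hσ (8 * (n + 1)))
  refine ⟨max (mk + 1) (n + 2), ?_⟩
  intro q hq n₁ u hn₁ hu
  have hq1 : mk + 1 ≤ q := le_trans (le_max_left _ _) hq
  have hq2 : n + 2 ≤ q := le_trans (le_max_right _ _) hq
  obtain ⟨r, rfl⟩ : ∃ r, q = r + 1 := ⟨q - 1, by omega⟩
  set Q := 2 ^ ((p.a (r + 1) + 1) / 4 + 1) with hQ
  -- step 1
  obtain ⟨Z, hZ⟩ := exists_path hN hu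
  obtain ⟨hzT, hzag⟩ := hZ r (by omega)
  -- step 2
  have hM' : p.M' (r + 1) = p.M r := p.M'_succ r
  have hmkM : mk ≤ p.M r := by have := p.lt_M r; omega
  obtain ⟨j, hjT, hjI⟩ : ∃ j, T p σ N (r + 1) (glue p (Z r) r j) ∧
      ∀ m ∈ Finset.Icc (max N (p.M r)) Q, Inc (σ m) (glue p (Z r) r j) (p.a (r + 1)) := by
    by_contra hcon
    push Not at hcon
    let J := Finset.range (2 ^ (p.b r + p.M r))
    let J1 := J.filter (fun j => ¬ T p σ N (r + 1) (glue p (Z r) r j))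
    let J2 := J.filter (fun j => ∃ m ∈ Finset.Icc (max N (p.M r)) Q,
      ¬ Inc (σ m) (glue p (Z r) r j) (p.a (r + 1)))
    have hJ : J ⊆ J1 ∪ J2 := by
      intro j hj
      rw [Finset.mem_union, Finset.mem_filter, Finset.mem_filter]
      by_cases h : T p σ N (r + 1) (glue p (Z r) r j)
      · right; exact ⟨hj, hcon j h⟩
      · left; exact ⟨hj, h⟩
    have h1 : J1.card ≤ p.M r := bad_child hN hzT J1
      (fun j hj => Finset.mem_range.1 (Finset.mem_filter.1 hj).1)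
      (fun j hj => (Finset.mem_filter.1 hj).2)
    have h2 : J2.card ≤ (Finset.Icc (max N (p.M r)) Q).card := by
      refine bad_card p σ (Z r) r J2
        (fun j hj => Finset.mem_range.1 (Finset.mem_filter.1 hj).1) (p.a (r + 1))
        (by rw [p.ha' r]; omega) _ ?_ (fun j hj => (Finset.mem_filter.1 hj).2)
      intro m hm
      rw [Finset.mem_Icc] at hm
      have h3 : N ≤ m := le_trans (le_max_left _ _) hm.1
      have h4 : p.M r ≤ m := le_trans (le_max_right _ _) hm.1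
      have h5 : p.M' r ≤ m := by
        have : p.M' r ≤ p.M r := by
          unfold Par.M'
          split
          · omega
          · exact p.M_mono (by omega)
        omega
      have := p.le_f h5
      have := hN m h3
      omega
    have h3 : (Finset.Icc (max N (p.M r)) Q).card ≤ Q + 1 := by
      rw [Nat.card_Icc]; exact Nat.sub_le _ _
    have h4 : J.card ≤ J1.card + J2.card :=
      (Finset.card_le_card hJ).trans (Finset.card_union_le _ _)
    have h5 : J.card = 2 ^ (p.b r + p.M r) := Finset.card_range _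
    have h6 := arith1 (p.a r) (p.M r) (p.b r) r (by omega) (p.le_a r) rfl
    rw [← p.ha' r] at h6
    omega
  set z := glue p (Z r) r j with hz
  -- step 3
  set x := p.a (r + 1) + 1 with hx
  set R := p.g (r + 1) + 2 ^ (x * n) with hR
  have hxq : r + 1 + 1 ≤ x := by have := p.le_a (r + 1); omega
  let base : K := fun i => if i < p.a (r + 1) then z i else false
  have hbase : Agr (p.a (r + 1)) z base := fun i hi => by simp [base, hi]
  set d := x * (r + 1) + 2 with hd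
  have hMq : p.M (r + 1) = 2 ^ (x * (r + 1)) + 1 := rfl
  have hroom : R + d ≤ p.a (r + 1 + 1) := by
    have h1 := p.g_add (r + 1)
    have h2 : 2 ^ (x * n) + d ≤ p.M (r + 1) := arith2 x (r + 1) n hxq hq2 hn
    clear_value d
    omega
  have haR : p.a (r + 1) ≤ R := by
    have : p.a (r + 1) ≤ p.g (r + 1) := by unfold Par.g; omega
    exact this.trans (Nat.le_add_right _ _)
  have hlen : ∀ m ∈ Finset.Ico (max (max N (p.M r)) (Q + 1)) (p.M (r + 1)),
      R + d ≤ (σ m).length := by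
    intro m hm
    rw [Finset.mem_Ico] at hm
    have h1 : max N (p.M r) ≤ m := le_trans (le_max_left _ _) hm.1
    have h2 : Q + 1 ≤ m := le_trans (le_max_right _ _) hm.1
    have h4 : p.M r ≤ m := le_trans (le_max_right _ _) h1
    have h5 : p.f (m ^ (8 * (n + 1))) ≤ (σ m).length := hmk m (by omega)
    have h6 : 2 ^ (x * n) + d ≤ m ^ (8 * (n + 1)) := arith3 x (r + 1) n m hxq hn (by
      exact lt_of_lt_of_le (Nat.lt_succ_self _) h2)
    have h7 : m ≤ m ^ (8 * (n + 1)) := Nat.le_self_pow (by omega) m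
    have h8 := p.le_f (i := m ^ (8 * (n + 1))) (n := r + 1) (by rw [hM']; omega)
    clear_value d
    omega
  obtain ⟨e, he⟩ : ∃ e, ∀ m ∈ Finset.Ico (max (max N (p.M r)) (Q + 1)) (p.M (r + 1)),
      Inc (σ m) (glu base R e) (p.a (r + 1 + 1)) := by
    by_contra hcon
    push Not at hcon
    have h1 := kill_card σ base R d (p.a (r + 1 + 1)) hroom (Finset.range (2 ^ d))
      (fun j hj => Finset.mem_range.1 hj) _ hlen (fun j _ => hcon j)
    rw [Finset.card_range, Nat.card_Ico] at h1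
    have h2 : 2 ^ d = 4 * 2 ^ (x * (r + 1)) := by rw [hd, pow_add]; ring
    have h3 : 1 ≤ 2 ^ (x * (r + 1)) := Nat.one_le_two_pow
    rw [h2] at h1
    omega
  have hag : Agr (p.a (r + 1)) z (glu base R e) :=
    hbase.trans ((agr_glu base R e).mono haR)
  refine ⟨glu base R e, ?_, ?_, ?_⟩
  · intro m hmN hmM
    rw [p.M'_succ] at hmM
    rcases lt_or_ge m (p.M r) with h | h
    · exact ((hjT m hmN (by rw [hM']; exact h)).congr hag).mono (p.a_lt _).le
    · rcases le_or_gt m Q with h2 | h2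
      · exact ((hjI m (Finset.mem_Icc.2 ⟨max_le hmN h, h2⟩)).congr hag).mono (p.a_lt _).le
      · exact he m (Finset.mem_Ico.2 ⟨max_le (max_le hmN h) h2, hmM⟩)
  · refine hzag.trans ?_
    refine ((agr_glue p (Z r) r j).mono (p.a_strictMono.monotone (by omega))).trans ?_
    exact hag.mono (p.a_strictMono.monotone (by omega))
  · intro i hi1 hi2
    have h1 : i < R := hi2
    simp only [glu, if_pos h1, base, if_neg (not_lt.2 hi1)]

/-- Domination through a Yorioka ideal. -/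
theorem dom_step (p : Par) : ∃ (A : (ℕ → ℕ) → Set K) (ψ : Set K → ℕ → ℕ),
    (∀ x, A x ∈ I p.f) ∧
    ∀ x : ℕ → ℕ, ∀ B ∈ I p.f, A x ⊆ B → ∀ᶠ n in atTop, x n ≤ ψ B n := by
  classical
  let X : (ℕ → ℕ) → ℕ → ℕ := fun x n => n + 1 + ∑ i ∈ Finset.range (n + 1), x i
  have hX : ∀ x, StrictMono (X x) := by
    intro x
    apply strictMono_nat_of_lt_succ
    intro n
    simp only [X]
    rw [Finset.sum_range_succ _ (n + 1)]
    omega
  have hXn : ∀ x n, n < X x n := fun x n => by simp only [X]; omega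
  have hXx : ∀ x n, x n ≤ X x n := fun x n => by
    simp only [X]
    have : x n ≤ ∑ i ∈ Finset.range (n + 1), x i :=
      Finset.single_le_sum (f := x) (fun i _ => Nat.zero_le _)
        (Finset.mem_range.2 (Nat.lt_succ_self n))
    omega
  let inv : (ℕ → ℕ) → ℕ → ℕ := fun x q => if h : ∃ n, X x n = q then h.choose else 0
  have hinv : ∀ x n, inv x (X x n) = n := by
    intro x n
    have h : ∃ n', X x n' = X x n := ⟨n, rfl⟩
    simp only [inv, dif_pos h]
    exact (hX x).injective h.choose_spec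
  let L : (ℕ → ℕ) → ℕ → ℕ := fun x q => p.g q + 2 ^ ((p.a q + 1) * inv x q)
  let A : (ℕ → ℕ) → Set K := fun x =>
    {z | ∃ᶠ q in atTop, q ∈ range (X x) ∧ ∀ i, p.a q ≤ i → i < L x q → z i = false}
  have hA : ∀ x, A x ∈ I p.f := by
    intro x
    refine mem_I_of_blocks p.a p.a_strictMono p.f p.f_strictMono (range (X x)) (L x)
      (fun _ _ => false) ?_
    intro k
    filter_upwards [eventually_ge_atTop (X x k)] with q hq hqX
    obtain ⟨n, rfl⟩ := hqX
    have hkn : k ≤ n := (hX x).le_iff_le.1 hq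
    simp only [L, hinv]
    have h1 : 2 ^ ((p.a (X x n) + 1) * k) ≤ 2 ^ ((p.a (X x n) + 1) * n) :=
      Nat.pow_le_pow_right (by norm_num) (Nat.mul_le_mul_left _ hkn)
    have h2 : 2 ^ ((p.a (X x n) + 1) * n) < p.M (X x n) := by
      unfold Par.M
      have := Nat.pow_le_pow_right (n := 2) (by norm_num)
        (Nat.mul_le_mul_left (p.a (X x n) + 1) (hXn x n).le)
      omega
    have h3 := p.f_le (lt_of_le_of_lt h1 h2)
    omega
  have hψ : ∀ B : Set K, ∃ ψ : ℕ → ℕ, B ∈ I p.f → ∀ x : ℕ → ℕ, A x ⊆ B →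
      ∀ᶠ n in atTop, x n ≤ ψ n := by
    intro B
    by_cases hB : B ∈ I p.f
    swap
    · exact ⟨fun _ => 0, fun h => absurd h hB⟩
    obtain ⟨σ, hσ, hBσ⟩ := hB
    obtain ⟨N, hN⟩ := eventually_atTop.1 (hσ 1)
    have hN' : ∀ m ≥ N, p.f m ≤ (σ m).length := by
      intro m hm
      have := hN m hm
      simpa using this
    have hkey : ∀ n, ∃ p0, 1 ≤ n → ∀ q ≥ p0, ∀ n₁ u, n₁ < q → T p σ N n₁ u →
        ∃ w, T p σ N (q + 1) w ∧ Agr (p.a n₁) u w ∧
        ∀ i, p.a q ≤ i → i < p.g q + 2 ^ ((p.a q + 1) * n) → w i = false := by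
      intro n
      by_cases hn : 1 ≤ n
      · obtain ⟨p0, hp0⟩ := key_ext p σ N hN' hσ n hn
        exact ⟨p0, fun _ => hp0⟩
      · exact ⟨0, fun h => absurd h hn⟩
    choose p0 hp0 using hkey
    refine ⟨p0, fun _ x hAx => ?_⟩
    obtain ⟨n₁, u, hu, hbad⟩ := baire p σ N (range (X x))
      (fun q z => ∀ i, p.a q ≤ i → i < min (L x q) (p.a (q + 1)) → z i = false) (by
        intro n z w hzw hz i hi1 hi2
        rw [← hzw i (lt_of_lt_of_le hi2 (min_le_right _ _))]; exact hz i hi1 hi2) (by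
        refine Subset.trans ?_ (hAx.trans hBσ)
        intro z hz
        refine hz.mono ?_
        rintro q ⟨⟨n, rfl⟩, hq⟩
        refine ⟨⟨n, rfl⟩, fun i hi1 hi2 => hq i hi1 (lt_of_lt_of_le hi2 (le_min le_rfl ?_))⟩
        simp only [L, hinv]
        have h2 : 2 ^ ((p.a (X x n) + 1) * n) < p.M (X x n) := by
          unfold Par.M
          have := Nat.pow_le_pow_right (n := 2) (by norm_num)
            (Nat.mul_le_mul_left (p.a (X x n) + 1) (hXn x n).le)
          omega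
        have := p.g_add (X x n)
        omega)
    filter_upwards [eventually_ge_atTop 1, eventually_gt_atTop n₁] with n hn1 hn2
    by_contra hcon
    push Not at hcon
    have hq : p0 n ≤ X x n := (hcon.trans_le (hXx x n)).le
    have hqn : n₁ < X x n := hn2.trans (hXn x n)
    obtain ⟨w, hw, hag, hw0⟩ := hp0 n hn1 (X x n) hq n₁ u hqn hu
    refine hbad (X x n) hqn.le ⟨n, rfl⟩ w hw hag ?_
    intro i hi1 hi2
    refine hw0 i hi1 ?_
    have := lt_of_lt_of_le hi2 (min_le_left _ _)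
    simp only [L, hinv] at this
    exact this
  choose ψ hψ using hψ
  exact ⟨A, ψ, hA, fun x B hB hAx => hψ B hB x hAx⟩

end Pool.Agent.H31R3.Yor
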