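import Pool.Agent.H31R3.YorBasic

set_option autoImplicit false

/-! Coding null sets of the Cantor space by functions `ℕ → ℕ`. -/

namespace Pool.Agent.H31R3.Yor

open Filter Set MeasureTheory TopologicalSpace
open scoped ENNReal

/-- The fair coin. -/
noncomputable def coin : Measure Bool :=
  (2⁻¹ : ℝ≥0∞) • Measure.dirac false + (2⁻¹ : ℝ≥0∞) • Measure.dirac true

instance : IsProbabilityMeasure coin := ⟨by simp [coin, ENNReal.inv_two_add_inv_two]⟩

/-- The fair coin (product, Lebesgue, Haar) measure of the Cantor space. -/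
noncomputable def mu : Measure K := Measure.infinitePi (fun _ => coin)

instance : IsProbabilityMeasure mu := by unfold mu; infer_instance

theorem countable_clopens : Countable (Clopens K) :=
  Clopens.countable_iff_secondCountable.2 inferInstance

/-- an open set is the union of a disjoint sequence of clopen sets -/
theorem open_eq_iUnion_clopen {U : Set K} (hU : IsOpen U) : ∃ D : ℕ → Set K,
    (∀ n, IsClopen (D n)) ∧ Pairwise (Function.onFun Disjoint D) ∧ U = ⋃ n, D n := by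
  classical
  have := countable_clopens
  have hne : Nonempty (Clopens K) := ⟨⊤⟩
  obtain ⟨e, he⟩ := exists_surjective_nat (Clopens K)
  let W : ℕ → Set K := fun n => if (e n : Set K) ⊆ U then (e n : Set K) else ∅
  have hW : ∀ n, IsClopen (W n) := by
    intro n
    by_cases h : (e n : Set K) ⊆ U
    · simp only [W, if_pos h]; exact (e n).isClopen
    · simp only [W, if_neg h]; exact isClopen_empty
  refine ⟨disjointed W, fun n => ?_, disjoint_disjointed W, ?_⟩
  · exact disjointedRec (p := fun s : Set K => IsClopen s) (fun t i ht => ht.diff (hW i)) (hW n)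
  · rw [iUnion_disjointed]
    ext z
    rw [mem_iUnion]
    constructor
    · intro hz
      obtain ⟨V, hV, hzV, hVU⟩ := isTopologicalBasis_isClopen.exists_subset_of_mem_open hz hU
      obtain ⟨n, hn⟩ := he ⟨V, hV⟩
      refine ⟨n, ?_⟩
      have h : (e n : Set K) = V := by rw [hn]; rfl
      simp only [W, h, if_pos hVU]; exact hzV
    · rintro ⟨n, hn⟩
      by_cases h : (e n : Set K) ⊆ U
      · simp only [W, if_pos h] at hn; exact h hn
      · simp only [W, if_neg h] at hn; exact absurd hn (notMem_empty z)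

theorem null_seq {A : Set K} (hA : mu A = 0) : ∃ E : ℕ → Set K, (∀ n, IsClopen (E n)) ∧
    ∑' n, mu (E n) ≠ ∞ ∧ ∀ z ∈ A, ∃ᶠ n in atTop, z ∈ E n := by
  have h1 : ∀ m : ℕ, ∃ U ⊇ A, IsOpen U ∧ mu U < (2⁻¹ : ℝ≥0∞) ^ m := by
    intro m
    apply A.exists_isOpen_lt_of_lt
    rw [hA]
    exact ENNReal.pow_pos (by simp) m
  choose U hUA hU hUm using h1
  choose D hD1 hD2 hD3 using fun m => open_eq_iUnion_clopen (hU m)
  have hsum : ∀ m, ∑' j, mu (D m j) = mu (U m) := by
    intro m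
    rw [hD3 m, measure_iUnion (hD2 m) (fun j => (hD1 m j).2.measurableSet)]
  refine ⟨fun n => D n.unpair.1 n.unpair.2, fun n => hD1 _ _, ?_, ?_⟩
  · have e1 : ∑' n : ℕ, mu (D n.unpair.1 n.unpair.2) = ∑' q : ℕ × ℕ, mu (D q.1 q.2) :=
      Nat.pairEquiv.symm.tsum_eq (fun q : ℕ × ℕ => mu (D q.1 q.2))
    rw [e1, ENNReal.tsum_prod']
    have e2 : ∑' m, ∑' j, mu (D m j) ≤ ∑' m : ℕ, (2⁻¹ : ℝ≥0∞) ^ m :=
      ENNReal.tsum_le_tsum fun m => by rw [hsum m]; exact (hUm m).le
    refine ne_top_of_le_ne_top ?_ e2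
    rw [ENNReal.tsum_geometric, ENNReal.one_sub_inv_two, inv_inv]
    exact ENNReal.ofNat_ne_top
  · intro z hz
    rw [frequently_atTop]
    intro N
    have h2 : ∀ m, ∃ j, z ∈ D m j := by
      intro m
      have := hUA m hz
      rw [hD3 m, mem_iUnion] at this
      exact this
    obtain ⟨j, hj⟩ := h2 N
    refine ⟨Nat.pair N j, Nat.left_le_pair N j, ?_⟩
    simpa using hj

theorem null_code : ∃ C : ℕ → ℕ → Set K, (∀ n j, mu (C n j) ≤ (4⁻¹ : ℝ≥0∞) ^ n) ∧
    ∀ A, mu A = 0 → ∃ x : ℕ → ℕ, A ⊆ {z | ∃ᶠ n in atTop, z ∈ C n (x n)} := by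
  classical
  have := countable_clopens
  have hne : Nonempty (Clopens K) := ⟨⊤⟩
  obtain ⟨e, he⟩ := exists_surjective_nat (Clopens K)
  refine ⟨fun n j => if mu (e j) ≤ (4⁻¹ : ℝ≥0∞) ^ n then (e j : Set K) else ∅, ?_, ?_⟩
  · intro n j
    by_cases h : mu (e j) ≤ (4⁻¹ : ℝ≥0∞) ^ n
    · simp only [if_pos h]; exact h
    · simp only [if_neg h, measure_empty]; exact zero_le
  · intro A hA
    obtain ⟨E, hE1, hE2, hE3⟩ := null_seq hA
    have ht := ENNReal.tendsto_sum_nat_add (fun n => mu (E n)) hE2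
    have hex : ∀ i N : ℕ, ∃ n > N, ∑' k, mu (E (k + n)) ≤ (4⁻¹ : ℝ≥0∞) ^ i := by
      intro i N
      have h4 : (0 : ℝ≥0∞) < (4⁻¹ : ℝ≥0∞) ^ i := ENNReal.pow_pos (by simp) i
      have := (ht.eventually (gt_mem_nhds h4)).and (eventually_gt_atTop N)
      obtain ⟨n, hn1, hn2⟩ := this.exists
      exact ⟨n, hn2, hn1.le⟩
    choose nn hnn1 hnn2 using hex
    let t : ℕ → ℕ := fun i => Nat.rec (nn 0 0) (fun i s => nn (i + 1) s) i
    have ht1 : ∀ i, t i < t (i + 1) := fun i => hnn1 (i + 1) (t i)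
    have ht2 : ∀ i, ∑' k, mu (E (k + t i)) ≤ (4⁻¹ : ℝ≥0∞) ^ i := by
      intro i
      cases i with
      | zero => exact hnn2 0 0
      | succ i => exact hnn2 (i + 1) (t i)
    have htm : StrictMono t := strictMono_nat_of_lt_succ ht1
    -- blocks
    let B : ℕ → Set K := fun i => ⋃ k ∈ Finset.Ico (t i) (t (i + 1)), E k
    have hB1 : ∀ i, IsClopen (B i) := fun i => isClopen_biUnion_finset fun k _ => hE1 k
    have hB2 : ∀ i, mu (B i) ≤ (4⁻¹ : ℝ≥0∞) ^ i := by
      intro i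
      refine le_trans ?_ (ht2 i)
      refine (measure_biUnion_finset_le _ _).trans ?_
      have e1 : ∑ k ∈ Finset.Ico (t i) (t (i + 1)), mu (E k) =
          ∑ k ∈ Finset.range (t (i + 1) - t i), mu (E (k + t i)) := by
        rw [Finset.sum_Ico_eq_sum_range]
        exact Finset.sum_congr rfl fun k _ => by rw [add_comm]
      rw [e1]
      exact ENNReal.sum_le_tsum _
    have hx : ∀ i, ∃ j, e j = ⟨B i, hB1 i⟩ := fun i => he _
    choose x hx using hx
    have hxB : ∀ i, ((e (x i) : Clopens K) : Set K) = B i := fun i => by rw [hx i]; rfl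
    refine ⟨x, fun z hz => ?_⟩
    rw [mem_ofPred_eq, frequently_atTop]
    intro N
    obtain ⟨k, hk, hzk⟩ := (frequently_atTop.1 (hE3 z hz)) (t N)
    -- find the block
    have hexi : ∃ i, k < t (i + 1) := ⟨k, by
      have : k + 1 ≤ t (k + 1) := htm.le_apply
      omega⟩
    obtain ⟨i, hi1, hi2⟩ : ∃ i, t i ≤ k ∧ k < t (i + 1) := by
      refine ⟨Nat.find hexi, ?_, Nat.find_spec hexi⟩
      by_contra hcon
      push Not at hcon
      rcases Nat.eq_zero_or_pos (Nat.find hexi) with h0 | h0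
      · rw [h0] at hcon
        have : t 0 ≤ t N := htm.monotone (Nat.zero_le N)
        omega
      · have := Nat.find_min hexi (m := Nat.find hexi - 1) (by omega)
        apply this
        rwa [show Nat.find hexi - 1 + 1 = Nat.find hexi by omega]
    refine ⟨i, ?_, ?_⟩
    · by_contra hcon
      have hcon' : i + 1 ≤ N := by omega
      have : t (i + 1) ≤ t N := htm.monotone hcon'
      omega
    · have h5 : mu ((e (x i) : Clopens K) : Set K) ≤ (4⁻¹ : ℝ≥0∞) ^ i := by
        rw [hxB]; exact hB2 i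
      show z ∈ (if mu (e (x i)) ≤ (4⁻¹ : ℝ≥0∞) ^ i then (e (x i) : Set K) else ∅)
      rw [if_pos h5, hxB]
      exact mem_biUnion (Finset.mem_coe.2 (Finset.mem_Ico.2 ⟨hi1, hi2⟩)) hzk

theorem null_slalom {C : ℕ → ℕ → Set K} (hC : ∀ n j, mu (C n j) ≤ (4⁻¹ : ℝ≥0∞) ^ n)
    {S : ℕ → Finset ℕ} (hS : ∀ n, (S n).card ≤ n) :
    mu {z | ∃ᶠ n in atTop, ∃ j ∈ S n, z ∈ C n j} = 0 := by
  apply measure_setOfPred_frequently_eq_zero
  have h1 : ∀ n, mu {z | ∃ j ∈ S n, z ∈ C n j} ≤ (2⁻¹ : ℝ≥0∞) ^ n := by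
    intro n
    have e1 : {z | ∃ j ∈ S n, z ∈ C n j} = ⋃ j ∈ S n, C n j := by
      ext z; simp
    rw [e1]
    refine (measure_biUnion_finset_le _ _).trans ?_
    refine (Finset.sum_le_card_nsmul _ _ _ fun j _ => hC n j).trans ?_
    rw [nsmul_eq_mul]
    have e2 : (((S n).card : ℕ) : ℝ≥0∞) ≤ 2 ^ n := by
      have h2 : (S n).card ≤ 2 ^ n := (hS n).trans Nat.lt_two_pow_self.le
      exact_mod_cast h2
    refine (mul_le_mul_left e2 _).trans ?_
    rw [show (4⁻¹ : ℝ≥0∞) = 2⁻¹ * 2⁻¹ by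
      rw [← ENNReal.mul_inv (by simp) (by simp)]; norm_num]
    rw [mul_pow, ← mul_assoc, ← mul_pow, ENNReal.mul_inv_cancel (by simp) (by simp), one_pow,
      one_mul]
  refine ne_top_of_le_ne_top ?_ (ENNReal.tsum_le_tsum h1)
  rw [ENNReal.tsum_geometric, ENNReal.one_sub_inv_two, inv_inv]
  exact ENNReal.ofNat_ne_top

end Pool.Agent.H31R3.Yor
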