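import Pool.Agent.H31R3.YorTwo
import Pool.Agent.H31R3.YorDom
import Pool.Agent.H31R3.YorNull

set_option autoImplicit false

/-! Cardinal characteristics: the two new inequalities. -/

namespace Pool.Agent.H31R3.Yor

open Filter Set MeasureTheory TopologicalSpace Cardinal
open scoped ENNReal

/-- additivity of a family of sets of reals -/
noncomputable def add (J : Set (Set K)) : Cardinal.{0} :=
  sInf {κ | ∃ F : Set (Set K), F ⊆ J ∧ ⋃₀ F ∉ J ∧ #F = κ}

/-- cofinality of a family of sets of reals -/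
noncomputable def cof (J : Set (Set K)) : Cardinal.{0} :=
  sInf {κ | ∃ F : Set (Set K), F ⊆ J ∧ (∀ A ∈ J, ∃ B ∈ F, A ⊆ B) ∧ #F = κ}

/-- the ideal of null sets -/
def Nul : Set (Set K) := {A | mu A = 0}

noncomputable def minadd : Cardinal.{0} := ⨅ f : {f : ℕ → ℕ // StrictMono f}, add (I f)

noncomputable def supcof : Cardinal.{0} := ⨆ f : {f : ℕ → ℕ // StrictMono f}, cof (I f)

theorem minadd_le {f : ℕ → ℕ} (hf : StrictMono f) : minadd ≤ add (I f) :=
  ciInf_le' (fun f : {f : ℕ → ℕ // StrictMono f} => add (I f)) ⟨f, hf⟩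

theorem le_supcof {f : ℕ → ℕ} (hf : StrictMono f) : cof (I f) ≤ supcof :=
  le_ciSup (f := fun f : {f : ℕ → ℕ // StrictMono f} => cof (I f))
    Cardinal.bddAbove_of_small ⟨f, hf⟩

theorem add_spec {J : Set (Set K)} {ι : Type} (a : ι → Set K) (ha : ∀ i, a i ∈ J)
    (h : #ι < add J) : ⋃ i, a i ∈ J := by
  by_contra hcon
  have h1 : add J ≤ #(range a) := csInf_le' ⟨range a, by rintro _ ⟨i, rfl⟩; exact ha i, by
    rw [sUnion_range]; exact hcon, rfl⟩
  exact absurd (h1.trans mk_range_le) (not_le.2 h)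

theorem cof_spec (J : Set (Set K)) : ∃ F : Set (Set K), F ⊆ J ∧ (∀ A ∈ J, ∃ B ∈ F, A ⊆ B) ∧
    #F = cof J :=
  csInf_mem (s := {κ | ∃ F : Set (Set K), F ⊆ J ∧ (∀ A ∈ J, ∃ B ∈ F, A ⊆ B) ∧ #F = κ})
    ⟨#J, J, Subset.rfl, fun A hA => ⟨A, hA, Subset.rfl⟩, rfl⟩

/-! ### Basic facts on `I f` and null sets -/

theorem mu_pre (s : List Bool) : mu {z | Pre s z} = (2⁻¹ : ℝ≥0∞) ^ s.length := by
  have h1 : {z : K | Pre s z} =
      Set.pi (Finset.range s.length) (fun i => {s.getD i false}) := by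
    ext z
    rw [mem_ofPred_eq, Set.mem_pi]
    constructor
    · intro h i hi
      have hi' : i < s.length := by simpa using hi
      rw [mem_singleton_iff, List.getD_eq_getElem _ _ hi']
      exact (h i hi').symm
    · intro h i hi
      have := h i (by simpa using hi)
      rw [mem_singleton_iff, List.getD_eq_getElem _ _ hi] at this
      exact this.symm
  rw [h1, mu, Measure.infinitePi_pi _ (fun i _ => MeasurableSet.singleton _)]
  have h2 : ∀ c : Bool, coin {c} = 2⁻¹ := by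
    intro c
    cases c <;> simp [coin]
  simp only [h2, Finset.prod_const, Finset.card_range]

theorem I_null {f : ℕ → ℕ} (hf : StrictMono f) {A : Set K} (hA : A ∈ I f) : mu A = 0 := by
  obtain ⟨σ, hσ, hAσ⟩ := hA
  obtain ⟨N, hN⟩ := eventually_atTop.1 (hσ 1)
  let p : ℕ → K → Prop := fun n z => N ≤ n ∧ Pre (σ n) z
  refine measure_mono_null (t := {z | ∃ᶠ n in atTop, p n z}) ?_ ?_
  · intro z hz
    have h1 : ∃ᶠ n in atTop, Pre (σ n) z := hAσ hz
    exact (h1.and_eventually (eventually_ge_atTop N)).mono fun n hn => ⟨hn.2, hn.1⟩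
  · apply measure_setOfPred_frequently_eq_zero
    have h1 : ∀ n, mu {z | p n z} ≤ (2⁻¹ : ℝ≥0∞) ^ n := by
      intro n
      by_cases hn : N ≤ n
      · refine (measure_mono (t := {z | Pre (σ n) z}) fun z hz => hz.2).trans ?_
        rw [mu_pre]
        have h2 := hN n hn
        simp only [pow_one] at h2
        exact pow_le_pow_right_of_le_one' (by simp) (hf.le_apply.trans h2)
      · have h3 : {z | p n z} = ∅ := by
          ext z; simp [p, hn]
        rw [h3, measure_empty]; exact zero_le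
    refine ne_top_of_le_ne_top ?_ (ENNReal.tsum_le_tsum h1)
    rw [ENNReal.tsum_geometric, ENNReal.one_sub_inv_two, inv_inv]
    exact ENNReal.ofNat_ne_top

theorem singleton_mem_I {f : ℕ → ℕ} (hf : StrictMono f) (z : K) : {z} ∈ I f := by
  refine ⟨fun n => tk z (f (n ^ n)), ?_, ?_⟩
  · intro k
    filter_upwards [eventually_ge_atTop (max k 1)] with n hn
    rw [length_tk]
    exact hf.monotone (Nat.pow_le_pow_right (le_trans (le_max_right _ _) hn)
      (le_trans (le_max_left _ _) hn))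
  · rw [singleton_subset_iff]
    exact Frequently.of_forall fun n => pre_tk (Agr.refl _ _)

theorem mu_univ_ne : mu (univ : Set K) ≠ 0 := by
  rw [measure_univ]; exact one_ne_zero

theorem mu_singleton (z : K) : mu {z} = 0 :=
  I_null (f := fun n => n) (fun _ _ h => h) (singleton_mem_I (fun _ _ h => h) z)

theorem add_nul_spec : ∃ F : Set (Set K), F ⊆ Nul ∧ ⋃₀ F ∉ Nul ∧ #F = add Nul :=
  csInf_mem (s := {κ | ∃ F : Set (Set K), F ⊆ Nul ∧ ⋃₀ F ∉ Nul ∧ #F = κ})
    ⟨_, range (fun z : K => ({z} : Set K)), by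
      rintro _ ⟨z, rfl⟩
      exact mu_singleton z, by
      intro h
      have h1 : ⋃₀ range (fun z : K => ({z} : Set K)) = Set.univ := by
        ext z; simp
      rw [h1] at h
      exact mu_univ_ne h, rfl⟩

/-- a fixed parameter -/
def par0 : Par := par1 (fun _ => 0)

/-! ### The two inequalities -/

theorem minadd_le_add_null : minadd ≤ add Nul := by
  classical
  by_contra hcon
  push Not at hcon
  obtain ⟨F, hF, hFU, hFc⟩ := add_nul_spec
  rw [← hFc] at hcon
  have hlt : ∀ {f : ℕ → ℕ}, StrictMono f → #F < add (I f) := fun hf =>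
    hcon.trans_le (minadd_le hf)
  obtain ⟨C, hC, hcode⟩ := null_code
  choose! x hx using hcode
  obtain ⟨A0, ψ, hA0, hψ⟩ := dom_step par0
  have hB0 := add_spec (fun A : F => A0 (x A)) (fun A => hA0 _) (hlt par0.f_strictMono)
  set B0 := ⋃ A : F, A0 (x A) with hB0def
  obtain ⟨f1, f2, a1, a2, S, hf1, hf2, ha1, ha2, hS, hloc⟩ := two_step (ψ B0)
  have hB1 := add_spec (fun A : F => a1 (x A)) (fun A => ha1 _) (hlt hf1)
  set B1 := ⋃ A : F, a1 (x A) with hB1def
  have hB2 := add_spec (fun A : F => a2 B1 (x A)) (fun A => ha2 _ _) (hlt hf2)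
  set B2 := ⋃ A : F, a2 B1 (x A) with hB2def
  apply hFU
  refine measure_mono_null ?_ (null_slalom hC (hS B1 B2))
  apply sUnion_subset
  intro A hA z hz
  have hdom := hψ (x A) B0 hB0 (subset_iUnion (fun A : F => A0 (x A)) ⟨A, hA⟩)
  have hev := hloc (x A) hdom B1 hB1 B2 hB2 (subset_iUnion (fun A : F => a1 (x A)) ⟨A, hA⟩)
    (subset_iUnion (fun A : F => a2 B1 (x A)) ⟨A, hA⟩)
  have hfr : ∃ᶠ n in atTop, z ∈ C n (x A n) := hx A (hF hA) hz
  exact (hfr.and_eventually hev).mono fun n hn => ⟨x A n, hn.2, hn.1⟩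

theorem aleph0_le_supcof : ℵ₀ ≤ supcof := by
  have hf : StrictMono (fun n : ℕ => n) := fun _ _ h => h
  refine le_trans ?_ (le_supcof hf)
  obtain ⟨F, hF, hcof, hc⟩ := cof_spec (I (fun n => n))
  rw [← hc]
  by_contra hcon
  push Not at hcon
  have hfin : F.Finite := Cardinal.lt_aleph0_iff_set_finite.1 hcon
  have h1 : mu (⋃₀ F) = 0 := by
    rw [sUnion_eq_biUnion, measure_biUnion_null_iff hfin.countable]
    exact fun A hA => I_null hf (hF hA)
  have h2 : ⋃₀ F = Set.univ := by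
    rw [eq_univ_iff_forall]
    intro z
    obtain ⟨B, hB, hzB⟩ := hcof {z} (singleton_mem_I hf z)
    exact ⟨B, hB, hzB rfl⟩
  rw [h2] at h1
  exact mu_univ_ne h1

theorem cof_null_le_supcof : cof Nul ≤ supcof := by
  classical
  obtain ⟨C, hC, hcode⟩ := null_code
  choose! x hx using hcode
  obtain ⟨A0, ψ, hA0, hψ⟩ := dom_step par0
  obtain ⟨D0, hD0, hcof0, hc0⟩ := cof_spec (I par0.f)
  choose f1 f2 a1 a2 S hf1 hf2 ha1 ha2 hS hloc using two_step
  choose D hD hcofD hcD using fun f : ℕ → ℕ => cof_spec (I f)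
  let ι : Type := Σ B0 : D0, (D (f1 (ψ B0)) × D (f2 (ψ B0)))
  let G : ι → Set K := fun q =>
    {z | ∃ᶠ n in atTop, ∃ j ∈ S (ψ q.1) q.2.1 q.2.2 n, z ∈ C n j}
  have h1 : cof Nul ≤ #(range G) := by
    refine csInf_le' ⟨range G, ?_, ?_, rfl⟩
    · rintro _ ⟨q, rfl⟩
      exact null_slalom hC (hS _ _ _)
    · intro A hA
      obtain ⟨B0, hB0, hAB0⟩ := hcof0 _ (hA0 (x A))
      have hdom := hψ (x A) B0 (hD0 hB0) hAB0
      obtain ⟨B1, hB1, hAB1⟩ := hcofD _ _ (ha1 (ψ B0) (x A))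
      obtain ⟨B2, hB2, hAB2⟩ := hcofD _ _ (ha2 (ψ B0) B1 (x A))
      have hev := hloc (ψ B0) (x A) hdom B1 (hD _ hB1) B2 (hD _ hB2) hAB1 hAB2
      refine ⟨_, ⟨⟨⟨B0, hB0⟩, ⟨B1, hB1⟩, ⟨B2, hB2⟩⟩, rfl⟩, fun z hz => ?_⟩
      have hfr : ∃ᶠ n in atTop, z ∈ C n (x A n) := hx A hA hz
      exact (hfr.and_eventually hev).mono fun n hn => ⟨x A n, hn.2, hn.1⟩
  refine h1.trans (mk_range_le.trans ?_)
  have hinf := aleph0_le_supcof
  have h2 : #ι = Cardinal.sum (fun B0 : D0 => #(D (f1 (ψ B0)) × D (f2 (ψ B0)))) := mk_sigma _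
  rw [h2]
  have h3 : ∀ B0 : D0, #(D (f1 (ψ B0)) × D (f2 (ψ B0))) ≤ supcof := by
    intro B0
    rw [mk_prod, lift_id, lift_id, hcD, hcD]
    refine (mul_le_mul' (le_supcof (hf1 _)) (le_supcof (hf2 _))).trans ?_
    rw [mul_eq_self hinf]
  refine (sum_le_sum _ _ h3).trans ?_
  rw [sum_const', hc0]
  refine (mul_le_mul' (le_supcof par0.f_strictMono) le_rfl).trans ?_
  rw [mul_eq_self hinf]

end Pool.Agent.H31R3.Yor
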