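import Pool.Agent.H31R3.YorTukey

set_option autoImplicit false

/-! The Yorioka ideal of the identity is Tukey below every Yorioka ideal. -/

namespace Pool.Agent.H31R3.Yor

open Filter Set MeasureTheory TopologicalSpace Cardinal
open scoped ENNReal

theorem add_le_of_tukey {f g : ℕ → ℕ} (hf : StrictMono f) (Φ Ψ : Set K → Set K)
    (h1 : ∀ A ∈ I f, Φ A ∈ I g) (h2 : ∀ B ∈ I g, Ψ B ∈ I f)
    (h3 : ∀ A ∈ I f, ∀ B ∈ I g, Φ A ⊆ B → A ⊆ Ψ B) : add (I g) ≤ add (I f) := by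
  obtain ⟨F, hF, hFU, hFc⟩ := add_I_spec hf
  by_contra hcon
  push Not at hcon
  rw [← hFc] at hcon
  have hB := add_spec (fun A : F => Φ A) (fun A => h1 A (hF A.2)) hcon
  apply hFU
  refine I_mono (h2 (⋃ A : F, Φ A) hB) (sUnion_subset fun A hA => ?_)
  exact h3 A (hF hA) _ hB (subset_iUnion (fun A : F => Φ A) ⟨A, hA⟩)

theorem cof_le_of_tukey {f g : ℕ → ℕ} (Φ Ψ : Set K → Set K)
    (h1 : ∀ A ∈ I f, Φ A ∈ I g) (h2 : ∀ B ∈ I g, Ψ B ∈ I f)
    (h3 : ∀ A ∈ I f, ∀ B ∈ I g, Φ A ⊆ B → A ⊆ Ψ B) : cof (I f) ≤ cof (I g) := by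
  obtain ⟨F, hF, hFcof, hFc⟩ := cof_spec (I g)
  rw [← hFc]
  refine le_trans (csInf_le' ⟨Ψ '' F, ?_, ?_, rfl⟩) mk_image_le
  · rintro _ ⟨B, hB, rfl⟩; exact h2 B (hF hB)
  · intro A hA
    obtain ⟨B, hB, hAB⟩ := hFcof (Φ A) (h1 A hA)
    exact ⟨Ψ B, ⟨B, hB, rfl⟩, h3 A hA B (hF hB) hAB⟩

theorem tukey_id {f : ℕ → ℕ} (hf : StrictMono f) : ∃ (Φ Ψ : Set K → Set K),
    (∀ A ∈ I (fun n => n), Φ A ∈ I f) ∧ (∀ B ∈ I f, Ψ B ∈ I (fun n => n)) ∧
    ∀ A ∈ I (fun n => n), ∀ B ∈ I f, Φ A ⊆ B → A ⊆ Ψ B := by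
  classical
  let F : K → K := fun z m => if h : ∃ i, f i = m then z h.choose else false
  have hF : ∀ z i, F z (f i) = z i := by
    intro z i
    have h : ∃ j, f j = f i := ⟨i, rfl⟩
    simp only [F, dif_pos h]
    congr 1
    exact hf.injective h.choose_spec
  refine ⟨fun A => F '' A, fun B => F ⁻¹' B, ?_, ?_, ?_⟩
  · rintro A ⟨σ, hσ, hAσ⟩
    refine ⟨fun n => tk (F (fun i => (σ n).getD i false)) (f (σ n).length), ?_, ?_⟩
    · intro k
      filter_upwards [hσ k] with n hn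
      rw [length_tk]
      exact hf.monotone hn
    · rintro _ ⟨z, hz, rfl⟩
      have h1 : ∃ᶠ n in atTop, Pre (σ n) z := hAσ hz
      refine h1.mono fun n hn => pre_tk ?_
      intro m hm
      by_cases h : ∃ i, f i = m
      · obtain ⟨i, rfl⟩ := h
        have hi : i < (σ n).length := hf.lt_iff_lt.1 hm
        have e1 : ((σ n).getD i false) = z i := by
          rw [List.getD_eq_getElem _ _ hi]
          exact hn i hi
        have e2 := hF (fun i => (σ n).getD i false) i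
        rw [e2, hF z i]
        exact e1
      · simp only [F, dif_neg h]
  · rintro B ⟨τ, hτ, hBτ⟩
    have hex : ∀ n, ∃ i, (τ n).length ≤ f i := fun n => ⟨(τ n).length, hf.le_apply⟩
    have hlt : ∀ n i, i < Nat.find (hex n) → f i < (τ n).length := by
      intro n i hi
      exact not_le.1 (Nat.find_min (hex n) hi)
    refine ⟨fun n => tk (fun i => (τ n).getD (f i) false) (Nat.find (hex n)), ?_, ?_⟩
    · intro k
      filter_upwards [hτ k] with n hn
      rw [length_tk, Nat.le_find_iff]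
      intro i hi hcon
      have := hf hi
      omega
    · intro z hz
      have h1 : ∃ᶠ n in atTop, Pre (τ n) (F z) := hBτ hz
      refine h1.mono fun n hn => pre_tk ?_
      intro i hi
      have hi2 := hlt n i hi
      show (τ n).getD (f i) false = z i
      rw [List.getD_eq_getElem _ _ hi2, hn (f i) hi2, hF]
  · intro A _ B _ hAB z hz
    exact hAB ⟨z, hz, rfl⟩

theorem add_le_id {f : ℕ → ℕ} (hf : StrictMono f) : add (I f) ≤ add (I (fun n => n)) := by
  obtain ⟨Φ, Ψ, h1, h2, h3⟩ := tukey_id hf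
  exact add_le_of_tukey (fun _ _ h => h) Φ Ψ h1 h2 h3

theorem id_le_cof {f : ℕ → ℕ} (hf : StrictMono f) : cof (I (fun n => n)) ≤ cof (I f) := by
  obtain ⟨Φ, Ψ, h1, h2, h3⟩ := tukey_id hf
  exact cof_le_of_tukey Φ Ψ h1 h2 h3

theorem add_all_iff : (∀ f : ℕ → ℕ, StrictMono f → add (I f) = add (I (fun n => n))) ↔
    add (I (fun n => n)) = add Nul := by
  constructor
  · intro h
    rw [← minadd_eq]
    have : Nonempty {f : ℕ → ℕ // StrictMono f} := ⟨⟨fun n => n, fun _ _ h => h⟩⟩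
    obtain ⟨f, hf⟩ := ciInf_mem (fun f : {f : ℕ → ℕ // StrictMono f} => add (I f))
    rw [← h f f.2]
    exact hf
  · intro h f hf
    exact le_antisymm (add_le_id hf) (h.trans_le (add_null_le hf))

theorem cof_all_iff : (∀ f : ℕ → ℕ, StrictMono f → cof (I f) = cof (I (fun n => n))) ↔
    cof (I (fun n => n)) = cof Nul := by
  constructor
  · intro h
    apply le_antisymm (cof_le_null fun _ _ h => h)
    rw [← supcof_eq]
    exact ciSup_le' fun f => (h f f.2).le
  · intro h f hf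
    exact le_antisymm ((cof_le_null hf).trans h.symm.le) (id_le_cof hf)

end Pool.Agent.H31R3.Yor
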