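import Pool.Agent.H31R3.YorNull

set_option autoImplicit false

/-! Null sets capture slaloms (Bartoszynski). -/

namespace Pool.Agent.H31R3.Yor

open Filter Set MeasureTheory TopologicalSpace ProbabilityTheory
open scoped ENNReal

/-- independence of events depending on disjoint finite sets of coordinates -/
theorem mu_inter (S T : Finset ℕ) (hST : Disjoint S T) (A B : Set K)
    (hA : ∀ z w : K, (∀ i ∈ S, z i = w i) → z ∈ A → w ∈ A)
    (hB : ∀ z w : K, (∀ i ∈ T, z i = w i) → z ∈ B → w ∈ B) :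
    mu (A ∩ B) = mu A * mu B := by
  have h1 : iIndepFun (fun (i : ℕ) (z : K) => z i) mu :=
    iIndepFun_infinitePi (P := fun _ : ℕ => coin) (X := fun _ c => c) (fun _ => measurable_id)
  have h2 := h1.indepFun_finset S T hST (fun i => measurable_pi_apply i)
  have eA : A = (fun (z : K) (i : S) => z i) ⁻¹' ((fun (z : K) (i : S) => z i) '' A) := by
    ext z
    constructor
    · intro hz; exact ⟨z, hz, rfl⟩
    · rintro ⟨w, hw, hwz⟩
      exact hA w z (fun i hi => congrFun hwz ⟨i, hi⟩) hw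
  have eB : B = (fun (z : K) (i : T) => z i) ⁻¹' ((fun (z : K) (i : T) => z i) '' B) := by
    ext z
    constructor
    · intro hz; exact ⟨z, hz, rfl⟩
    · rintro ⟨w, hw, hwz⟩
      exact hB w z (fun i hi => congrFun hwz ⟨i, hi⟩) hw
  have h3 := h2.measure_inter_preimage_eq_mul ((fun (z : K) (i : S) => z i) '' A)
    ((fun (z : K) (i : T) => z i) '' B) (Set.toFinite _).measurableSet
    (Set.toFinite _).measurableSet
  rw [← eA, ← eB] at h3
  exact h3

/-- the `j`-th block event of length `n` -/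
def Ev (n j : ℕ) : Set K := {z | ∀ i ∈ Finset.Ico (n * j) (n * (j + 1)), z i = true}

theorem mu_Ev (n j : ℕ) : mu (Ev n j) = (2⁻¹ : ℝ≥0∞) ^ n := by
  have h1 : Ev n j = Set.pi (Finset.Ico (n * j) (n * (j + 1))) (fun _ => {true}) := by
    ext z
    simp only [Ev, mem_ofPred_eq, Set.mem_pi, mem_singleton_iff, Finset.mem_coe]
  rw [h1, mu, Measure.infinitePi_pi _ (fun i _ => MeasurableSet.singleton _)]
  have h2 : coin {true} = 2⁻¹ := by simp [coin]
  simp only [h2, Finset.prod_const, Nat.card_Ico]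
  congr 1
  rw [Nat.mul_add]; omega

theorem isClopen_Ev (n j : ℕ) : IsClopen (Ev n j) := by
  have h1 : Ev n j = ⋂ i ∈ Finset.Ico (n * j) (n * (j + 1)), (fun z : K => z i) ⁻¹' {true} := by
    ext z
    simp only [Ev, mem_ofPred_eq, mem_iInter, mem_preimage, mem_singleton_iff]
  rw [h1]
  exact isClopen_biInter_finset fun i _ => (isClopen_discrete _).preimage (continuous_apply i)

theorem mu_inter_Ev (n : ℕ) (J : Finset ℕ) :
    mu (⋂ j ∈ J, (Ev n j)ᶜ) = (1 - (2⁻¹ : ℝ≥0∞) ^ n) ^ J.card := by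
  classical
  induction J using Finset.induction_on with
  | empty => simp
  | insert j J hj ih =>
    rw [Finset.set_biInter_insert, Finset.card_insert_of_notMem hj, pow_succ, mul_comm, ← ih]
    rw [mu_inter (Finset.Ico (n * j) (n * (j + 1)))
      (J.biUnion fun j' => Finset.Ico (n * j') (n * (j' + 1)))]
    · rw [prob_compl_eq_one_sub (isClopen_Ev n j).2.measurableSet, mu_Ev]
    · rw [Finset.disjoint_left]
      intro i hi hi2
      rw [Finset.mem_biUnion] at hi2
      obtain ⟨j', hj', hi2⟩ := hi2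
      rw [Finset.mem_Ico] at hi hi2
      have hne : j ≠ j' := fun h => hj (h ▸ hj')
      rcases lt_or_gt_of_ne hne with h | h
      · have : n * (j + 1) ≤ n * j' := Nat.mul_le_mul_left _ h
        omega
      · have : n * (j' + 1) ≤ n * j := Nat.mul_le_mul_left _ h
        omega
    · intro z w hzw hz hw
      exact hz fun i hi => by rw [hzw i hi]; exact hw i hi
    · intro z w hzw hz
      rw [mem_iInter₂] at hz ⊢
      intro j' hj' hw
      exact hz j' hj' fun i hi => by
        rw [hzw i (Finset.mem_biUnion.2 ⟨j', hj', hi⟩)]; exact hw i hi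

theorem pow_bound (n : ℕ) : (1 - (2⁻¹ : ℝ≥0∞) ^ n) ^ (n * 2 ^ n) ≤ (2⁻¹ : ℝ≥0∞) ^ n := by
  rw [mul_comm n, pow_mul]
  refine pow_le_pow_left' ?_ n
  have h1 : (1 - (2⁻¹ : ℝ≥0∞) ^ n) = ENNReal.ofReal (1 - 1 / ((2 ^ n : ℕ) : ℝ)) := by
    rw [ENNReal.ofReal_sub _ (by positivity), ENNReal.ofReal_one]
    congr 1
    rw [one_div, ENNReal.ofReal_inv_of_pos (by positivity), ENNReal.ofReal_natCast,
      Nat.cast_pow, Nat.cast_ofNat, ENNReal.inv_pow]
  have h2 : (0 : ℝ) ≤ 1 - 1 / ((2 ^ n : ℕ) : ℝ) := by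
    rw [sub_nonneg, div_le_one (by positivity)]
    exact_mod_cast Nat.one_le_two_pow
  rw [h1, ← ENNReal.ofReal_pow h2]
  have h3 : (1 - 1 / ((2 ^ n : ℕ) : ℝ)) ^ (2 ^ n) ≤ Real.exp (-1) :=
    Real.one_sub_div_pow_le_exp_neg (by exact_mod_cast Nat.one_le_two_pow)
  have h4 : Real.exp (-1) ≤ 2⁻¹ := by
    have := Real.exp_neg_one_lt_d9
    linarith
  refine (ENNReal.ofReal_le_ofReal (h3.trans h4)).trans ?_
  rw [ENNReal.ofReal_inv_of_pos (by norm_num)]
  norm_num

/-- Null sets capture slaloms. -/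
theorem loc_null : ∃ (h : ℕ → ℕ) (Φ : (ℕ → ℕ) → Set K) (S : Set K → ℕ → Finset ℕ),
    (∀ x, mu (Φ x) = 0) ∧ (∀ B n, (S B n).card ≤ h n) ∧
    ∀ x B, mu B = 0 → Φ x ⊆ B → ∀ᶠ n in atTop, x n ∈ S B n := by
  classical
  have := countable_clopens
  have hne : Nonempty (Clopens K) := ⟨⊤⟩
  obtain ⟨e, he⟩ := exists_surjective_nat (Clopens K)
  let Φ : (ℕ → ℕ) → Set K := fun x => {z | ∃ᶠ n in atTop, z ∈ Ev n (x n)}
  have hΦ : ∀ x, mu (Φ x) = 0 := by
    intro x
    apply measure_setOfPred_frequently_eq_zero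
    have h1 : ∀ n, mu {z | z ∈ Ev n (x n)} = (2⁻¹ : ℝ≥0∞) ^ n := fun n => mu_Ev n (x n)
    simp only [h1]
    rw [ENNReal.tsum_geometric, ENNReal.one_sub_inv_two, inv_inv]
    exact ENNReal.ofNat_ne_top
  have key : ∀ B : Set K, ∃ S : ℕ → Finset ℕ, (∀ n, (S n).card ≤ (n + 1) * (n * 2 ^ n)) ∧
      (mu B = 0 → ∀ x, Φ x ⊆ B → ∀ᶠ n in atTop, x n ∈ S n) := by
    intro B
    by_cases hB : mu B = 0
    swap
    · exact ⟨fun _ => ∅, fun n => by simp, fun h => absurd h hB⟩
    obtain ⟨U, hBU, hU, hU1⟩ := B.exists_isOpen_lt_of_lt (μ := mu) 1 (by rw [hB]; exact one_pos)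
    let ν : Measure K := mu.restrict Uᶜ
    let Q : Set K := ν.support
    have hQc : IsClosed Q := Measure.isClosed_support
    have hQU : Q ⊆ Uᶜ := by
      have := Measure.support_restrict_subset (μ := mu) (s := Uᶜ)
      rw [hU.isClosed_compl.closure_eq] at this
      exact this.trans inter_subset_left
    have hν : ν ≠ 0 := by
      intro h
      have h2 : ν Set.univ = 0 := by rw [h]; rfl
      rw [Measure.restrict_apply_univ, prob_compl_eq_zero_iff hU.measurableSet] at h2
      exact absurd h2 hU1.ne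
    have hQne : Q.Nonempty := Measure.nonempty_support hν
    have hQcompl : ν Qᶜ = 0 := Measure.measure_compl_support
    let s : ℕ → ℕ → Set ℕ := fun i n => {j | (e i : Set K) ∩ Q ∩ Ev n j = ∅}
    let t : ℕ → ℕ → Finset ℕ := fun i n =>
      if h : (s i n).Finite ∧ (s i n).ncard ≤ n * 2 ^ n then h.1.toFinset else ∅
    refine ⟨fun n => (Finset.range (n + 1)).biUnion fun i => t i n, ?_, ?_⟩
    · intro n
      refine Finset.card_biUnion_le.trans ?_
      refine (Finset.sum_le_card_nsmul _ _ (n * 2 ^ n) fun i _ => ?_).trans ?_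
      · by_cases h : (s i n).Finite ∧ (s i n).ncard ≤ n * 2 ^ n
        · simp only [t, dif_pos h]
          rw [← Set.ncard_eq_toFinset_card _ h.1]
          exact h.2
        · simp only [t, dif_neg h, Finset.card_empty]; exact Nat.zero_le _
      · simp
    · intro _ x hx
      -- Baire
      have hcomp : CompactSpace Q := isCompact_iff_compactSpace.1 hQc.isCompact
      have hne : Nonempty Q := hQne.to_subtype
      let W : ℕ → Set Q := fun m => {z | ∃ n, m ≤ n ∧ (z : K) ∈ Ev n (x n)}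
      have hW : ∀ m, IsOpen (W m) := by
        intro m
        have : W m = ⋃ n, ⋃ (_ : m ≤ n), (fun z : Q => (z : K)) ⁻¹' Ev n (x n) := by
          ext z; simp [W]
        rw [this]
        exact isOpen_iUnion fun n => isOpen_iUnion fun _ =>
          (isClopen_Ev n (x n)).2.preimage continuous_subtype_val
      obtain ⟨m, hm⟩ : ∃ m, ¬ Dense (W m) := by
        by_contra hcon
        push Not at hcon
        obtain ⟨z, hz⟩ := (dense_iInter_of_isOpen_nat hW hcon).nonempty
        rw [mem_iInter] at hz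
        have h1 : (z : K) ∈ Φ x := by
          show ∃ᶠ n in atTop, (z : K) ∈ Ev n (x n)
          rw [frequently_atTop]
          intro m
          obtain ⟨n, hn, hn2⟩ := hz m
          exact ⟨n, hn, hn2⟩
        exact hQU z.2 (hBU (hx h1))
      -- a clopen set
      obtain ⟨i, hi1, hi2⟩ : ∃ i, ((e i : Set K) ∩ Q).Nonempty ∧
          ∀ n, m ≤ n → (e i : Set K) ∩ Q ∩ Ev n (x n) = ∅ := by
        rw [dense_iff_inter_open] at hm
        push Not at hm
        obtain ⟨V, hV, ⟨z, hz⟩, hVW⟩ := hm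
        obtain ⟨V', hV', rfl⟩ := isOpen_induced_iff.1 hV
        obtain ⟨V2, hV2, hzV2, hV2V⟩ :=
          isTopologicalBasis_isClopen.exists_subset_of_mem_open (show (z : K) ∈ V' from hz) hV'
        obtain ⟨i, hi⟩ := he ⟨V2, hV2⟩
        have hiV : (e i : Set K) = V2 := by rw [hi]; rfl
        refine ⟨i, ⟨z, by rw [hiV]; exact hzV2, z.2⟩, ?_⟩
        intro n hn
        rw [hiV, eq_empty_iff_forall_notMem]
        rintro w ⟨⟨hw1, hw2⟩, hw3⟩
        have h5 : (⟨w, hw2⟩ : Q) ∈ (Subtype.val ⁻¹' V' ∩ W m : Set Q) :=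
          ⟨hV2V hw1, n, hn, hw3⟩
        rw [hVW] at h5
        exact h5
      -- positive measure
      have hpos : 0 < ν (e i : Set K) := by
        obtain ⟨z, hz1, hz2⟩ := hi1
        exact (Measure.mem_support_iff_forall z).1 hz2 _ ((e i).isClopen.2.mem_nhds hz1)
      have hfin : ∀ᶠ n in atTop, ∀ J : Finset ℕ, (J : Set ℕ) ⊆ s i n → J.card < n * 2 ^ n := by
        have h6 : Tendsto (fun n : ℕ => (2⁻¹ : ℝ≥0∞) ^ n) atTop (nhds 0) :=
          ENNReal.tendsto_pow_atTop_nhds_zero_of_lt_one (by simp)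
        filter_upwards [h6.eventually (gt_mem_nhds hpos)] with n hn J hJ
        by_contra hcon
        push Not at hcon
        obtain ⟨J', hJ', hJc⟩ := Finset.exists_subset_card_eq hcon
        have h7 : ν (e i : Set K) ≤ mu (⋂ j ∈ J', (Ev n j)ᶜ) := by
          have h8 : ν (e i : Set K) ≤ ν ((e i : Set K) ∩ Q) + ν Qᶜ := by
            refine (measure_mono ?_).trans (measure_union_le _ _)
            intro z hz
            by_cases hzQ : z ∈ Q
            · exact Or.inl ⟨hz, hzQ⟩
            · exact Or.inr hzQ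
          rw [hQcompl, add_zero] at h8
          refine h8.trans ((measure_mono ?_).trans (Measure.restrict_apply_le _ _))
          intro z hz
          rw [mem_iInter₂]
          intro j hj hzj
          have h9 : (e i : Set K) ∩ Q ∩ Ev n j = ∅ := hJ (hJ' hj)
          exact (eq_empty_iff_forall_notMem.1 h9 z) ⟨hz, hzj⟩
        rw [mu_inter_Ev, hJc] at h7
        exact absurd (h7.trans (pow_bound n)) (not_le.2 hn)
      filter_upwards [hfin, eventually_ge_atTop i, eventually_ge_atTop m] with n hn hin hmn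
      have hsfin : (s i n).Finite := by
        by_contra hinf
        obtain ⟨J, hJ, hJc⟩ := Set.Infinite.exists_subset_card_eq hinf (n * 2 ^ n)
        exact absurd (hn J hJ) (by omega)
      have hscard : (s i n).ncard ≤ n * 2 ^ n := by
        rw [Set.ncard_eq_toFinset_card _ hsfin]
        exact (hn _ (by simp)).le
      rw [Finset.mem_biUnion]
      refine ⟨i, Finset.mem_range.2 (by omega), ?_⟩
      simp only [t, dif_pos (And.intro hsfin hscard)]
      rw [Set.Finite.mem_toFinset]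
      exact hi2 n hmn
  choose S hS1 hS2 using key
  exact ⟨_, Φ, S, hΦ, hS1, fun x B hB hx => hS2 B hB x hx⟩

end Pool.Agent.H31R3.Yor
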