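import Pool.Agent.H31R3.YorBasic

set_option autoImplicit false

namespace Pool.Agent.H31R3.Yor

open Filter Set

/-- One step of localization through a Yorioka ideal. -/
theorem one_step (p : Par) : ∃ (A : (ℕ → ℕ) → Set K) (S : Set K → ℕ → Finset ℕ),
    (∀ x, A x ∈ I p.f) ∧ (∀ B n, (S B n).card ≤ (n + 1) * p.M n) ∧
    ∀ x : ℕ → ℕ, (∀ n, x n < p.b n) → ∀ B ∈ I p.f, A x ⊆ B → ∀ᶠ n in atTop, x n ∈ S B n := by
  classical
  -- the sets
  let good : (ℕ → ℕ) → ℕ → K → Prop := fun x n z =>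
    ∀ i, p.a n ≤ i → i < p.a (n + 1) → z i = (x n).testBit (i - p.a n)
  let A : (ℕ → ℕ) → Set K := fun x => {z | ∃ᶠ n in atTop, n ∈ (univ : Set ℕ) ∧ good x n z}
  have hA : ∀ x, A x ∈ I p.f := by
    intro x
    refine mem_I_of_blocks p.a p.a_strictMono p.f p.f_strictMono univ (fun n => p.a (n + 1))
      (fun n i => (x n).testBit (i - p.a n)) ?_
    intro k
    filter_upwards [eventually_ge_atTop k] with n hn _
    have h1 : 2 ^ ((p.a n + 1) * k) ≤ 2 ^ ((p.a n + 1) * n) :=
      Nat.pow_le_pow_right (by norm_num) (Nat.mul_le_mul_left _ hn)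
    have h2 : 2 ^ ((p.a n + 1) * k) < p.M n := by unfold Par.M; omega
    have h3 := p.f_le h2
    have h4 := p.g_add n
    omega
  -- the slaloms for a coded set
  have hS : ∀ B : Set K, ∃ S : ℕ → Finset ℕ, (∀ n, (S n).card ≤ (n + 1) * p.M n) ∧
      (B ∈ I p.f → ∀ x : ℕ → ℕ, (∀ n, x n < p.b n) → A x ⊆ B → ∀ᶠ n in atTop, x n ∈ S n) := by
    intro B
    by_cases hB : B ∈ I p.f
    swap
    · exact ⟨fun _ => ∅, fun n => by simp, fun h => absurd h hB⟩
    obtain ⟨σ, hσ, hBσ⟩ := hB
    obtain ⟨N, hN⟩ := eventually_atTop.1 (hσ 1)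
    have hN' : ∀ m ≥ N, p.f m ≤ (σ m).length := by
      intro m hm
      have := hN m hm
      simpa using this
    let u : ℕ → K := fun c i => c.testBit i
    have hpath : ∀ e : ℕ, ∃ Z : ℕ → K, T p σ N e.unpair.1 (u e.unpair.2) →
        ∀ n ≥ e.unpair.1, T p σ N n (Z n) ∧ Agr (p.a e.unpair.1) (u e.unpair.2) (Z n) := by
      intro e
      by_cases h : T p σ N e.unpair.1 (u e.unpair.2)
      · obtain ⟨Z, hZ⟩ := exists_path hN' h
        exact ⟨Z, fun _ => hZ⟩
      · exact ⟨fun _ _ => false, fun h' => absurd h' h⟩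
    choose Z hZ using hpath
    let Se : ℕ → ℕ → Finset ℕ := fun e n =>
      if T p σ N e.unpair.1 (u e.unpair.2) ∧ e.unpair.1 ≤ n then
        (Finset.range (p.b n)).filter (fun j => ¬ T p σ N (n + 1) (glue p (Z e n) n j))
      else ∅
    have hSe : ∀ e n, (Se e n).card ≤ p.M n := by
      intro e n
      by_cases h : T p σ N e.unpair.1 (u e.unpair.2) ∧ e.unpair.1 ≤ n
      · simp only [Se, if_pos h]
        refine bad_child hN' (hZ e h.1 n h.2).1 _ ?_ ?_
        · intro j hj
          rw [Finset.mem_filter, Finset.mem_range] at hj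
          have h1 : p.b n < 2 ^ p.b n := Nat.lt_two_pow_self
          have h2 : 2 ^ p.b n ≤ 2 ^ (p.b n + p.M n) := Nat.pow_le_pow_right (by norm_num) (by omega)
          omega
        · intro j hj
          exact (Finset.mem_filter.1 hj).2
      · simp only [Se, if_neg h, Finset.card_empty]; exact Nat.zero_le _
    refine ⟨fun n => (Finset.range (n + 1)).biUnion fun e => Se e n, ?_, ?_⟩
    · intro n
      refine Finset.card_biUnion_le.trans ?_
      refine (Finset.sum_le_card_nsmul _ _ (p.M n) fun e _ => hSe e n).trans ?_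
      simp
    · intro _ x hx hAx
      obtain ⟨n₁, w, hw, hbad⟩ := baire p σ N univ (good x) (by
          intro n z w hzw hz i hi1 hi2
          rw [← hzw i hi2]; exact hz i hi1 hi2) (hAx.trans hBσ)
      obtain ⟨c, -, hcw⟩ := exists_bits w (p.a n₁)
      have hcag : Agr (p.a n₁) w (u c) := fun i hi => (hcw i hi).symm
      have huc : T p σ N n₁ (u c) := hw.congr hcag
      filter_upwards [eventually_ge_atTop (Nat.pair n₁ c), eventually_ge_atTop n₁] with n hn1 hn2
      rw [Finset.mem_biUnion]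
      refine ⟨Nat.pair n₁ c, Finset.mem_range.2 (by omega), ?_⟩
      have hv : T p σ N (Nat.pair n₁ c).unpair.1 (u (Nat.pair n₁ c).unpair.2) ∧
          (Nat.pair n₁ c).unpair.1 ≤ n := by
        rw [Nat.unpair_pair]; exact ⟨huc, hn2⟩
      simp only [Se, if_pos hv]
      rw [Finset.mem_filter, Finset.mem_range]
      refine ⟨hx n, fun hT => ?_⟩
      have hZ' := hZ (Nat.pair n₁ c) hv.1 n hv.2
      rw [Nat.unpair_pair] at hZ'
      refine hbad n hn2 (mem_univ n) _ hT ?_ ?_
      · refine hcag.trans (hZ'.2.trans ?_)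
        exact (agr_glue p _ n (x n)).mono (p.a_strictMono.monotone hn2)
      · intro i hi1 hi2
        simp [glue, not_lt.2 hi1]
  choose S hS1 hS2 using hS
  exact ⟨A, S, hA, hS1, fun x hx B hB hAx => hS2 B hB x hx hAx⟩

end Pool.Agent.H31R3.Yor
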