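import Pool.Agent.H31R3.YorLoc
import Pool.Agent.H31R3.YorCard

set_option autoImplicit false

/-! Every Yorioka ideal is Tukey below the null ideal; final cardinal equalities. -/

namespace Pool.Agent.H31R3.Yor

open Filter Set MeasureTheory TopologicalSpace Cardinal
open scoped ENNReal

theorem tukey {f : ℕ → ℕ} (hf : StrictMono f) : ∃ (Φ Ψ : Set K → Set K),
    (∀ A ∈ I f, mu (Φ A) = 0) ∧ (∀ B, Ψ B ∈ I f) ∧
    ∀ A ∈ I f, ∀ B, mu B = 0 → Φ A ⊆ B → A ⊆ Ψ B := by
  classical
  obtain ⟨h, Φ0, S, hΦ0, hS, hloc⟩ := loc_null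
  -- blocks
  let s : ℕ → ℕ := fun n => n + ∑ i ∈ Finset.range (n + 1), h i
  have hs : StrictMono s := by
    apply strictMono_nat_of_lt_succ
    intro n
    simp only [s]
    rw [Finset.sum_range_succ _ (n + 1)]
    omega
  have hsh : ∀ n, h n ≤ s n := by
    intro n
    have : h n ≤ ∑ i ∈ Finset.range (n + 1), h i :=
      Finset.single_le_sum (f := h) (fun i _ => Nat.zero_le _)
        (Finset.mem_range.2 (Nat.lt_succ_self n))
    simp only [s]; omega
  let blk : ℕ → ℕ := fun i => Nat.findGreatest (fun n => s n ≤ i) i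
  have hblk1 : ∀ i, s 0 ≤ i → s (blk i) ≤ i := by
    intro i hi
    exact Nat.findGreatest_spec (P := fun n => s n ≤ i) (Nat.zero_le i) hi
  have hblk3 : ∀ i n, s n ≤ i → n ≤ blk i := by
    intro i n h
    exact Nat.le_findGreatest (hs.le_apply.trans h) h
  have hblk2 : ∀ i, i < s (blk i + 1) := by
    intro i
    by_contra hcon
    push Not at hcon
    have := hblk3 i _ hcon
    omega
  -- data for members of the ideal
  have hdata : ∀ A : Set K, ∃ (σ : ℕ → List Bool) (g : ℕ → ℕ), A ∈ I f →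
      (∀ k, ∀ i ≥ g k, f (i ^ k) ≤ (σ i).length) ∧ A ⊆ Linf σ := by
    intro A
    by_cases hA : A ∈ I f
    · obtain ⟨σ, hσ, hAσ⟩ := hA
      choose g hg using fun k => eventually_atTop.1 (hσ k)
      exact ⟨σ, g, fun _ => ⟨hg, hAσ⟩⟩
    · exact ⟨fun _ => [], fun _ => 0, fun h => absurd h hA⟩
  choose σ g hσg using hdata
  let x : Set K → ℕ → ℕ := fun A n =>
    Encodable.encode (((List.range (s (n + 1))).map (σ A), g A n) : List (List Bool) × ℕ)
  let D : ℕ → List (List Bool) × ℕ := fun c =>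
    (Encodable.decode (α := List (List Bool) × ℕ) c).getD ([], 0)
  have hD : ∀ A n, D (x A n) = ((List.range (s (n + 1))).map (σ A), g A n) := by
    intro A n
    simp only [D, x, Encodable.encodek, Option.getD_some]
  let G : Set K → ℕ → ℕ := fun B k => (S B k).sup (fun c => (D c).2)
  let cand : Set K → ℕ → ℕ → List Bool := fun B j c =>
    (D ((S B (blk j)).toList.getD c 0)).1.getD j []
  let τ' : Set K → ℕ → ℕ → List Bool := fun B j c =>
    if ∀ k ≤ j, G B k ≤ j → f (j ^ k) ≤ (cand B j c).length then cand B j c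
    else List.replicate (f (j ^ j)) false
  have hτ' : ∀ B j c k, k ≤ j → 1 ≤ j → G B k ≤ j → f (j ^ k) ≤ (τ' B j c).length := by
    intro B j c k hk hj hG
    by_cases h : ∀ k ≤ j, G B k ≤ j → f (j ^ k) ≤ (cand B j c).length
    · simp only [τ', if_pos h]; exact h k hk hG
    · simp only [τ', if_neg h, List.length_replicate]
      exact hf.monotone (Nat.pow_le_pow_right hj hk)
  let τ : Set K → ℕ → List Bool := fun B m => τ' B (Nat.sqrt m) (m - Nat.sqrt m * Nat.sqrt m)
  refine ⟨fun A => Φ0 (x A), fun B => Linf (τ B), fun A _ => hΦ0 _, fun B => ⟨τ B, ?_, Subset.rfl⟩,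
    ?_⟩
  · intro k
    filter_upwards [eventually_ge_atTop ((max (max 2 (4 * k)) (G B (4 * k))) *
      (max (max 2 (4 * k)) (G B (4 * k))))] with m hm
    have hj : max (max 2 (4 * k)) (G B (4 * k)) ≤ Nat.sqrt m := Nat.le_sqrt.2 hm
    have hj1 : 2 ≤ Nat.sqrt m := le_trans (le_trans (le_max_left _ _) (le_max_left _ _)) hj
    have hj2 : 4 * k ≤ Nat.sqrt m := le_trans (le_trans (le_max_right _ _) (le_max_left _ _)) hj
    have hj3 : G B (4 * k) ≤ Nat.sqrt m := le_trans (le_max_right _ _) hj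
    refine le_trans (hf.monotone ?_) (hτ' B (Nat.sqrt m) _ (4 * k) hj2 (by omega) hj3)
    rw [pow_mul]
    apply Nat.pow_le_pow_left
    have h1 : m < (Nat.sqrt m + 1) * (Nat.sqrt m + 1) := Nat.lt_succ_sqrt m
    have h2 : (Nat.sqrt m + 1) ≤ Nat.sqrt m * Nat.sqrt m := by nlinarith
    have h3 := Nat.mul_le_mul h2 h2
    calc m ≤ (Nat.sqrt m * Nat.sqrt m) * (Nat.sqrt m * Nat.sqrt m) := h1.le.trans h3
      _ = Nat.sqrt m ^ 4 := by ring
  · intro A hA B hB hAB z hz
    obtain ⟨hg, hAσ⟩ := hσg A hA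
    obtain ⟨N, hN⟩ := eventually_atTop.1 (hloc (x A) B hB hAB)
    have hz' : ∃ᶠ j in atTop, Pre (σ A j) z := hAσ hz
    show ∃ᶠ m in atTop, Pre (τ B m) z
    rw [frequently_atTop] at hz' ⊢
    intro M
    obtain ⟨j, hj, hpre⟩ := hz' (max M (max (max (s N) 1) ((Finset.range N).sup (g A))))
    have hjM : M ≤ j := le_trans (le_max_left _ _) hj
    have hjs : s N ≤ j :=
      le_trans (le_trans (le_max_left _ _) (le_trans (le_max_left _ _) (le_max_right _ _))) hj
    have hj1 : 1 ≤ j :=
      le_trans (le_trans (le_max_right _ _) (le_trans (le_max_left _ _) (le_max_right _ _))) hj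
    have hjg : (Finset.range N).sup (g A) ≤ j :=
      le_trans (le_trans (le_max_right _ _) (le_max_right _ _)) hj
    have hNb : N ≤ blk j := hblk3 j N hjs
    have hmem := hN (blk j) hNb
    have hs0 : s 0 ≤ j := (hs.monotone (Nat.zero_le N)).trans hjs
    set c := (S B (blk j)).toList.idxOf (x A (blk j)) with hc
    have hcl : c < (S B (blk j)).toList.length := List.idxOf_lt_length_iff.2 (Finset.mem_toList.2 hmem)
    have hcj : c ≤ j := by
      have h1 := hS B (blk j)
      have h2 := hsh (blk j)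
      have h3 := hblk1 j hs0
      rw [Finset.length_toList] at hcl
      omega
    have hsq : Nat.sqrt (j * j + c) = j := Nat.sqrt_add_eq j (by omega)
    have hcand : cand B j c = σ A j := by
      simp only [cand]
      have e1 : (S B (blk j)).toList.getD c 0 = x A (blk j) := by
        rw [List.getD_eq_getElem _ _ hcl]
        exact List.getElem_idxOf _
      rw [e1, hD]
      have hjl : j < ((List.range (s (blk j + 1))).map (σ A)).length := by
        rw [List.length_map, List.length_range]; exact hblk2 j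
      show ((List.range (s (blk j + 1))).map (σ A)).getD j [] = σ A j
      rw [List.getD_eq_getElem _ _ hjl, List.getElem_map, List.getElem_range]
    have hok : ∀ k ≤ j, G B k ≤ j → f (j ^ k) ≤ (cand B j c).length := by
      intro k _ hGk
      rw [hcand]
      apply hg k
      rcases le_or_gt N k with h | h
      · have h1 := hN k h
        have h2 : (D (x A k)).2 ≤ G B k := Finset.le_sup (f := fun c => (D c).2) h1
        rw [hD] at h2
        exact h2.trans hGk
      · exact (Finset.le_sup (f := g A) (Finset.mem_range.2 h)).trans hjg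
    refine ⟨j * j + c, ?_, ?_⟩
    · have : j ≤ j * j := Nat.le_mul_self j
      omega
    · have h1 : τ B (j * j + c) = σ A j := by
        simp only [τ, hsq, Nat.add_sub_cancel_left]
        simp only [τ', if_pos hok]
        exact hcand
      rw [h1]; exact hpre

theorem I_mono {f : ℕ → ℕ} {A B : Set K} (hB : B ∈ I f) (h : A ⊆ B) : A ∈ I f := by
  obtain ⟨σ, h1, h2⟩ := hB
  exact ⟨σ, h1, h.trans h2⟩

theorem add_I_spec {f : ℕ → ℕ} (hf : StrictMono f) :
    ∃ F : Set (Set K), F ⊆ I f ∧ ⋃₀ F ∉ I f ∧ #F = add (I f) :=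
  csInf_mem (s := {κ | ∃ F : Set (Set K), F ⊆ I f ∧ ⋃₀ F ∉ I f ∧ #F = κ})
    ⟨_, range (fun z : K => ({z} : Set K)), by
      rintro _ ⟨z, rfl⟩
      exact singleton_mem_I hf z, by
      intro h
      have h1 : ⋃₀ range (fun z : K => ({z} : Set K)) = Set.univ := by
        ext z; simp
      rw [h1] at h
      exact mu_univ_ne (I_null hf h), rfl⟩

theorem add_null_le {f : ℕ → ℕ} (hf : StrictMono f) : add Nul ≤ add (I f) := by
  obtain ⟨Φ, Ψ, h1, h2, h3⟩ := tukey hf
  obtain ⟨F, hF, hFU, hFc⟩ := add_I_spec hf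
  by_contra hcon
  push Not at hcon
  rw [← hFc] at hcon
  have hB := add_spec (fun A : F => Φ A) (fun A => h1 A (hF A.2)) hcon
  apply hFU
  refine I_mono (h2 (⋃ A : F, Φ A)) (sUnion_subset fun A hA => ?_)
  exact h3 A (hF hA) _ hB (subset_iUnion (fun A : F => Φ A) ⟨A, hA⟩)

theorem cof_le_null {f : ℕ → ℕ} (hf : StrictMono f) : cof (I f) ≤ cof Nul := by
  obtain ⟨Φ, Ψ, h1, h2, h3⟩ := tukey hf
  obtain ⟨F, hF, hFcof, hFc⟩ := cof_spec Nul
  rw [← hFc]
  refine le_trans (csInf_le' ⟨Ψ '' F, ?_, ?_, rfl⟩) mk_image_le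
  · rintro _ ⟨B, -, rfl⟩; exact h2 B
  · intro A hA
    obtain ⟨B, hB, hAB⟩ := hFcof (Φ A) (h1 A hA)
    exact ⟨Ψ B, ⟨B, hB, rfl⟩, h3 A hA B (hF hB) hAB⟩

theorem minadd_eq : minadd = add Nul := by
  refine le_antisymm minadd_le_add_null ?_
  have : Nonempty {f : ℕ → ℕ // StrictMono f} := ⟨⟨fun n => n, fun _ _ h => h⟩⟩
  exact le_ciInf fun f => add_null_le f.2

theorem supcof_eq : supcof = cof Nul :=
  le_antisymm (ciSup_le' fun f => cof_le_null f.2) cof_null_le_supcof

end Pool.Agent.H31R3.Yor
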