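import Pool.Agent.H31R3.YorLocal

set_option autoImplicit false

namespace Pool.Agent.H31R3.Yor

open Filter Set

/-- code of the block of `x` of length `L` starting at `s` -/
def cod (x : ℕ → ℕ) (s : ℕ) : ℕ → ℕ
  | 0 => 0
  | L + 1 => Nat.pair (x (s + L)) (cod x s L)

def dec (s : ℕ) : ℕ → ℕ → ℕ → ℕ
  | 0, _, _ => 0
  | L + 1, c, i => if i = s + L then c.unpair.1 else dec s L c.unpair.2 i

theorem dec_cod (x : ℕ → ℕ) (s L i : ℕ) (h1 : s ≤ i) (h2 : i < s + L) :
    dec s L (cod x s L) i = x i := by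
  induction L with
  | zero => omega
  | succ L ih =>
    simp only [dec, cod]
    by_cases h : i = s + L
    · rw [if_pos h, Nat.unpair_pair, h]
    · rw [if_neg h, Nat.unpair_pair]
      exact ih (by omega)

theorem pair_mono {a b c d : ℕ} (h1 : a ≤ c) (h2 : b ≤ d) : Nat.pair a b ≤ Nat.pair c d := by
  have e1 : Nat.pair a b ≤ Nat.pair c b := by
    rcases h1.lt_or_eq with h | h
    · exact (Nat.pair_lt_pair_left b h).le
    · rw [h]
  have e2 : Nat.pair c b ≤ Nat.pair c d := by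
    rcases h2.lt_or_eq with h | h
    · exact (Nat.pair_lt_pair_right c h).le
    · rw [h]
  exact e1.trans e2

theorem cod_mono {x y : ℕ → ℕ} (h : ∀ i, x i ≤ y i) (s L : ℕ) : cod x s L ≤ cod y s L := by
  induction L with
  | zero => exact le_rfl
  | succ L ih => exact pair_mono (h _) ih

/-- one step of the recursion for the parameters -/
def nxt (g : ℕ → ℕ) (n : ℕ) (t : ℕ × ℕ × ℕ) : ℕ × ℕ × ℕ :=
  let a2' := t.2.2 + 2 * (2 ^ ((t.2.2 + 1) * n) + 1) + ((n + 1) * (2 ^ ((t.2.1 + 1) * n) + 1) + 1)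
  let i' := t.1 + 1 + (n + 2) * (2 ^ ((a2' + 1) * (n + 1)) + 1)
  let a1' := t.2.1 + 2 * (2 ^ ((t.2.1 + 1) * n) + 1) + (cod g t.1 (i' - t.1) + 1)
  (i', a1', a2')

def st (g : ℕ → ℕ) : ℕ → ℕ × ℕ × ℕ
  | 0 => (2, 0, 0)
  | n + 1 => nxt g n (st g n)

def par1 (g : ℕ → ℕ) : Par where
  b n := cod g (st g n).1 ((st g (n + 1)).1 - (st g n).1) + 1
  a n := (st g n).2.1
  ha _ := rfl

def par2 (g : ℕ → ℕ) : Par where
  b n := (n + 1) * (par1 g).M n + 1
  a n := (st g n).2.2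
  ha _ := rfl

def it (g : ℕ → ℕ) (n : ℕ) : ℕ := (st g n).1

theorem it_succ (g : ℕ → ℕ) (n : ℕ) : it g (n + 1) = it g n + 1 + (n + 2) * (par2 g).M (n + 1) := rfl

theorem it_zero (g : ℕ → ℕ) : it g 0 = 2 := rfl

theorem par2_M_zero (g : ℕ → ℕ) : (par2 g).M 0 = 2 := rfl

theorem it_strictMono (g : ℕ → ℕ) : StrictMono (it g) := by
  apply strictMono_nat_of_lt_succ
  intro n
  rw [it_succ]; omega

theorem le_it (g : ℕ → ℕ) (n : ℕ) : (n + 1) * (par2 g).M n ≤ it g n := by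
  cases n with
  | zero => rw [par2_M_zero, it_zero]
  | succ n => rw [it_succ]; exact Nat.le_add_left _ _

theorem two_step (g : ℕ → ℕ) : ∃ (f1 f2 : ℕ → ℕ) (a1 : (ℕ → ℕ) → Set K)
    (a2 : Set K → (ℕ → ℕ) → Set K) (S : Set K → Set K → ℕ → Finset ℕ),
    StrictMono f1 ∧ StrictMono f2 ∧ (∀ x, a1 x ∈ I f1) ∧ (∀ B x, a2 B x ∈ I f2) ∧
    (∀ B1 B2 i, (S B1 B2 i).card ≤ i) ∧
    ∀ x : ℕ → ℕ, (∀ᶠ n in atTop, x n ≤ g n) → ∀ B1 ∈ I f1, ∀ B2 ∈ I f2, a1 x ⊆ B1 →
      a2 B1 x ⊆ B2 → ∀ᶠ i in atTop, x i ∈ S B1 B2 i := by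
  classical
  obtain ⟨A1, S1, hA1, hS1, h1⟩ := one_step (par1 g)
  obtain ⟨A2, S2, hA2, hS2, h2⟩ := one_step (par2 g)
  -- codes
  let c : (ℕ → ℕ) → ℕ → ℕ := fun x n =>
    cod (fun i => min (x i) (g i)) (it g n) (it g (n + 1) - it g n)
  have hc : ∀ x n, c x n < (par1 g).b n := by
    intro x n
    exact Nat.lt_succ_of_le (cod_mono (fun i => min_le_right _ _) _ _)
  let e : Set K → (ℕ → ℕ) → ℕ → ℕ := fun B x n =>
    if c x n ∈ S1 B n then (S1 B n).toList.idxOf (c x n) else 0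
  have he : ∀ B x n, e B x n < (par2 g).b n := by
    intro B x n
    by_cases h : c x n ∈ S1 B n
    · simp only [e, if_pos h]
      have e1 := List.idxOf_lt_length_iff.2 (Finset.mem_toList.2 h)
      rw [Finset.length_toList] at e1
      have e2 := hS1 B n
      exact Nat.lt_succ_of_le (e1.le.trans e2)
    · simp only [e, if_neg h]
      exact Nat.succ_pos _
  let blk : ℕ → ℕ := fun i => Nat.findGreatest (fun n => it g n ≤ i) i
  have hblk1 : ∀ i, it g 0 ≤ i → it g (blk i) ≤ i := by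
    intro i hi
    exact Nat.findGreatest_spec (P := fun n => it g n ≤ i) (Nat.zero_le i) hi
  have hblk3 : ∀ i n, it g n ≤ i → n ≤ blk i := by
    intro i n h
    exact Nat.le_findGreatest (((it_strictMono g).le_apply).trans h) h
  have hblk2 : ∀ i, i < it g (blk i + 1) := by
    intro i
    by_contra hcon
    push Not at hcon
    have := hblk3 i _ hcon
    omega
  let S : Set K → Set K → ℕ → Finset ℕ := fun B1 B2 i =>
    if it g 0 ≤ i then (S2 B2 (blk i)).image (fun k =>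
      dec (it g (blk i)) (it g (blk i + 1) - it g (blk i)) ((S1 B1 (blk i)).toList.getD k 0) i)
    else ∅
  refine ⟨(par1 g).f, (par2 g).f, fun x => A1 (c x), fun B x => A2 (e B x), S,
    (par1 g).f_strictMono, (par2 g).f_strictMono, fun x => hA1 _, fun B x => hA2 _, ?_, ?_⟩
  · intro B1 B2 i
    by_cases h : it g 0 ≤ i
    · simp only [S, if_pos h]
      refine Finset.card_image_le.trans ((hS2 B2 _).trans ((le_it g _).trans (hblk1 i h)))
    · simp only [S, if_neg h, Finset.card_empty]; exact Nat.zero_le _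
  · intro x hx B1 hB1 B2 hB2 hx1 hx2
    obtain ⟨n1, hn1⟩ := eventually_atTop.1 (h1 (c x) (hc x) B1 hB1 hx1)
    obtain ⟨n2, hn2⟩ := eventually_atTop.1 (h2 (e B1 x) (he B1 x) B2 hB2 hx2)
    filter_upwards [hx, eventually_ge_atTop (it g (max n1 n2))] with i hxi hi
    have hi0 : it g 0 ≤ i := ((it_strictMono g).monotone (Nat.zero_le _)).trans hi
    have hb := hblk3 i _ hi
    have hm1 := hn1 (blk i) (le_trans (le_max_left _ _) hb)
    have hm2 := hn2 (blk i) (le_trans (le_max_right _ _) hb)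
    simp only [S, if_pos hi0]
    rw [Finset.mem_image]
    refine ⟨_, hm2, ?_⟩
    simp only [e, if_pos hm1]
    have e1 : (S1 B1 (blk i)).toList.getD ((S1 B1 (blk i)).toList.idxOf (c x (blk i))) 0
        = c x (blk i) := by
      rw [List.getD_eq_getElem _ _ (List.idxOf_lt_length_iff.2 (Finset.mem_toList.2 hm1))]
      exact List.getElem_idxOf _
    rw [e1]
    simp only [c]
    have l1 := hblk1 i hi0
    have l2 := hblk2 i
    rw [dec_cod _ _ _ _ l1 (by omega)]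
    exact min_eq_left hxi

end Pool.Agent.H31R3.Yor
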